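import Pool.Agent.Helper1.ES.Defs
import Pool.Agent.Helper26.TOT.SieveIneq
import Pool.Agent.Helper26.TOT.JGe
import Pool.Agent.Helper26.TOT.HPow
import Pool.Agent.Helper26.TOT.HLow
import Pool.Agent.Helper26.TOT.SieveForms
import Pool.Agent.Helper91.TOT.S6
import Pool.Agent.Helper41.TOT.TotLow

/-!
ES-N3a Brun-Titchmarsh for the primes `l ∈ (2^{35n}, 2^{80n}]` with `m ∣ l s + 1` (all in one residue class
`c` modulo `m`, `gcd(c,m)=1`).  In each dyadic block `(2^i, 2^{i+1}]`, `35 n ≤ i < 80 n`: write `l = m h + c`,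
`c < m`, `h < X := 2^{i+1}/m + 1`; sieve with one form: `Helper44.TOT.SieveForms` (proved in
Helper26/TOT/SieveForms.lean; take `Fs = {(m, c)}`, `Q = m`, `z^3 ≤ X`, `log z ≥ c n`; all hypotheses on `Q` are
trivial for one form except `l ∣ m → l ∣ Q`; primes `l > 2^{35n} > z` have no prime factor `≤ z`) gives
`#l ≤ C (2^i / m) (m / φ(m)) / n`; and `m / φ(m) ≤ C (1 + log (1 + log m))^C` is `Helper44.TOT.TotLow`
(Helper41/TOT/TotLow.lean; needs `RecipPrime`, also proved, grep for it).  Sum over the `45 n` blocks.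
-/

set_option autoImplicit false

namespace Pool.Agent.Helper1.ES

open Finset

private theorem n3a_block (n m c i : ℕ) (hn : 1 ≤ n) (hm : 1 ≤ m) (hm2 : m ≤ 2 ^ (5 * n))
    (hi : 35 * n ≤ i) (S : Finset ℕ)
    (hS : ∀ l ∈ S, l.Prime ∧ 2 ^ i < l ∧ l ≤ 2 ^ (i + 1) ∧ l % m = c) :
    (S.card : ℝ) ≤ 6 * 2 ^ i / ((m.totient : ℝ) * (n * Real.log 2)) := by
  have hsf := Pool.Agent.Helper26.TOT.sieveForms Pool.Agent.Helper26.TOT.sieveIneq
    Pool.Agent.Helper26.TOT.jge Pool.Agent.Helper26.TOT.hpow Pool.Agent.Helper26.TOT.hlow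
  have hinj : Set.InjOn (fun l => l / m) (S : Set ℕ) := by
    intro a ha b hb hab
    have e1 := (hS a ha).2.2.2
    have e2 := (hS b hb).2.2.2
    simp only at hab
    rw [← Nat.div_add_mod a m, ← Nat.div_add_mod b m, e1, e2, hab]
  have hcard : (S.image (fun l => l / m)).card = S.card := Finset.card_image_of_injOn hinj
  have hz2 : 2 ≤ 2 ^ n := by
    calc 2 = 2 ^ 1 := rfl
      _ ≤ 2 ^ n := Nat.pow_le_pow_right (by norm_num) hn
  have key := hsf {(m, c)} m (2 ^ (i + 1) / m + 1) (2 ^ n) (Finset.singleton_nonempty _) hm hz2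
    (by
      intro l hl h1
      rw [Finset.card_singleton] at h1
      exact absurd hl.two_le (by omega))
    (by
      intro f hf l hl h1
      rw [Finset.mem_singleton] at hf
      rw [hf] at h1
      exact h1)
    (by
      intro f hf g hg hne
      rw [Finset.mem_singleton] at hf hg
      exact absurd (hf.trans hg.symm) hne)
    (S.image (fun l => l / m))
    (by
      intro h hh
      rw [Finset.mem_image] at hh
      obtain ⟨l, hl, rfl⟩ := hh
      obtain ⟨h1, h2, h3, h4⟩ := hS l hl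
      refine ⟨Nat.lt_succ_of_le (Nat.div_le_div_right h3), ?_⟩
      intro f hf p hp hpz hd
      rw [Finset.mem_singleton] at hf
      rw [hf] at hd
      simp only at hd
      rw [← h4, Nat.div_add_mod] at hd
      have := (Nat.prime_dvd_prime_iff_eq hp h1).1 hd
      rw [this] at hpz
      have : 2 ^ n ≤ 2 ^ i := Nat.pow_le_pow_right (by norm_num) (by omega)
      omega)
  rw [hcard, Finset.card_singleton] at key
  have hmr : (0 : ℝ) < m := by exact_mod_cast hm
  have hφ : (0 : ℝ) < m.totient := by exact_mod_cast Nat.totient_pos.2 hm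
  have hnr : (0 : ℝ) < n := by exact_mod_cast hn
  have hl2 : (0 : ℝ) < Real.log 2 := Real.log_pos (by norm_num)
  have hb : (((2 ^ (i + 1) / m + 1 : ℕ)) : ℝ) + ((2 ^ n : ℕ) : ℝ) ^ 3 ≤ 6 * 2 ^ i / m := by
    have h1 : (((2 ^ (i + 1) / m : ℕ)) : ℝ) ≤ 2 ^ (i + 1) / m := by
      have := @Nat.cast_div_le ℝ _ _ _ (2 ^ (i + 1)) m
      push_cast at this
      exact this
    have h2 : (1 : ℝ) ≤ 2 ^ (i + 1) / m := by
      rw [le_div_iff₀ hmr, one_mul]
      have : m ≤ 2 ^ (i + 1) := hm2.trans (Nat.pow_le_pow_right (by norm_num) (by omega))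
      exact_mod_cast this
    have h3 : ((2 ^ n : ℕ) : ℝ) ^ 3 ≤ 2 ^ (i + 1) / m := by
      rw [le_div_iff₀ hmr]
      have : (2 ^ n) ^ 3 * m ≤ 2 ^ (i + 1) := by
        calc (2 ^ n) ^ 3 * m ≤ (2 ^ n) ^ 3 * 2 ^ (5 * n) := Nat.mul_le_mul_left _ hm2
          _ = 2 ^ (n * 3 + 5 * n) := by rw [← pow_mul, ← pow_add]
          _ ≤ 2 ^ (i + 1) := Nat.pow_le_pow_right (by norm_num) (by omega)
      exact_mod_cast this
    push_cast at h1 h3 ⊢
    have h4 : (6 : ℝ) * 2 ^ i / m = 3 * (2 ^ (i + 1) / m) := by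
      rw [pow_succ]; ring
    rw [h4]
    linarith
  have hlog : Real.log ((2 ^ n : ℕ) : ℝ) = n * Real.log 2 := by
    push_cast
    rw [Real.log_pow]
  rw [hlog, pow_one] at key
  refine key.trans ?_
  have h5 : (0 : ℝ) ≤ ((1 : ℕ) : ℝ) * m / ((m.totient : ℝ) * (n * Real.log 2)) := by positivity
  refine (mul_le_mul_of_nonneg_right hb h5).trans (le_of_eq ?_)
  push_cast
  field_simp

theorem prime_recip : ∃ C n₀ : ℕ, 1 ≤ C ∧ ∀ n : ℕ, n₀ ≤ n → ∀ m s : ℕ, 1 ≤ m → m ≤ 2 ^ (5 * n) →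
    ∑ l ∈ (Ioc (2 ^ (35 * n)) (2 ^ (80 * n))).filter (fun l => l.Prime ∧ m ∣ l * s + 1),
      1 / (l : ℝ) ≤ psi C n / m := by
  obtain ⟨C, hC⟩ := Pool.Agent.Helper41.TOT.totLow Pool.Agent.Helper91.TOT.recipPrime
  refine ⟨400 * C * 3 ^ C + C + 1, 1, by omega, ?_⟩
  intro n hn m s hm hm2
  set A := (Ioc (2 ^ (35 * n)) (2 ^ (80 * n))).filter (fun l => l.Prime ∧ m ∣ l * s + 1) with hA
  have hmr : (0 : ℝ) < m := by exact_mod_cast hm
  have hφ : (0 : ℝ) < m.totient := by exact_mod_cast Nat.totient_pos.2 hm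
  have hnr : (0 : ℝ) < n := by exact_mod_cast hn
  have hl2 : (0 : ℝ) < Real.log 2 := Real.log_pos (by norm_num)
  have hlog1 : (0 : ℝ) ≤ Real.log (1 + n) := Real.log_nonneg (by linarith)
  -- all elements are in one residue class
  have hclass : ∃ c, ∀ l ∈ A, l % m = c := by
    rcases A.eq_empty_or_nonempty with h | ⟨l0, hl0⟩
    · exact ⟨0, fun l hl => by rw [h] at hl; simp at hl⟩
    · refine ⟨l0 % m, ?_⟩
      intro l hl
      rw [hA, mem_filter] at hl hl0
      have h1 := hl.2.2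
      have h2 := hl0.2.2
      have hcop : IsCoprime (m : ℤ) (s : ℤ) := by
        obtain ⟨t, ht⟩ := h1
        refine ⟨t, -l, ?_⟩
        have : (l : ℤ) * s + 1 = m * t := by exact_mod_cast ht
        linear_combination -this
      have h3 : (m : ℤ) ∣ ((l : ℤ) - l0) * s := by
        have e1 : (m : ℤ) ∣ (l : ℤ) * s + 1 := by exact_mod_cast h1
        have e2 : (m : ℤ) ∣ (l0 : ℤ) * s + 1 := by exact_mod_cast h2
        have := dvd_sub e1 e2
        have e3 : ((l : ℤ) - l0) * s = (l : ℤ) * s + 1 - ((l0 : ℤ) * s + 1) := by ring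
        rw [e3]
        exact this
      have h4 : (m : ℤ) ∣ (l : ℤ) - l0 := hcop.dvd_of_dvd_mul_right h3
      have h5 : (l0 : ℤ) ≡ l [ZMOD m] := (Int.modEq_iff_dvd).2 h4
      have h6 : l0 ≡ l [MOD m] := (Int.natCast_modEq_iff).1 h5
      exact h6.symm
  obtain ⟨c, hc⟩ := hclass
  have hAm : ∀ l ∈ A, l.Prime ∧ 2 ^ (35 * n) < l ∧ l ≤ 2 ^ (80 * n) := by
    intro l hl
    rw [hA, mem_filter, mem_Ioc] at hl
    exact ⟨hl.2.1, hl.1.1, hl.1.2⟩
  have hclog : ∀ l ∈ A, 2 ^ (Nat.clog 2 l - 1) < l ∧ l ≤ 2 ^ (Nat.clog 2 l - 1 + 1) ∧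
      35 * n ≤ Nat.clog 2 l - 1 ∧ Nat.clog 2 l - 1 < 80 * n := by
    intro l hl
    obtain ⟨h1, h2, h3⟩ := hAm l hl
    have e1 : l ≤ 2 ^ Nat.clog 2 l := Nat.le_pow_clog (by norm_num) l
    have e2 : 2 ^ (Nat.clog 2 l - 1) < l := Nat.pow_pred_clog_lt_self (by norm_num) h1.one_lt
    have e3 : 35 * n < Nat.clog 2 l := (Nat.pow_lt_pow_iff_right (by norm_num)).1 (h2.trans_le e1)
    have e4 : Nat.clog 2 l - 1 < 80 * n :=
      (Nat.pow_lt_pow_iff_right (a := 2) (by norm_num)).1 (e2.trans_le h3)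
    refine ⟨e2, ?_, by omega, e4⟩
    rw [Nat.sub_add_cancel (by omega)]
    exact e1
  have hmaps : ∀ l ∈ A, Nat.clog 2 l - 1 ∈ Ico (35 * n) (80 * n) := by
    intro l hl
    rw [mem_Ico]
    exact ⟨(hclog l hl).2.2.1, (hclog l hl).2.2.2⟩
  rw [← Finset.sum_fiberwise_of_maps_to hmaps]
  have hblock : ∀ i ∈ Ico (35 * n) (80 * n),
      ∑ l ∈ A.filter (fun l => Nat.clog 2 l - 1 = i), 1 / (l : ℝ) ≤
        6 / ((m.totient : ℝ) * (n * Real.log 2)) := by
    intro i hi
    rw [mem_Ico] at hi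
    have hS : ∀ l ∈ A.filter (fun l => Nat.clog 2 l - 1 = i),
        l.Prime ∧ 2 ^ i < l ∧ l ≤ 2 ^ (i + 1) ∧ l % m = c := by
      intro l hl
      rw [mem_filter] at hl
      obtain ⟨h1, h2⟩ := hl
      have h3 := hclog l h1
      rw [h2] at h3
      exact ⟨(hAm l h1).1, h3.1, h3.2.1, hc l h1⟩
    have hb := n3a_block n m c i hn hm hm2 hi.1 _ hS
    have h2i : (0 : ℝ) < 2 ^ i := by positivity
    calc ∑ l ∈ A.filter (fun l => Nat.clog 2 l - 1 = i), 1 / (l : ℝ)
        ≤ ∑ l ∈ A.filter (fun l => Nat.clog 2 l - 1 = i), 1 / (2 : ℝ) ^ i := by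
          apply Finset.sum_le_sum
          intro l hl
          have h3 := (hS l hl).2.1
          have h4 : (2 : ℝ) ^ i ≤ l := by exact_mod_cast h3.le
          exact one_div_le_one_div_of_le h2i h4
      _ = ((A.filter (fun l => Nat.clog 2 l - 1 = i)).card : ℝ) * (1 / (2 : ℝ) ^ i) := by
          rw [Finset.sum_const, nsmul_eq_mul]
      _ ≤ (6 * 2 ^ i / ((m.totient : ℝ) * (n * Real.log 2))) * (1 / (2 : ℝ) ^ i) :=
          mul_le_mul_of_nonneg_right hb (by positivity)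
      _ = 6 / ((m.totient : ℝ) * (n * Real.log 2)) := by field_simp
  have hsum := Finset.sum_le_sum hblock
  refine hsum.trans ?_
  rw [Finset.sum_const, Nat.card_Ico, nsmul_eq_mul]
  have hcast : ((80 * n - 35 * n : ℕ) : ℝ) = 45 * n := by
    have : 80 * n - 35 * n = 45 * n := by omega
    rw [this]; push_cast; ring
  rw [hcast]
  have hD := hC m hm
  have hlogm : Real.log m ≤ 4 * n := by
    have h1 : Real.log m ≤ Real.log (((2 ^ (5 * n) : ℕ)) : ℝ) := by
      apply Real.log_le_log hmr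
      exact_mod_cast hm2
    push_cast at h1
    rw [Real.log_pow] at h1
    push_cast at h1
    have h2 := Real.log_two_lt_d9
    nlinarith
  have hlogm0 : 0 ≤ Real.log m := Real.log_nonneg (by exact_mod_cast hm)
  have h1 : 1 + Real.log (1 + Real.log m) ≤ 3 * (1 + Real.log (1 + n)) := by
    have e1 : Real.log (1 + Real.log m) ≤ Real.log (4 * (1 + n)) :=
      Real.log_le_log (by linarith) (by linarith)
    rw [Real.log_mul (by norm_num) (by linarith)] at e1
    have e2 : Real.log 4 ≤ 2 := by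
      have : Real.log 4 = 2 * Real.log 2 := by
        rw [show (4 : ℝ) = 2 ^ 2 by norm_num, Real.log_pow]; push_cast; ring
      have h2 := Real.log_two_lt_d9
      linarith
    linarith
  have h0 : 0 ≤ 1 + Real.log (1 + Real.log m) := by
    have := Real.log_nonneg (show (1 : ℝ) ≤ 1 + Real.log m by linarith)
    linarith
  have hD2 : (m : ℝ) / m.totient ≤ C * 3 ^ C * (1 + Real.log (1 + n)) ^ C := by
    refine hD.trans ?_
    rw [mul_assoc, ← mul_pow]
    exact mul_le_mul_of_nonneg_left (pow_le_pow_left₀ h0 h1 C) (by positivity)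
  have hstep : (45 * (n : ℝ)) * (6 / ((m.totient : ℝ) * (n * Real.log 2))) =
      (270 / Real.log 2) * ((m : ℝ) / m.totient) / m := by
    field_simp
    ring
  rw [hstep]
  unfold psi
  rw [div_le_div_iff_of_pos_right hmr]
  have h270 : 270 / Real.log 2 ≤ 400 := by
    rw [div_le_iff₀ hl2]
    have := Real.log_two_gt_d9
    linarith
  have hbase : (1 : ℝ) ≤ 1 + Real.log (1 + n) := by linarith
  calc (270 / Real.log 2) * ((m : ℝ) / m.totient)
      ≤ 400 * (C * 3 ^ C * (1 + Real.log (1 + n)) ^ C) :=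
        mul_le_mul h270 hD2 (by positivity) (by norm_num)
    _ = (400 * C * 3 ^ C) * (1 + Real.log (1 + n)) ^ C := by ring
    _ ≤ ((400 * C * 3 ^ C + C + 1 : ℕ) : ℝ) * (1 + Real.log (1 + n)) ^ (400 * C * 3 ^ C + C + 1) := by
        apply mul_le_mul
        · push_cast
          have : (0 : ℝ) ≤ C := Nat.cast_nonneg C
          linarith
        · exact pow_le_pow_right₀ hbase (by
            have : 0 ≤ 400 * C * 3 ^ C := Nat.zero_le _
            omega)
        · positivity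
        · positivity

end Pool.Agent.Helper1.ES
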