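import Pool.Agent.Helper1.ES.Defs

/-!
ES-G5a.  Every prime `p ∣ s` has `z < p ≤ s ≤ S`, and the exponent of `p` in `s` is `≤ S`
(`Nat.factorization_lt` or `p ^ e ≤ s`, `e < p ^ e`).  Use `Nat.factorization_prod_pow_eq_self` and
`Finset.prod_dvd_prod_of_subset`/`Finset.prod_dvd_prod_of_dvd`.
-/

set_option autoImplicit false

namespace Pool.Agent.Helper1.ES

open Finset

theorem s_dvd (z S s : ℕ) (h0 : 0 < s) (hS : s ≤ S) (hr : Rough z s) : s ∣ WW z S := by
  have hs : s ≠ 0 := h0.ne'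
  have h1 : s = ∏ p ∈ s.primeFactors, p ^ s.factorization p := by
    conv_lhs => rw [← Nat.prod_factorization_pow_eq_self hs]
    rfl
  have h2 : ∏ p ∈ s.primeFactors, p ^ s.factorization p ∣ ∏ p ∈ s.primeFactors, p ^ S := by
    refine Finset.prod_dvd_prod_of_dvd _ _ fun p hp => ?_
    refine pow_dvd_pow p ?_
    exact (Nat.factorization_lt p hs).le.trans hS
  have h3 : ∏ p ∈ s.primeFactors, p ^ S ∣ ∏ p ∈ PS z S, p ^ S := by
    refine Finset.prod_dvd_prod_of_subset _ _ _ fun p hp => ?_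
    have hpp := Nat.prime_of_mem_primeFactors hp
    have hpd := Nat.dvd_of_mem_primeFactors hp
    unfold PS
    rw [mem_filter, mem_Ioc]
    exact ⟨⟨hr p hpp hpd, (Nat.le_of_dvd h0 hpd).trans hS⟩, hpp⟩
  rw [h1]
  exact h2.trans h3

end Pool.Agent.Helper1.ES
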