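import Pool.Agent.Helper1.ES.Defs

/-!
ES-G6 exponential moment under bounded differences (McDiarmid, crude constant).
Simplest proof: for `s : Finset ι` let `f_s x` be the average of `f` over the coordinates in `s`
(average over `y` of `f (fun i => if i ∈ s then y i else x i)`).  `f_∅ = f`, `f_univ` is the constant mean.
Show by induction on `s`:  `avg exp (-f) ≤ exp (∑_{i ∈ s} c_i ^ 2) * avg_x exp (-f_s x)`.  Step: for `i ∉ s`,
`f_{s ∪ i} x` is the average over `v` of `f_s (update x i v)`; the differences
`D = f_s (update x i v) - f_{s ∪ i} x` have average `0` over `v` and `|D| ≤ c_i ≤ 1`, and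
`exp (-D) ≤ 1 - D + D^2` for `|D| ≤ 1`, so their average is `≤ 1 + c_i^2 ≤ exp (c_i^2)`.
Alternative: induction on the number of coordinates via `Fin (n+1)` and `Fin.consEquiv`
(`Fintype.equivFin` to reindex).  See also Helper5/AVD/Prob.lean, Helper61/LE/Prob.lean (product spaces).
-/

set_option autoImplicit false

namespace Pool.Agent.Helper1.ES

open Finset

private theorem g6_swap {ι : Type} [DecidableEq ι] (A : ι → Type) (i : ι) :
    Function.Involutive (fun p : (∀ i, A i) × A i => (Function.update p.1 i p.2, p.1 i)) := by
  rintro ⟨x, v⟩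
  simp

private theorem g6_sum {ι : Type} [Fintype ι] [DecidableEq ι] (A : ι → Type) [∀ i, Fintype (A i)]
    (i : ι) (h : (∀ i, A i) → ℝ) :
    ∑ x, ∑ v : A i, h (Function.update x i v) = (Fintype.card (A i) : ℝ) * ∑ x, h x := by
  have h1 : ∑ p : (∀ i, A i) × A i, h (Function.update p.1 i p.2) =
      ∑ p : (∀ i, A i) × A i, h p.1 :=
    Equiv.sum_comp (g6_swap A i).toPerm (fun p => h p.1)
  rw [Fintype.sum_prod_type] at h1
  rw [h1, Fintype.sum_prod_type, Finset.mul_sum]
  refine Finset.sum_congr rfl fun x _ => ?_
  simp

private theorem g6_step {ι : Type} [Fintype ι] [DecidableEq ι] (A : ι → Type) [∀ i, Fintype (A i)]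
    [∀ i, Nonempty (A i)] (f : (∀ i, A i) → ℝ) (c : ι → ℝ) (h0 : ∀ i, 0 ≤ c i) (h1 : ∀ i, c i ≤ 1)
    (hf : ∀ (x : ∀ i, A i) (i : ι) (v : A i), |f (Function.update x i v) - f x| ≤ c i)
    (s : Finset ι) :
    ∃ g : (∀ i, A i) → ℝ,
      (∀ (x : ∀ i, A i) (i : ι) (v : A i), |g (Function.update x i v) - g x| ≤ c i) ∧
      (∀ (x : ∀ i, A i) (i : ι) (v : A i), i ∈ s → g (Function.update x i v) = g x) ∧
      ∑ x, g x = ∑ x, f x ∧
      ∑ x, Real.exp (-f x) ≤ Real.exp (∑ i ∈ s, (c i) ^ 2) * ∑ x, Real.exp (-g x) := by
  induction s using Finset.induction_on with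
  | empty =>
    refine ⟨f, hf, ?_, rfl, ?_⟩
    · intro x i v hi
      simp at hi
    · simp
  | insert j s hj ih =>
    obtain ⟨g, hg1, hg2, hg3, hg4⟩ := ih
    have hcard : (0 : ℝ) < (Fintype.card (A j) : ℝ) := by exact_mod_cast Fintype.card_pos
    set N : ℝ := (Fintype.card (A j) : ℝ) with hN
    refine ⟨fun x => (∑ v : A j, g (Function.update x j v)) / N, ?_, ?_, ?_, ?_⟩
    · intro x i v
      rw [← sub_div, ← Finset.sum_sub_distrib, abs_div, abs_of_pos hcard, div_le_iff₀ hcard]
      refine (Finset.abs_sum_le_sum_abs _ _).trans ?_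
      calc ∑ w : A j, |g (Function.update (Function.update x i v) j w) - g (Function.update x j w)|
          ≤ ∑ w : A j, c i := by
            refine Finset.sum_le_sum fun w _ => ?_
            by_cases hij : i = j
            · subst hij
              rw [Function.update_idem, sub_self, abs_zero]
              exact h0 i
            · rw [Function.update_comm hij]
              exact hg1 _ i v
        _ = c i * N := by
            rw [Finset.sum_const, Finset.card_univ, nsmul_eq_mul, mul_comm]
    · intro x i v hi
      have h3 : ∀ w : A j, g (Function.update (Function.update x i v) j w) =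
          g (Function.update x j w) := by
        intro w
        by_cases hij : i = j
        · subst hij
          rw [Function.update_idem]
        · rw [Function.update_comm hij]
          exact hg2 _ i v (Finset.mem_of_mem_insert_of_ne hi hij)
      simp only [h3]
    · rw [← Finset.sum_div, g6_sum, mul_div_cancel_left₀ _ hcard.ne', hg3]
    · refine hg4.trans ?_
      rw [Finset.sum_insert hj, add_comm, Real.exp_add, mul_assoc]
      refine mul_le_mul_of_nonneg_left ?_ (Real.exp_pos _).le
      have h4 : N * ∑ x, Real.exp (-g x) = ∑ x, ∑ v : A j, Real.exp (-g (Function.update x j v)) :=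
        (g6_sum A j (fun x => Real.exp (-g x))).symm
      rw [← mul_le_mul_iff_right₀ hcard, h4, Finset.mul_sum, Finset.mul_sum]
      refine Finset.sum_le_sum fun x _ => ?_
      set m : ℝ := (∑ v : A j, g (Function.update x j v)) / N with hm
      have hmN : m * N = ∑ v : A j, g (Function.update x j v) := by
        rw [hm, div_mul_cancel₀ _ hcard.ne']
      have hD : ∀ v : A j, |g (Function.update x j v) - m| ≤ c j := by
        intro v
        have h5 : g (Function.update x j v) - m =
            (∑ w : A j, (g (Function.update x j v) - g (Function.update x j w))) / N := by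
          rw [Finset.sum_sub_distrib, Finset.sum_const, Finset.card_univ, nsmul_eq_mul, ← hN,
            sub_div, mul_div_cancel_left₀ _ hcard.ne', hm]
        rw [h5, abs_div, abs_of_pos hcard, div_le_iff₀ hcard]
        refine (Finset.abs_sum_le_sum_abs _ _).trans ?_
        calc ∑ w : A j, |g (Function.update x j v) - g (Function.update x j w)|
            ≤ ∑ w : A j, c j := by
              refine Finset.sum_le_sum fun w _ => ?_
              have h6 := hg1 (Function.update x j w) j v
              rwa [Function.update_idem] at h6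
          _ = c j * N := by
              rw [Finset.sum_const, Finset.card_univ, nsmul_eq_mul, mul_comm]
      have hE : ∀ v : A j, Real.exp (-g (Function.update x j v)) ≤
          Real.exp (-m) * (1 - (g (Function.update x j v) - m) + (c j) ^ 2) := by
        intro v
        set D := g (Function.update x j v) - m with hDd
        have h7 : |(-D)| ≤ 1 := by rw [abs_neg]; exact (hD v).trans (h1 j)
        have h8 := Real.abs_exp_sub_one_sub_id_le h7
        have h9 : Real.exp (-D) ≤ 1 + (-D) + (-D) ^ 2 := by
          have := (abs_le.1 h8).2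
          linarith
        have h10 : (-D) ^ 2 ≤ (c j) ^ 2 := by
          rw [← sq_abs (-D), abs_neg]
          exact pow_le_pow_left₀ (abs_nonneg _) (hD v) 2
        have h11 : Real.exp (-g (Function.update x j v)) = Real.exp (-m) * Real.exp (-D) := by
          rw [← Real.exp_add, hDd]
          congr 1
          ring
        rw [h11]
        refine mul_le_mul_of_nonneg_left ?_ (Real.exp_pos _).le
        linarith
      calc ∑ v : A j, Real.exp (-g (Function.update x j v))
          ≤ ∑ v : A j, Real.exp (-m) * (1 - (g (Function.update x j v) - m) + (c j) ^ 2) :=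
            Finset.sum_le_sum fun v _ => hE v
        _ = Real.exp (-m) * (N * (1 + (c j) ^ 2)) := by
            rw [← Finset.mul_sum, Finset.sum_add_distrib, Finset.sum_sub_distrib,
              Finset.sum_sub_distrib, ← hmN]
            simp only [Finset.sum_const, Finset.card_univ, nsmul_eq_mul, ← hN]
            ring
        _ ≤ Real.exp (-m) * (N * Real.exp ((c j) ^ 2)) := by
            refine mul_le_mul_of_nonneg_left (mul_le_mul_of_nonneg_left ?_ hcard.le)
              (Real.exp_pos _).le
            have := Real.add_one_le_exp ((c j) ^ 2)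
            linarith
        _ = N * (Real.exp (c j ^ 2) * Real.exp (-m)) := by ring

theorem bd_mgf {ι : Type} [Fintype ι] [DecidableEq ι] (A : ι → Type) [∀ i, Fintype (A i)]
    [∀ i, Nonempty (A i)] (f : (∀ i, A i) → ℝ) (c : ι → ℝ) (h0 : ∀ i, 0 ≤ c i) (h1 : ∀ i, c i ≤ 1)
    (hf : ∀ (x : ∀ i, A i) (i : ι) (v : A i), |f (Function.update x i v) - f x| ≤ c i) :
    (∑ x, Real.exp (-f x)) / (Fintype.card (∀ i, A i) : ℝ) ≤
      Real.exp (-((∑ x, f x) / (Fintype.card (∀ i, A i) : ℝ)) + ∑ i, (c i) ^ 2) := by
  obtain ⟨g, -, hg2, hg3, hg4⟩ := g6_step A f c h0 h1 hf Finset.univ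
  have hcard : (0 : ℝ) < (Fintype.card (∀ i, A i) : ℝ) := by exact_mod_cast Fintype.card_pos
  set N : ℝ := (Fintype.card (∀ i, A i) : ℝ) with hN
  let x0 : ∀ i, A i := Classical.arbitrary _
  have hconst : ∀ x, g x = g x0 := by
    intro x
    have h2 : ∀ s : Finset ι, g (fun i => if i ∈ s then x i else x0 i) = g x0 := by
      intro s
      induction s using Finset.induction_on with
      | empty => simp
      | insert j s hj ih =>
        rw [← ih, ← hg2 (fun i => if i ∈ s then x i else x0 i) j (x j) (Finset.mem_univ _)]
        congr 1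
        funext i
        by_cases hij : i = j
        · subst hij
          simp
        · rw [Function.update_of_ne hij]
          simp [Finset.mem_insert, hij]
    have h3 := h2 Finset.univ
    simpa using h3
  have hmean : (∑ x, f x) / N = g x0 := by
    rw [← hg3, Finset.sum_congr rfl fun x _ => hconst x, Finset.sum_const, Finset.card_univ,
      nsmul_eq_mul, ← hN, mul_div_cancel_left₀ _ hcard.ne']
  rw [div_le_iff₀ hcard]
  refine hg4.trans (le_of_eq ?_)
  rw [Finset.sum_congr rfl fun x _ => congrArg (fun t => Real.exp (-t)) (hconst x),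
    Finset.sum_const, Finset.card_univ, nsmul_eq_mul, ← hN, hmean, Real.exp_add]
  ring

end Pool.Agent.Helper1.ES
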