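import Pool.Agent.Helper1.ES.Defs
import Pool.Agent.Helper1.ES.St.G5a

/-!
ES-G7a the mean of `T`: exchange the sums; for fixed `w` the number of `β < WW` with `s ∣ k β + u` is
`WW / s` because `s ∣ WW` (`s_dvd`) and `gcd (k, s) = 1` (`Nat.count_modEq_card` or
`Nat.Ioc_filter_modEq_card`-type lemmas; one residue class modulo `s`).
-/

set_option autoImplicit false

namespace Pool.Agent.Helper1.ES

open Finset

private theorem g7a_sol (k u s : ℕ) (hs : 0 < s) (hc : Nat.Coprime k s) :
    ∃ c : ℕ, s ∣ k * c + u := by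
  have : NeZero s := ⟨hs.ne'⟩
  have hk : IsUnit (k : ZMod s) := (ZMod.isUnit_iff_coprime k s).mpr hc
  obtain ⟨v, hv⟩ := hk
  refine ⟨(-((u : ZMod s) * ((v⁻¹ : (ZMod s)ˣ) : ZMod s))).val, ?_⟩
  rw [← ZMod.natCast_eq_zero_iff]
  push_cast
  rw [ZMod.natCast_val, ZMod.cast_id', id, ← hv]
  have h := v.mul_inv
  linear_combination (-(u : ZMod s)) * h

private theorem g7a_count (k u s W : ℕ) (hs : 0 < s) (hc : Nat.Coprime k s) (hW : s ∣ W) :
    ((range W).filter (fun b => s ∣ k * b + u)).card = W / s := by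
  obtain ⟨c, hcc⟩ := g7a_sol k u s hs hc
  have h1 : (range W).filter (fun b => s ∣ k * b + u) = (range W).filter (fun b => b ≡ c [MOD s]) := by
    apply Finset.filter_congr
    intro b _
    constructor
    · intro hb
      have h2 : k * b + u ≡ k * c + u [MOD s] := by
        rw [Nat.ModEq, Nat.mod_eq_zero_of_dvd hb, Nat.mod_eq_zero_of_dvd hcc]
      have h3 : k * b ≡ k * c [MOD s] := Nat.ModEq.add_right_cancel' u h2
      exact Nat.ModEq.cancel_left_of_coprime (Nat.coprime_comm.mp hc) h3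
    · intro hb
      exact ((hb.mul_left k).add_right u).dvd_iff dvd_rfl |>.mpr hcc
  rw [h1, ← Nat.count_eq_card_filter_range, Nat.count_modEq_card W hs c]
  obtain ⟨m, rfl⟩ := hW
  simp

theorem mean_T (Om : Finset Tr) (S z : ℕ) (hA : Adm Om S) (hz : ∀ w ∈ Om, Rough z w.s) :
    ∑ β ∈ range (WW z S), T Om β = WW z S * mu Om := by
  unfold T mu
  rw [Finset.mul_sum]
  have h1 : ∀ β ∈ range (WW z S), ∑ w ∈ Om.filter (fun w => SatS β w), 1 / (w.l : ℝ) =
      ∑ w ∈ Om, if SatS β w then 1 / (w.l : ℝ) else 0 := by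
    intro β _
    rw [Finset.sum_filter]
  rw [Finset.sum_congr rfl h1, Finset.sum_comm]
  apply Finset.sum_congr rfl
  intro w hw
  rw [← Finset.sum_filter, Finset.sum_const, nsmul_eq_mul]
  have hcop : Nat.Coprime w.k w.s := Nat.Coprime.coprime_mul_left_right (hA.cop w hw)
  have hd : w.s ∣ WW z S := s_dvd z S w.s (hA.spos w hw) (hA.sle w hw) (hz w hw)
  have h2 := g7a_count w.k w.u w.s (WW z S) (hA.spos w hw) hcop hd
  have h3 : ((range (WW z S)).filter (fun b => SatS b w)).card = WW z S / w.s := by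
    rw [← h2]
    rfl
  rw [h3]
  have hs0 : (w.s : ℝ) ≠ 0 := by
    have := hA.spos w hw
    positivity
  rw [Nat.cast_div hd hs0]
  have hl0 : (w.l : ℝ) ≠ 0 := by
    have := (hA.prime w hw).pos
    positivity
  field_simp

end Pool.Agent.Helper1.ES
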