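import Pool.Agent.Helper1.ES.Defs

set_option autoImplicit false

namespace Pool.Agent.Helper1.ES

open Finset

private theorem g7b_pos {z S p : ℕ} (hp : p ∈ PS z S) : p.Prime := by
  unfold PS at hp
  exact (mem_filter.1 hp).2

theorem crt_small (z S : ℕ) :
    ∃ e : (∀ p : ↥(PS z S), Fin ((p : ℕ) ^ S)) ≃ Fin (WW z S),
      ∀ (x : ∀ p : ↥(PS z S), Fin ((p : ℕ) ^ S)) (p : ↥(PS z S)),
        ((e x : Fin (WW z S)) : ℕ) % (p : ℕ) ^ S = (x p : ℕ) := by
  set F : Fin (WW z S) → (∀ p : ↥(PS z S), Fin ((p : ℕ) ^ S)) := fun n p =>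
    ⟨(n : ℕ) % (p : ℕ) ^ S, Nat.mod_lt _ (pow_pos (g7b_pos p.2).pos _)⟩ with hF
  have hinj : Function.Injective F := by
    intro n n' h
    have h1 : ∀ p ∈ PS z S, (n : ℕ) % p ^ S = (n' : ℕ) % p ^ S := by
      intro p hp
      have h2 := congrFun h ⟨p, hp⟩
      exact congrArg Fin.val h2
    have h3 : ((∏ p ∈ PS z S, p ^ S : ℕ) : ℤ) ∣ ((n' : ℕ) : ℤ) - ((n : ℕ) : ℤ) := by
      rw [Nat.cast_prod]
      apply Finset.prod_dvd_of_coprime
      · intro q hq q' hq' hne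
        change IsCoprime ((q ^ S : ℕ) : ℤ) ((q' ^ S : ℕ) : ℤ)
        rw [Nat.isCoprime_iff_coprime]
        exact Nat.Coprime.pow _ _ ((Nat.coprime_primes (g7b_pos hq) (g7b_pos hq')).mpr hne)
      · intro q hq
        exact (Nat.modEq_iff_dvd).mp (h1 q hq)
    have h4 : (n : ℕ) ≡ (n' : ℕ) [MOD WW z S] := (Nat.modEq_iff_dvd).mpr h3
    have h5 : (n : ℕ) = (n' : ℕ) := by
      have h6 : (n : ℕ) % WW z S = (n' : ℕ) % WW z S := h4
      rwa [Nat.mod_eq_of_lt n.2, Nat.mod_eq_of_lt n'.2] at h6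
    exact Fin.ext h5
  have hcard : Fintype.card (Fin (WW z S)) = Fintype.card (∀ p : ↥(PS z S), Fin ((p : ℕ) ^ S)) := by
    rw [Fintype.card_fin, Fintype.card_pi]
    simp only [Fintype.card_fin]
    unfold WW
    exact (Finset.prod_coe_sort (PS z S) (fun p : ℕ => p ^ S)).symm
  have hbij : Function.Bijective F := (Fintype.bijective_iff_injective_and_card F).2 ⟨hinj, hcard⟩
  refine ⟨(Equiv.ofBijective F hbij).symm, fun x p => ?_⟩
  have h1 : F ((Equiv.ofBijective F hbij).symm x) = x :=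
    (Equiv.ofBijective F hbij).apply_symm_apply x
  exact congrArg Fin.val (congrFun h1 p)

end Pool.Agent.Helper1.ES
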