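import Pool.Agent.Helper1.ES.Defs

/-!
ES-G1 Bonferroni.  For `x = 0` the sum is `1`.  For `x = y + 1` the alternating sum up to `2t` equals
`choose y (2 t)` (induction with Pascal; Mathlib has `Int.alternating_sum_range_choose` and variants),
and `0 ≤ choose y (2t) ≤ choose (y+1) (2t)`.
-/

set_option autoImplicit false

namespace Pool.Agent.Helper1.ES

open Finset

private theorem alt_partial (y m : ℕ) :
    ∑ i ∈ range (m + 1), (-1 : ℝ) ^ i * ((y + 1).choose i : ℝ) = (-1 : ℝ) ^ m * (y.choose m : ℝ) := by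
  induction m with
  | zero => simp
  | succ m ih =>
    rw [sum_range_succ, ih, Nat.choose_succ_succ, Nat.cast_add, pow_succ]
    ring

theorem bonf (x t : ℕ) :
    (if x = 0 then (1 : ℝ) else 0) ≤ ∑ i ∈ range (2 * t + 1), (-1 : ℝ) ^ i * (x.choose i : ℝ) ∧
    ∑ i ∈ range (2 * t + 1), (-1 : ℝ) ^ i * (x.choose i : ℝ) ≤
      (if x = 0 then (1 : ℝ) else 0) + (x.choose (2 * t) : ℝ) := by
  rcases Nat.eq_zero_or_pos x with rfl | hx
  · have h : ∑ i ∈ range (2 * t + 1), (-1 : ℝ) ^ i * ((0 : ℕ).choose i : ℝ) = 1 := by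
      rw [sum_eq_single_of_mem 0 (mem_range.2 (Nat.succ_pos _))]
      · simp
      · intro i _ hi
        rw [Nat.choose_eq_zero_of_lt (Nat.pos_of_ne_zero hi)]
        simp
    rw [h]
    simp
  · obtain ⟨y, rfl⟩ := Nat.exists_eq_add_of_le' hx
    rw [alt_partial]
    have h1 : (-1 : ℝ) ^ (2 * t) = 1 := by
      rw [pow_mul]
      norm_num
    rw [h1, one_mul, if_neg (Nat.succ_ne_zero y)]
    constructor
    · exact Nat.cast_nonneg _
    · rw [zero_add]
      exact_mod_cast Nat.choose_le_choose (2 * t) (Nat.le_succ y)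

end Pool.Agent.Helper1.ES
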