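import Pool.Agent.Helper1.ES.Defs

/-!
ES-G2.  Put `L = lcm` of the moduli `w.l * w.s`, `w ∈ τ`; `L ∣ M`.  If no `b` satisfies all congruences both
counts are `0`.  Otherwise fix a solution `b0`; since `w.k` is coprime to the modulus, `Sat b w` iff
`b ≡ b0 [MOD w.l * w.s]`, so all congruences hold iff `b ≡ b0 [MOD L]`.  The first count is `N / L` up to an
error `< 1` (floor), the second count is exactly `M / L`.
-/

set_option autoImplicit false

namespace Pool.Agent.Helper1.ES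

open Finset

theorem G2_sat_iff {w : Tr} (hcop : Nat.Coprime w.k (w.l * w.s)) {b0 : ℕ} (h0 : Sat b0 w) (b : ℕ) :
    Sat b w ↔ ((w.l * w.s : ℕ) : ℤ) ∣ (b : ℤ) - b0 := by
  unfold Sat at *
  have h1 : ((w.l * w.s : ℕ) : ℤ) ∣ (w.k : ℤ) * b0 + w.u := by exact_mod_cast h0
  constructor
  · intro h
    have h2 : ((w.l * w.s : ℕ) : ℤ) ∣ (w.k : ℤ) * b + w.u := by exact_mod_cast h
    have h3 : ((w.l * w.s : ℕ) : ℤ) ∣ (w.k : ℤ) * ((b : ℤ) - b0) := by
      have := dvd_sub h2 h1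
      rwa [show (w.k : ℤ) * b + w.u - ((w.k : ℤ) * b0 + w.u) = (w.k : ℤ) * ((b : ℤ) - b0) by ring]
        at this
    exact IsCoprime.dvd_of_dvd_mul_left (Nat.isCoprime_iff_coprime.2 hcop.symm) h3
  · intro h
    have h2 : ((w.l * w.s : ℕ) : ℤ) ∣ (w.k : ℤ) * b + w.u := by
      have := dvd_add (Dvd.dvd.mul_left h (w.k : ℤ)) h1
      rwa [show (w.k : ℤ) * ((b : ℤ) - b0) + ((w.k : ℤ) * b0 + w.u) = (w.k : ℤ) * b + w.u by ring]
        at this
    exact_mod_cast h2

theorem count_near (τ : Finset Tr) (M N : ℕ) (hM : 0 < M) (hpos : ∀ w ∈ τ, 0 < w.l * w.s)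
    (hcop : ∀ w ∈ τ, Nat.Coprime w.k (w.l * w.s)) (hdvd : ∀ w ∈ τ, w.l * w.s ∣ M) :
    |(((Icc 1 N).filter (fun b => ∀ w ∈ τ, Sat b w)).card : ℝ) -
      (N : ℝ) * (((range M).filter (fun b => ∀ w ∈ τ, Sat b w)).card : ℝ) / M| ≤ 1 := by
  by_cases hex : ∃ b0, ∀ w ∈ τ, Sat b0 w
  · obtain ⟨b0, h0⟩ := hex
    set L := τ.lcm (fun w => w.l * w.s) with hL
    have hLM : L ∣ M := Finset.lcm_dvd hdvd
    have hLpos : 0 < L := Nat.pos_of_dvd_of_pos hLM hM
    have hiff : ∀ b : ℕ, (∀ w ∈ τ, Sat b w) ↔ b ≡ b0 [MOD L] := by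
      intro b
      rw [Nat.ModEq.comm, Nat.modEq_iff_dvd, Int.natCast_dvd]
      constructor
      · intro h
        refine Finset.lcm_dvd fun w hw => ?_
        exact Int.natCast_dvd.1 ((G2_sat_iff (hcop w hw) (h0 w hw) b).1 (h w hw))
      · intro h w hw
        refine (G2_sat_iff (hcop w hw) (h0 w hw) b).2 (Int.natCast_dvd.2 ?_)
        exact (Finset.dvd_lcm (f := fun w : Tr => w.l * w.s) hw).trans h
    have e1 : ((Icc 1 N).filter (fun b => ∀ w ∈ τ, Sat b w)) =
        (Ioc 0 N).filter (fun b => b ≡ b0 [MOD L]) := by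
      ext b
      simp only [mem_filter, mem_Icc, mem_Ioc, hiff b]
      constructor <;> rintro ⟨⟨h1, h2⟩, h3⟩ <;> exact ⟨⟨by omega, h2⟩, h3⟩
    have e2 : ((range M).filter (fun b => ∀ w ∈ τ, Sat b w)) =
        (range M).filter (fun b => b ≡ b0 [MOD L]) := by
      ext b
      simp only [mem_filter, hiff b]
    have c2 : ((range M).filter (fun b => b ≡ b0 [MOD L])).card = M / L := by
      rw [← Nat.count_eq_card_filter_range, Nat.count_modEq_card M hLpos, Nat.mod_eq_zero_of_dvd hLM]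
      simp
    have c1 := Nat.Ioc_filter_modEq_card 0 N hLpos b0
    have c2' : (((M / L : ℕ) : ℝ)) = (M : ℝ) / L := by
      rw [Nat.cast_div hLM (by exact_mod_cast hLpos.ne')]
    rw [e1, e2, c2, c2']
    have hMr : (M : ℝ) ≠ 0 := by exact_mod_cast hM.ne'
    have hLr : (0 : ℝ) < L := by exact_mod_cast hLpos
    have e3 : (N : ℝ) * ((M : ℝ) / L) / M = (N : ℝ) / L := by
      field_simp
    rw [e3]
    set c := ((Ioc 0 N).filter (fun b => b ≡ b0 [MOD L])).card with hc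
    set x : ℚ := ((0 : ℕ) - b0 : ℚ) / L with hx
    set y : ℚ := (N : ℚ) / L with hy
    have hxy : ((N : ℚ) - b0) / L = x + y := by
      rw [hx, hy, ← add_div]
      congr 1
      push_cast
      ring
    rw [hxy] at c1
    have hy0 : 0 ≤ y := by positivity
    have hmono : ⌊x⌋ ≤ ⌊x + y⌋ := Int.floor_le_floor (by linarith)
    rw [max_eq_left (by linarith)] at c1
    have f1 := Int.floor_le x
    have f2 := Int.lt_floor_add_one x
    have f3 := Int.floor_le (x + y)
    have f4 := Int.lt_floor_add_one (x + y)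
    have c3 : (c : ℚ) = (⌊x + y⌋ : ℚ) - ⌊x⌋ := by exact_mod_cast c1
    have g1 : (c : ℚ) - y ≤ 1 := by linarith
    have g2 : -1 ≤ (c : ℚ) - y := by linarith
    have hyr : ((y : ℚ) : ℝ) = (N : ℝ) / L := by rw [hy]; push_cast; rfl
    rw [← hyr, abs_le]
    constructor
    · exact_mod_cast g2
    · exact_mod_cast g1
  · push Not at hex
    have z1 : ((Icc 1 N).filter (fun b => ∀ w ∈ τ, Sat b w)) = ∅ := by
      refine Finset.filter_eq_empty_iff.2 fun b _ h => ?_
      obtain ⟨w, hw, h1⟩ := hex b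
      exact h1 (h w hw)
    have z2 : ((range M).filter (fun b => ∀ w ∈ τ, Sat b w)) = ∅ := by
      refine Finset.filter_eq_empty_iff.2 fun b _ h => ?_
      obtain ⟨w, hw, h1⟩ := hex b
      exact h1 (h w hw)
    rw [z1, z2]
    simp

end Pool.Agent.Helper1.ES
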