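import Pool.Agent.Helper1.ES.Defs
import Pool.Agent.Helper1.ES.St.G1
import Pool.Agent.Helper1.ES.St.G2

/-!
ES-G3 truncated inclusion-exclusion, transferred from `[1,N]` to the full period.
Write `1[X=0] ≤ ∑_{i ≤ 2t} (-1)^i choose X i` (`bonf`), and
`∑_{b ∈ B} choose (X b) i = ∑_{τ ⊆ Om, |τ| = i} #{b ∈ B : ∀ w ∈ τ, Sat b w}` (`Finset.powersetCard`,
`Finset.card_powersetCard`, double counting).  Use it for `B = Icc 1 N` and for `B = range M`, replace every
count by `count_near` (error at most `1` for each `τ`), go back to `range M` and use the second half of `bonf`.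
The number of `τ` is `∑_{i ≤ 2t} choose |Om| i ≤ (|Om|+1)^{2t}`.
-/

set_option autoImplicit false

namespace Pool.Agent.Helper1.ES

open Finset

/-- double counting -/
theorem G3_double (Om : Finset Tr) (B : Finset ℕ) (i : ℕ) :
    ∑ b ∈ B, ((X Om b).choose i : ℝ) =
      ∑ τ ∈ Om.powersetCard i, ((B.filter (fun b => ∀ w ∈ τ, Sat b w)).card : ℝ) := by
  have h1 : ∀ b, ((X Om b).choose i : ℝ) =
      ∑ τ ∈ Om.powersetCard i, (if ∀ w ∈ τ, Sat b w then (1 : ℝ) else 0) := by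
    intro b
    rw [← Finset.sum_filter, Finset.sum_const, nsmul_eq_mul, mul_one]
    unfold X
    rw [← Finset.card_powersetCard]
    congr 2
    ext τ
    simp only [mem_powersetCard, mem_filter]
    constructor
    · rintro ⟨h, hc⟩
      exact ⟨⟨fun w hw => (mem_filter.1 (h hw)).1, hc⟩, fun w hw => (mem_filter.1 (h hw)).2⟩
    · rintro ⟨⟨h, hc⟩, hs⟩
      exact ⟨fun w hw => mem_filter.2 ⟨h hw, hs w hw⟩, hc⟩
  simp only [h1]
  rw [Finset.sum_comm]
  refine Finset.sum_congr rfl fun τ _ => ?_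
  rw [← Finset.sum_filter, Finset.sum_const, nsmul_eq_mul, mul_one]

/-- the number of small subsets -/
theorem G3_count (m k : ℕ) : ∑ i ∈ range (k + 1), m.choose i ≤ (m + 1) ^ k := by
  induction k with
  | zero => simp
  | succ k ih =>
    rw [Finset.sum_range_succ, pow_succ]
    have h1 : m.choose (k + 1) ≤ m ^ (k + 1) := Nat.choose_le_pow m (k + 1)
    have h2 : m ^ (k + 1) ≤ (m + 1) ^ k * m := by
      rw [pow_succ]
      exact Nat.mul_le_mul_right _ (Nat.pow_le_pow_left (Nat.le_succ m) k)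
    calc ∑ i ∈ range (k + 1), m.choose i + m.choose (k + 1) ≤ (m + 1) ^ k + (m + 1) ^ k * m := by
          omega
      _ = (m + 1) ^ k * (m + 1) := by ring

theorem transfer (Om : Finset Tr) (M N t : ℕ) (hM : 0 < M) (hpos : ∀ w ∈ Om, 0 < w.l * w.s)
    (hcop : ∀ w ∈ Om, Nat.Coprime w.k (w.l * w.s)) (hdvd : ∀ w ∈ Om, w.l * w.s ∣ M) :
    (((Icc 1 N).filter (fun b => X Om b = 0)).card : ℝ) ≤
      (N : ℝ) / M * ∑ b ∈ range M,
        ((if X Om b = 0 then (1 : ℝ) else 0) + ((X Om b).choose (2 * t) : ℝ)) +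
      ((Om.card : ℝ) + 1) ^ (2 * t) := by
  have hMr : (0 : ℝ) < M := by exact_mod_cast hM
  have hNM : (0 : ℝ) ≤ (N : ℝ) / M := by positivity
  -- upper bound by Bonferroni
  have h1 : (((Icc 1 N).filter (fun b => X Om b = 0)).card : ℝ) ≤
      ∑ b ∈ Icc 1 N, ∑ i ∈ range (2 * t + 1), (-1 : ℝ) ^ i * ((X Om b).choose i : ℝ) := by
    have h2 : (((Icc 1 N).filter (fun b => X Om b = 0)).card : ℝ) =
        ∑ b ∈ Icc 1 N, (if X Om b = 0 then (1 : ℝ) else 0) := by
      rw [← Finset.sum_filter, Finset.sum_const, nsmul_eq_mul, mul_one]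
    rw [h2]
    exact Finset.sum_le_sum fun b _ => (bonf (X Om b) t).1
  -- double counting
  have hd : ∀ B : Finset ℕ, ∑ b ∈ B, ∑ i ∈ range (2 * t + 1),
      (-1 : ℝ) ^ i * ((X Om b).choose i : ℝ) =
      ∑ i ∈ range (2 * t + 1), ∑ τ ∈ Om.powersetCard i,
        (-1 : ℝ) ^ i * ((B.filter (fun b => ∀ w ∈ τ, Sat b w)).card : ℝ) := by
    intro B
    rw [Finset.sum_comm]
    refine Finset.sum_congr rfl fun i _ => ?_
    rw [← Finset.mul_sum, G3_double, Finset.mul_sum]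
  have h3 : ∑ i ∈ range (2 * t + 1), ∑ τ ∈ Om.powersetCard i,
        (-1 : ℝ) ^ i * (((Icc 1 N).filter (fun b => ∀ w ∈ τ, Sat b w)).card : ℝ) ≤
      ∑ i ∈ range (2 * t + 1), ∑ τ ∈ Om.powersetCard i,
        ((N : ℝ) / M * ((-1 : ℝ) ^ i *
          (((range M).filter (fun b => ∀ w ∈ τ, Sat b w)).card : ℝ)) + 1) := by
    refine Finset.sum_le_sum fun i _ => Finset.sum_le_sum fun τ hτ => ?_
    have hsub : τ ⊆ Om := (mem_powersetCard.1 hτ).1
    have hc := count_near τ M N hM (fun w hw => hpos w (hsub hw)) (fun w hw => hcop w (hsub hw))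
      (fun w hw => hdvd w (hsub hw))
    obtain ⟨ha, hb⟩ := abs_le.1 hc
    have he : (N : ℝ) / M * ((-1 : ℝ) ^ i *
        (((range M).filter (fun b => ∀ w ∈ τ, Sat b w)).card : ℝ)) = (-1 : ℝ) ^ i *
        ((N : ℝ) * (((range M).filter (fun b => ∀ w ∈ τ, Sat b w)).card : ℝ) / M) := by ring
    rw [he]
    rcases neg_one_pow_eq_or ℝ i with hs | hs
    · rw [hs]; linarith
    · rw [hs]; linarith
  have h4 : ∑ i ∈ range (2 * t + 1), ∑ τ ∈ Om.powersetCard i,
        ((N : ℝ) / M * ((-1 : ℝ) ^ i *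
          (((range M).filter (fun b => ∀ w ∈ τ, Sat b w)).card : ℝ)) + 1) =
      (N : ℝ) / M * ∑ b ∈ range M, ∑ i ∈ range (2 * t + 1),
        (-1 : ℝ) ^ i * ((X Om b).choose i : ℝ) +
      ((∑ i ∈ range (2 * t + 1), Om.card.choose i : ℕ) : ℝ) := by
    rw [hd (range M), Finset.mul_sum]
    push_cast
    rw [← Finset.sum_add_distrib]
    refine Finset.sum_congr rfl fun i _ => ?_
    rw [Finset.sum_add_distrib, Finset.mul_sum, Finset.sum_const, nsmul_eq_mul, mul_one,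
      Finset.card_powersetCard]
  have h5 : (N : ℝ) / M * ∑ b ∈ range M, ∑ i ∈ range (2 * t + 1),
        (-1 : ℝ) ^ i * ((X Om b).choose i : ℝ) ≤
      (N : ℝ) / M * ∑ b ∈ range M,
        ((if X Om b = 0 then (1 : ℝ) else 0) + ((X Om b).choose (2 * t) : ℝ)) :=
    mul_le_mul_of_nonneg_left (Finset.sum_le_sum fun b _ => (bonf (X Om b) t).2) hNM
  have h6 : ((∑ i ∈ range (2 * t + 1), Om.card.choose i : ℕ) : ℝ) ≤
      ((Om.card : ℝ) + 1) ^ (2 * t) := by
    exact_mod_cast G3_count Om.card (2 * t)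
  rw [hd] at h1
  linarith

end Pool.Agent.Helper1.ES
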