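import Pool.Agent.Helper1.ES.Defs

/-!
ES-G4 Chinese remainder theorem for sums of products.  Induction on `J`: for a new prime `l` (coprime to
`W' = W * ∏ J`) the map `b ↦ (b % W', b % l)` is a bijection of `range (W' * l)` onto
`range W' ×ˢ range l` (`Nat.chineseRemainder`).  It may help to prove first, for coprime `A, B > 0`,
`∑ b ∈ range (A*B), F (b % A) (b % B) = ∑ a ∈ range A, ∑ c ∈ range B, F a c`.
(`b % W = (b % W') % W` and `b % l' = (b % W') % l'` for `l' ∈ J`.)
-/

set_option autoImplicit false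

namespace Pool.Agent.Helper1.ES

open Finset

private theorem g4_sum_crt (A B : ℕ) (hA : 0 < A) (hB : 0 < B) (h : Nat.Coprime A B)
    (F : ℕ → ℕ → ℝ) :
    ∑ b ∈ range (A * B), F (b % A) (b % B) = ∑ a ∈ range A, ∑ c ∈ range B, F a c := by
  rw [← Finset.sum_product']
  refine Finset.sum_nbij' (fun b => (b % A, b % B))
    (fun p => (Nat.chineseRemainder h p.1 p.2 : ℕ)) ?_ ?_ ?_ ?_ ?_
  · intro b _
    simp only [Finset.mem_product, Finset.mem_range]
    exact ⟨Nat.mod_lt _ hA, Nat.mod_lt _ hB⟩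
  · intro p _
    simp only [Finset.mem_range]
    exact Nat.chineseRemainder_lt_mul h p.1 p.2 hA.ne' hB.ne'
  · intro b hb
    have hb' : b < A * B := Finset.mem_range.mp hb
    have h1 := (Nat.chineseRemainder h (b % A) (b % B)).2
    have hlt := Nat.chineseRemainder_lt_mul h (b % A) (b % B) hA.ne' hB.ne'
    have e1 : (Nat.chineseRemainder h (b % A) (b % B) : ℕ) ≡ b [MOD A] :=
      h1.1.trans (Nat.mod_modEq b A)
    have e2 : (Nat.chineseRemainder h (b % A) (b % B) : ℕ) ≡ b [MOD B] :=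
      h1.2.trans (Nat.mod_modEq b B)
    have e3 := (Nat.modEq_and_modEq_iff_modEq_mul h).mp ⟨e1, e2⟩
    exact Nat.ModEq.eq_of_lt_of_lt e3 hlt hb'
  · intro p hp
    have hp' := Finset.mem_product.mp hp
    have h1 := (Nat.chineseRemainder h p.1 p.2).2
    have a1 : (Nat.chineseRemainder h p.1 p.2 : ℕ) % A = p.1 :=
      (show _ % A = _ % A from h1.1).trans (Nat.mod_eq_of_lt (Finset.mem_range.mp hp'.1))
    have a2 : (Nat.chineseRemainder h p.1 p.2 : ℕ) % B = p.2 :=
      (show _ % B = _ % B from h1.2).trans (Nat.mod_eq_of_lt (Finset.mem_range.mp hp'.2))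
    exact Prod.ext a1 a2
  · intro b _
    rfl

theorem crt_prod (W : ℕ) (J : Finset ℕ) (hW : 0 < W) (hJ : ∀ l ∈ J, l.Prime)
    (hc : ∀ l ∈ J, Nat.Coprime W l) (β : ℕ) (hβ : β < W) (g : ℕ → ℕ → ℝ) :
    ∑ b ∈ (range (W * ∏ l ∈ J, l)).filter (fun b => b % W = β), ∏ l ∈ J, g l (b % l) =
      ∏ l ∈ J, ∑ r ∈ range l, g l r := by
  induction J using Finset.induction_on with
  | empty =>
    simp only [Finset.prod_empty, mul_one]
    rw [Finset.sum_filter, Finset.sum_eq_single β]
    · rw [if_pos (Nat.mod_eq_of_lt hβ)]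
    · intro b hb hne
      rw [Nat.mod_eq_of_lt (Finset.mem_range.mp hb), if_neg hne]
    · intro h
      exact absurd (Finset.mem_range.mpr hβ) h
  | insert l J hl ih =>
    have hJ' : ∀ l' ∈ J, l'.Prime := fun l' h => hJ l' (Finset.mem_insert_of_mem h)
    have hc' : ∀ l' ∈ J, Nat.Coprime W l' := fun l' h => hc l' (Finset.mem_insert_of_mem h)
    have ih' := ih hJ' hc'
    have hlp : l.Prime := hJ l (Finset.mem_insert_self _ _)
    have hP : 0 < ∏ l' ∈ J, l' := Finset.prod_pos fun l' h => (hJ' l' h).pos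
    have hW' : 0 < W * ∏ l' ∈ J, l' := Nat.mul_pos hW hP
    have hcop : Nat.Coprime (W * ∏ l' ∈ J, l') l := by
      refine Nat.Coprime.mul_left (hc l (Finset.mem_insert_self _ _)) ?_
      refine Nat.Coprime.prod_left fun l' h => ?_
      refine (Nat.coprime_primes (hJ' l' h) hlp).mpr ?_
      rintro rfl
      exact hl h
    rw [Finset.prod_insert hl, Finset.prod_insert hl,
      show W * (l * ∏ l' ∈ J, l') = (W * ∏ l' ∈ J, l') * l by ring, Finset.sum_filter]
    have key : ∀ b ∈ range ((W * ∏ l' ∈ J, l') * l),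
        (if b % W = β then ∏ l' ∈ insert l J, g l' (b % l') else 0) =
          (fun x c : ℕ => (if x % W = β then ∏ l' ∈ J, g l' (x % l') else 0) * g l c)
            (b % (W * ∏ l' ∈ J, l')) (b % l) := by
      intro b _
      have e1 : b % (W * ∏ l' ∈ J, l') % W = b % W :=
        Nat.mod_mod_of_dvd b (Dvd.intro _ rfl)
      have e2 : ∀ l' ∈ J, b % (W * ∏ l' ∈ J, l') % l' = b % l' := fun l' h =>
        Nat.mod_mod_of_dvd b ((Finset.dvd_prod_of_mem (fun x => x) h).trans (Dvd.intro_left _ rfl))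
      simp only [e1]
      rw [Finset.prod_insert hl]
      by_cases hb : b % W = β
      · rw [if_pos hb, if_pos hb, mul_comm]
        congr 1
        exact Finset.prod_congr rfl fun l' h => by rw [e2 l' h]
      · rw [if_neg hb, if_neg hb, zero_mul]
    rw [Finset.sum_congr rfl key, g4_sum_crt _ _ hW' hlp.pos hcop
      (fun x c : ℕ => (if x % W = β then ∏ l' ∈ J, g l' (x % l') else 0) * g l c)]
    have : ∀ a ∈ range (W * ∏ l' ∈ J, l'), ∑ c ∈ range l,
        (fun x c : ℕ => (if x % W = β then ∏ l' ∈ J, g l' (x % l') else 0) * g l c) a c =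
        (if a % W = β then ∏ l' ∈ J, g l' (a % l') else 0) * ∑ c ∈ range l, g l c := by
      intro a _
      rw [Finset.mul_sum]
    rw [Finset.sum_congr rfl this, ← Finset.sum_mul, ← Finset.sum_filter, ih', mul_comm]

end Pool.Agent.Helper1.ES
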