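import Pool.Agent.Helper1.ES.Defs
import Pool.Agent.Helper1.ES.St.G4

/-!
ES-G5b independence at the large primes.
(i) the indicator of `no l ∈ J with b % l ∈ R l` is `∏_l (1 - 1[b % l ∈ R l])`; by `crt_prod` the sum is
`∏_l (l - |R l|) = ∏ l * ∏ (1 - |R l| / l) ≤ ∏ l * ∏ exp (-|R l| / l)`.
(ii) `choose (card F) i = ∑_{A ⊆ J, |A| = i} ∏_{l ∈ A} 1[b % l ∈ R l]`; by `crt_prod` (with
`g l r = if l ∈ A then 1[r ∈ R l] else 1`) the sum over `b` is
`∏_{l ∈ J} l * ∑_{|A| = i} ∏_{l ∈ A} |R l| / l`, and
`∑_{A ∈ powersetCard i J} ∏_{l ∈ A} x l ≤ (∑_{l ∈ J} x l)^i / i!` for `x ≥ 0`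
(Mathlib: `Finset.prod_powersetCard_le`-type / `Finset.esymm`; otherwise induction on `J` or the multinomial
theorem `Finset.sum_pow`).
-/

set_option autoImplicit false

namespace Pool.Agent.Helper1.ES

open Finset

private theorem g5b_pow (S x : ℝ) (hS : 0 ≤ S) (hx : 0 ≤ x) (n : ℕ) :
    S ^ (n + 1) + (n + 1) * x * S ^ n ≤ (S + x) ^ (n + 1) := by
  induction n with
  | zero => simp
  | succ n ih =>
    have h1 : (S ^ (n + 1) + (n + 1) * x * S ^ n) * (S + x) ≤ (S + x) ^ (n + 1 + 1) := by
      rw [pow_succ (S + x) (n + 1)]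
      exact mul_le_mul_of_nonneg_right ih (add_nonneg hS hx)
    refine le_trans ?_ h1
    have h2 : 0 ≤ (n + 1 : ℝ) * x * S ^ n * x := by positivity
    push_cast
    have e : (S ^ (n + 1) + (n + 1) * x * S ^ n) * (S + x) =
        S ^ (n + 1 + 1) + (n + 1 + 1) * x * S ^ (n + 1) + (n + 1 : ℝ) * x * S ^ n * x := by
      ring
    rw [e]
    linarith

private theorem g5b_esymm (x : ℕ → ℝ) (J : Finset ℕ) :
    (∀ l ∈ J, 0 ≤ x l) → ∀ i : ℕ, ∑ A ∈ powersetCard i J, ∏ l ∈ A, x l ≤
      (∑ l ∈ J, x l) ^ i / (i.factorial : ℝ) := by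
  classical
  induction J using Finset.induction_on with
  | empty =>
    intro _ i
    cases i with
    | zero => simp
    | succ i =>
      have h : powersetCard (i + 1) (∅ : Finset ℕ) = ∅ :=
        powersetCard_eq_empty.2 (by simp)
      rw [h]
      simp
  | insert a J ha ih =>
    intro hx i
    have hx' : ∀ l ∈ J, 0 ≤ x l := fun l hl => hx l (mem_insert_of_mem hl)
    have hxa : 0 ≤ x a := hx a (mem_insert_self a J)
    have hS : 0 ≤ ∑ l ∈ J, x l := sum_nonneg hx'
    cases i with
    | zero => simp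
    | succ i =>
      rw [powersetCard_succ_insert ha, sum_union, sum_image, sum_insert ha]
      · have h1 := ih hx' (i + 1)
        have h2 := ih hx' i
        have h3 : ∑ A ∈ powersetCard i J, ∏ l ∈ insert a A, x l =
            x a * ∑ A ∈ powersetCard i J, ∏ l ∈ A, x l := by
          rw [mul_sum]
          refine sum_congr rfl fun A hA => ?_
          rw [prod_insert]
          intro h
          exact ha ((mem_powersetCard.1 hA).1 h)
        rw [h3]
        have h4 := mul_le_mul_of_nonneg_left h2 hxa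
        have h5 := g5b_pow (∑ l ∈ J, x l) (x a) hS hxa i
        have hf : (0 : ℝ) < ((i + 1).factorial : ℝ) := by positivity
        have hfi : (0 : ℝ) < (i.factorial : ℝ) := by positivity
        have h6 : ((i + 1).factorial : ℝ) = (i + 1) * (i.factorial : ℝ) := by
          rw [Nat.factorial_succ]; push_cast; ring
        calc ∑ A ∈ powersetCard (i + 1) J, ∏ l ∈ A, x l +
              x a * ∑ A ∈ powersetCard i J, ∏ l ∈ A, x l
            ≤ (∑ l ∈ J, x l) ^ (i + 1) / ((i + 1).factorial : ℝ) +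
              x a * ((∑ l ∈ J, x l) ^ i / (i.factorial : ℝ)) := add_le_add h1 h4
          _ = ((∑ l ∈ J, x l) ^ (i + 1) + (i + 1) * x a * (∑ l ∈ J, x l) ^ i) /
              ((i + 1).factorial : ℝ) := by
              rw [h6]
              field_simp
          _ ≤ (∑ l ∈ J, x l + x a) ^ (i + 1) / ((i + 1).factorial : ℝ) :=
              div_le_div_of_nonneg_right h5 hf.le
          _ = (x a + ∑ l ∈ J, x l) ^ (i + 1) / ((i + 1).factorial : ℝ) := by
              rw [add_comm (x a)]
      · intro A hA B hB h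
        have hA' : a ∉ A := fun h => ha ((mem_powersetCard.1 (mem_coe.1 hA)).1 h)
        have hB' : a ∉ B := fun h => ha ((mem_powersetCard.1 (mem_coe.1 hB)).1 h)
        rw [← erase_insert hA', ← erase_insert hB', h]
      · rw [disjoint_left]
        intro A hA hA2
        obtain ⟨B, _, rfl⟩ := mem_image.1 hA2
        exact ha ((mem_powersetCard.1 hA).1 (mem_insert_self a B))

theorem indep (W : ℕ) (J : Finset ℕ) (hW : 0 < W) (hJ : ∀ l ∈ J, l.Prime)
    (hc : ∀ l ∈ J, Nat.Coprime W l) (β : ℕ) (hβ : β < W) (R : ℕ → Finset ℕ)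
    (hR : ∀ l ∈ J, R l ⊆ range l) :
    (∑ b ∈ (range (W * ∏ l ∈ J, l)).filter (fun b => b % W = β),
      (if (J.filter (fun l => b % l ∈ R l)).card = 0 then (1 : ℝ) else 0) ≤
      (∏ l ∈ J, (l : ℝ)) * Real.exp (-∑ l ∈ J, ((R l).card : ℝ) / l)) ∧
    ∀ i : ℕ, ∑ b ∈ (range (W * ∏ l ∈ J, l)).filter (fun b => b % W = β),
      (((J.filter (fun l => b % l ∈ R l)).card.choose i : ℕ) : ℝ) ≤
      (∏ l ∈ J, (l : ℝ)) * ((∑ l ∈ J, ((R l).card : ℝ) / l) ^ i / (i.factorial : ℝ)) := by
  classical
  have hlpos : ∀ l ∈ J, (0 : ℝ) < l := fun l hl => by exact_mod_cast (hJ l hl).pos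
  have hsum : ∀ l ∈ J, ∑ r ∈ range l, (if r ∈ R l then (1 : ℝ) else 0) = ((R l).card : ℝ) := by
    intro l hl
    rw [← sum_filter, sum_const, nsmul_eq_mul, mul_one]
    congr 2
    ext r
    rw [mem_filter]
    exact ⟨fun h => h.2, fun h => ⟨hR l hl h, h⟩⟩
  constructor
  · have h1 : ∀ b : ℕ, (if (J.filter (fun l => b % l ∈ R l)).card = 0 then (1 : ℝ) else 0) =
        ∏ l ∈ J, (fun (l r : ℕ) => if r ∈ R l then (0 : ℝ) else 1) l (b % l) := by
      intro b
      by_cases h : (J.filter (fun l => b % l ∈ R l)).card = 0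
      · rw [if_pos h]
        rw [card_eq_zero, filter_eq_empty_iff] at h
        symm
        apply prod_eq_one
        intro l hl
        exact if_neg (h hl)
      · rw [if_neg h]
        obtain ⟨l, hl⟩ := card_pos.1 (Nat.pos_of_ne_zero h)
        rw [mem_filter] at hl
        symm
        exact prod_eq_zero hl.1 (if_pos hl.2)
    rw [sum_congr rfl fun b _ => h1 b,
      crt_prod W J hW hJ hc β hβ (fun (l r : ℕ) => if r ∈ R l then (0 : ℝ) else 1), ← sum_neg_distrib,
      Real.exp_sum, ← prod_mul_distrib]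
    refine prod_le_prod (fun l _ => sum_nonneg fun r _ => ?_) fun l hl => ?_
    · split_ifs <;> norm_num
    · have h2 : ∑ r ∈ range l, (if r ∈ R l then (0 : ℝ) else 1) = l - (R l).card := by
        have h3 : ∀ r ∈ range l, (if r ∈ R l then (0 : ℝ) else 1) =
            1 - (if r ∈ R l then (1 : ℝ) else 0) := by
          intro r _
          split_ifs <;> norm_num
        rw [sum_congr rfl h3, sum_sub_distrib, hsum l hl]
        simp
      rw [h2]
      have hl0 := hlpos l hl
      have h4 := Real.add_one_le_exp (-(((R l).card : ℝ) / l))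
      calc (l : ℝ) - (R l).card = l * (-(((R l).card : ℝ) / l) + 1) := by
            field_simp
            ring
        _ ≤ _ := mul_le_mul_of_nonneg_left h4 hl0.le
  · intro i
    have h1 : ∀ b : ℕ, (((J.filter (fun l => b % l ∈ R l)).card.choose i : ℕ) : ℝ) =
        ∑ A ∈ powersetCard i J, ∏ l ∈ J,
          (fun (l r : ℕ) => if l ∈ A then (if r ∈ R l then (1 : ℝ) else 0) else 1) l (b % l) := by
      intro b
      have h2 : ∀ A ∈ powersetCard i J, ∏ l ∈ J,
          (fun (l r : ℕ) => if l ∈ A then (if r ∈ R l then (1 : ℝ) else 0) else 1) l (b % l) =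
          if A ⊆ J.filter (fun l => b % l ∈ R l) then 1 else 0 := by
        intro A hA
        have hAJ := (mem_powersetCard.1 hA).1
        by_cases h : A ⊆ J.filter (fun l => b % l ∈ R l)
        · rw [if_pos h]
          apply prod_eq_one
          intro l _
          dsimp only
          by_cases hlA : l ∈ A
          · rw [if_pos hlA, if_pos (mem_filter.1 (h hlA)).2]
          · rw [if_neg hlA]
        · rw [if_neg h]
          obtain ⟨l, hlA, hl⟩ := not_subset.1 h
          have : b % l ∉ R l := fun h' => hl (mem_filter.2 ⟨hAJ hlA, h'⟩)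
          apply prod_eq_zero (hAJ hlA)
          dsimp only
          rw [if_pos hlA, if_neg this]
      rw [sum_congr rfl h2, ← sum_filter, sum_const, nsmul_eq_mul, mul_one, ← card_powersetCard]
      congr 2
      ext A
      rw [mem_filter, mem_powersetCard, mem_powersetCard]
      constructor
      · intro h
        exact ⟨⟨h.1.trans (filter_subset _ _), h.2⟩, h.1⟩
      · intro h
        exact ⟨h.2, h.1.2⟩
    rw [sum_congr rfl fun b _ => h1 b, sum_comm]
    have h3 : ∀ A ∈ powersetCard i J,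
        ∑ b ∈ (range (W * ∏ l ∈ J, l)).filter (fun b => b % W = β), ∏ l ∈ J,
          (fun (l r : ℕ) => if l ∈ A then (if r ∈ R l then (1 : ℝ) else 0) else 1) l (b % l) =
        (∏ l ∈ J, (l : ℝ)) * ∏ l ∈ A, (((R l).card : ℝ) / l) := by
      intro A hA
      have hAJ := (mem_powersetCard.1 hA).1
      rw [crt_prod W J hW hJ hc β hβ
        (fun (l r : ℕ) => if l ∈ A then (if r ∈ R l then (1 : ℝ) else 0) else 1)]
      have h4 : ∏ l ∈ A, (((R l).card : ℝ) / l) =
          ∏ l ∈ J, (if l ∈ A then (((R l).card : ℝ) / l) else 1) := by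
        rw [prod_ite_mem, inter_eq_right.2 hAJ]
      rw [h4, ← prod_mul_distrib]
      refine prod_congr rfl fun l hl => ?_
      by_cases hlA : l ∈ A
      · simp only [hlA, if_true]
        rw [hsum l hl]
        have hl0 := (hlpos l hl).ne'
        field_simp
      · simp [hlA]
    rw [sum_congr rfl h3, ← mul_sum]
    refine mul_le_mul_of_nonneg_left ?_ (prod_nonneg fun l hl => (hlpos l hl).le)
    exact g5b_esymm (fun l => ((R l).card : ℝ) / l) J
      (fun l hl => div_nonneg (Nat.cast_nonneg _) (hlpos l hl).le) i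

end Pool.Agent.Helper1.ES
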