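import Pool.Agent.Helper1.ES.Defs
import Pool.Agent.Helper1.ES.St.G5a

/-!
ES-G5c.  Take `R l = {r ∈ range l : ∃ w ∈ Om, w.l = l ∧ SatS β w ∧ l ∣ w.k * r + w.u}` (classical filter).
`w ↦` the unique `r < l` with `l ∣ w.k r + w.u` (`w.k` is coprime to `l`) is a bijection from
`{w ∈ Om : w.l = l, SatS β w}` onto `R l` (injective by `hA.uniq` with `b = r`), hence the formula for `T`
(group the sum defining `T` by `w.l`).  If `b % WW = β` then `SatS b w ↔ SatS β w` because `w.s ∣ WW z S`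
(`s_dvd`), and `Sat b w ↔ SatS b w ∧ w.l ∣ w.k * b + w.u` (`w.l` is prime, `0 < w.s ≤ S < w.l`, so coprime).
`w ↦ w.l` is injective on the satisfied data (`hA.uniq`), its image is the set on the right
(`l ∣ k b + u ↔ l ∣ k (b % l) + u`).
-/

set_option autoImplicit false

namespace Pool.Agent.Helper1.ES

open Finset

private theorem g5c_modEq_dvd {m k u b b' : ℕ} (h : b ≡ b' [MOD m]) :
    m ∣ k * b + u ↔ m ∣ k * b' + u := by
  have h1 : k * b + u ≡ k * b' + u [MOD m] := (h.mul_left k).add_right u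
  exact (h1.dvd_iff dvd_rfl)

private theorem g5c_exists {k l u : ℕ} (hl : l.Prime) (hk : Nat.Coprime k l) :
    ∃ r, r < l ∧ l ∣ k * r + u := by
  haveI : Fact l.Prime := ⟨hl⟩
  have hk0 : (k : ZMod l) ≠ 0 := by
    intro h
    rw [ZMod.natCast_eq_zero_iff] at h
    exact (Nat.Prime.coprime_iff_not_dvd hl).1 hk.symm h
  refine ⟨(-(u : ZMod l) * (k : ZMod l)⁻¹).val, ZMod.val_lt _, ?_⟩
  rw [← ZMod.natCast_eq_zero_iff, Nat.cast_add, Nat.cast_mul, ZMod.natCast_zmod_val]
  field_simp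
  ring

private theorem g5c_unique {k l u r r' : ℕ} (hl : l.Prime) (hk : Nat.Coprime k l)
    (hr : r < l) (hr' : r' < l) (h : l ∣ k * r + u) (h' : l ∣ k * r' + u) : r = r' := by
  have h1 : k * r + u ≡ k * r' + u [MOD l] :=
    ((Nat.modEq_zero_iff_dvd.2 h)).trans (Nat.modEq_zero_iff_dvd.2 h').symm
  have h2 : k * r ≡ k * r' [MOD l] := Nat.ModEq.add_right_cancel' u h1
  have h3 : r ≡ r' [MOD l] := Nat.ModEq.cancel_left_of_coprime (by
    have := hk.symm
    exact this) h2
  exact Nat.ModEq.eq_of_lt_of_lt h3 hr hr'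

theorem fibre (Om : Finset Tr) (S z : ℕ) (hA : Adm Om S) (hz : ∀ w ∈ Om, Rough z w.s) (β : ℕ) :
    ∃ R : ℕ → Finset ℕ, (∀ l ∈ LL Om, R l ⊆ range l) ∧
      T Om β = ∑ l ∈ LL Om, ((R l).card : ℝ) / l ∧
      ∀ b : ℕ, b % WW z S = β → X Om b = ((LL Om).filter (fun l => b % l ∈ R l)).card := by
  classical
  have hkl : ∀ w ∈ Om, Nat.Coprime w.k w.l := fun w hw => (hA.cop w hw).coprime_mul_right_right
  have hmem : ∀ (l r : ℕ), r ∈ (range l).filter (fun r => ∃ w ∈ Om, w.l = l ∧ SatS β w ∧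
      l ∣ w.k * r + w.u) ↔ r < l ∧ ∃ w ∈ Om, w.l = l ∧ SatS β w ∧ l ∣ w.k * r + w.u := by
    intro l r
    rw [mem_filter, mem_range]
  refine ⟨fun l => (range l).filter (fun r => ∃ w ∈ Om, w.l = l ∧ SatS β w ∧
      l ∣ w.k * r + w.u), fun l _ => filter_subset _ _, ?_, ?_⟩
  · rw [T]
    rw [← sum_fiberwise_of_maps_to (g := Tr.l) (t := LL Om) (by
      intro w hw
      exact mem_image_of_mem _ (mem_filter.1 hw).1)]
    apply sum_congr rfl
    intro l hl
    have h1 : ∑ w ∈ (Om.filter (fun w => SatS β w)).filter (fun w => w.l = l), 1 / (w.l : ℝ) =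
        (((Om.filter (fun w => SatS β w)).filter (fun w => w.l = l)).card : ℝ) / l := by
      rw [sum_congr rfl (g := fun _ => 1 / (l : ℝ)) (fun w hw => by rw [(mem_filter.1 hw).2])]
      rw [sum_const, nsmul_eq_mul, mul_one_div]
    rw [h1]
    congr 2
    have hex : ∀ w ∈ (Om.filter (fun w => SatS β w)).filter (fun w => w.l = l),
        ∃ r, r < l ∧ l ∣ w.k * r + w.u := by
      intro w hw
      have h2 := mem_filter.1 hw
      have h3 := mem_filter.1 h2.1
      rw [← h2.2]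
      exact g5c_exists (hA.prime w h3.1) (hkl w h3.1)
    refine card_bij (fun w hw => (hex w hw).choose) ?_ ?_ ?_
    · intro w hw
      have h2 := mem_filter.1 hw
      have h3 := mem_filter.1 h2.1
      rw [hmem]
      exact ⟨(hex w hw).choose_spec.1, w, h3.1, h2.2, h3.2, (hex w hw).choose_spec.2⟩
    · intro w hw w' hw' he
      have h2 := mem_filter.1 hw
      have h3 := mem_filter.1 h2.1
      have h2' := mem_filter.1 hw'
      have h3' := mem_filter.1 h2'.1
      by_contra hne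
      have h4 := (hex w hw).choose_spec.2
      have h5 := (hex w' hw').choose_spec.2

      rw [← he] at h5
      refine hA.uniq w h3.1 w' h3'.1 hne (h2.2.trans h2'.2.symm) (hex w hw).choose ?_ ?_
      · rw [h2.2]; exact h4
      · rw [h2.2]; exact h5
    · intro r hr
      rw [hmem] at hr
      obtain ⟨hrl, w, hw, hwl, hws, hd⟩ := hr
      have hw' : w ∈ (Om.filter (fun w => SatS β w)).filter (fun w => w.l = l) :=
        mem_filter.2 ⟨mem_filter.2 ⟨hw, hws⟩, hwl⟩
      refine ⟨w, hw', ?_⟩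
      have hpl : l.Prime := hwl ▸ hA.prime w hw
      have hcl : Nat.Coprime w.k l := hwl ▸ hkl w hw
      exact g5c_unique hpl hcl (hex w hw').choose_spec.1 hrl (hex w hw').choose_spec.2 hd
  · intro b hb
    rw [X]
    have hbs : ∀ w ∈ Om, (w.s ∣ w.k * b + w.u ↔ SatS β w) := by
      intro w hw
      have h1 : w.s ∣ WW z S := s_dvd z S w.s (hA.spos w hw) (hA.sle w hw) (hz w hw)
      have h2 : b ≡ β [MOD WW z S] := by
        rw [← hb]
        exact (Nat.mod_modEq b (WW z S)).symm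
      exact g5c_modEq_dvd (h2.of_dvd h1)
    have hbl : ∀ (l k u : ℕ), (l ∣ k * (b % l) + u ↔ l ∣ k * b + u) := fun l k u =>
      g5c_modEq_dvd (Nat.mod_modEq b l)
    have hSat : ∀ w ∈ Om, (Sat b w ↔ SatS β w ∧ w.l ∣ w.k * b + w.u) := by
      intro w hw
      rw [Sat, ← hbs w hw]
      constructor
      · intro h
        exact ⟨(Dvd.intro_left _ rfl).trans h, (Dvd.intro _ rfl).trans h⟩
      · rintro ⟨h1, h2⟩
        refine Nat.Coprime.mul_dvd_of_dvd_of_dvd ?_ h2 h1
        rw [Nat.Prime.coprime_iff_not_dvd (hA.prime w hw)]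
        intro h3
        have h4 := Nat.le_of_dvd (hA.spos w hw) h3
        have h5 := hA.sle w hw
        have h6 := hA.big w hw
        omega
    refine card_bij (fun w _ => w.l) ?_ ?_ ?_
    · intro w hw
      have h1 := mem_filter.1 hw
      have h2 := (hSat w h1.1).1 h1.2
      rw [mem_filter]
      refine ⟨mem_image_of_mem _ h1.1, ?_⟩
      rw [hmem]
      exact ⟨Nat.mod_lt _ (hA.prime w h1.1).pos, w, h1.1, rfl, h2.1, (hbl _ _ _).2 h2.2⟩
    · intro w hw w' hw' he
      have h1 := mem_filter.1 hw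
      have h2 := (hSat w h1.1).1 h1.2
      have h1' := mem_filter.1 hw'
      have h2' := (hSat w' h1'.1).1 h1'.2
      by_contra hne
      have he' : w.l = w'.l := he
      refine hA.uniq w h1.1 w' h1'.1 hne he' b h2.2 ?_
      rw [he']
      exact h2'.2
    · intro l hl
      rw [mem_filter, hmem] at hl
      obtain ⟨_, hlt, w, hw, hwl, hws, hd⟩ := hl
      refine ⟨w, mem_filter.2 ⟨hw, (hSat w hw).2 ⟨hws, ?_⟩⟩, hwl⟩
      rw [hwl]
      exact (hbl _ _ _).1 hd

end Pool.Agent.Helper1.ES
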