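import Pool.Agent.Helper1.ES.Defs
import Pool.Agent.Helper1.ES.St.G5b
import Pool.Agent.Helper1.ES.St.G5c

/-!
ES-G5.  Split `b ∈ range (MM Om z S)` by `β = b % WW z S` (`Finset.sum_fiberwise_of_maps_to`), take `R` from
`fibre` for each `β` and apply `indep` with `W = WW z S`, `J = LL Om` (primes `> S`, hence coprime to `WW`).
-/

set_option autoImplicit false

namespace Pool.Agent.Helper1.ES

open Finset

private theorem large_part_aux (Om : Finset Tr) (S z : ℕ) (hA : Adm Om S)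
    (hz : ∀ w ∈ Om, Rough z w.s) (F : ℕ → ℝ) (C : ℕ → ℝ)
    (h : ∀ β ∈ range (WW z S), ∀ R : ℕ → Finset ℕ, (∀ l ∈ LL Om, R l ⊆ range l) →
      T Om β = ∑ l ∈ LL Om, ((R l).card : ℝ) / l →
      ∑ b ∈ (range (WW z S * ∏ l ∈ LL Om, l)).filter (fun b => b % WW z S = β),
        F ((LL Om).filter (fun l => b % l ∈ R l)).card ≤ (∏ l ∈ LL Om, (l : ℝ)) * C β)
    (hW : 0 < WW z S) :
    ∑ b ∈ range (MM Om z S), F (X Om b) ≤
      (∏ l ∈ LL Om, (l : ℝ)) * ∑ β ∈ range (WW z S), C β := by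
  have hmaps : ∀ b ∈ range (MM Om z S), b % WW z S ∈ range (WW z S) := by
    intro b _
    exact mem_range.2 (Nat.mod_lt _ hW)
  rw [← Finset.sum_fiberwise_of_maps_to hmaps (fun b => F (X Om b)), Finset.mul_sum]
  refine Finset.sum_le_sum fun β hβ => ?_
  obtain ⟨R, hR1, hR2, hR3⟩ := fibre Om S z hA hz β
  refine le_trans (le_of_eq ?_) (h β hβ R hR1 hR2)
  refine Finset.sum_congr rfl fun b hb => ?_
  rw [hR3 b (Finset.mem_filter.1 hb).2]

theorem large_part (Om : Finset Tr) (S z : ℕ) (hA : Adm Om S) (hz : ∀ w ∈ Om, Rough z w.s) :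
    (∑ b ∈ range (MM Om z S), (if X Om b = 0 then (1 : ℝ) else 0) ≤
      (∏ l ∈ LL Om, (l : ℝ)) * ∑ β ∈ range (WW z S), Real.exp (-T Om β)) ∧
    ∀ i : ℕ, ∑ b ∈ range (MM Om z S), ((X Om b).choose i : ℝ) ≤
      (∏ l ∈ LL Om, (l : ℝ)) * ∑ β ∈ range (WW z S), (T Om β) ^ i / (i.factorial : ℝ) := by
  have hprime : ∀ l ∈ LL Om, l.Prime := by
    intro l hl
    obtain ⟨w, hw, rfl⟩ := Finset.mem_image.1 hl
    exact hA.prime w hw
  have hbig : ∀ l ∈ LL Om, S < l := by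
    intro l hl
    obtain ⟨w, hw, rfl⟩ := Finset.mem_image.1 hl
    exact hA.big w hw
  have hPS : ∀ p ∈ PS z S, p.Prime ∧ p ≤ S := by
    intro p hp
    have h1 := Finset.mem_filter.1 hp
    exact ⟨h1.2, (Finset.mem_Ioc.1 h1.1).2⟩
  have hW : 0 < WW z S := Finset.prod_pos fun p hp => pow_pos (hPS p hp).1.pos S
  have hcop : ∀ l ∈ LL Om, Nat.Coprime (WW z S) l := by
    intro l hl
    refine Nat.Coprime.prod_left fun p hp => ?_
    refine Nat.Coprime.pow_left S ?_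
    rw [Nat.coprime_primes (hPS p hp).1 (hprime l hl)]
    intro he
    have h1 := (hPS p hp).2
    have h2 := hbig l hl
    omega
  refine ⟨?_, ?_⟩
  · refine large_part_aux Om S z hA hz (fun m => if m = 0 then 1 else 0)
      (fun β => Real.exp (-T Om β)) ?_ hW
    intro β hβ R hR1 hR2
    have h1 := (indep (WW z S) (LL Om) hW hprime hcop β (mem_range.1 hβ) R hR1).1
    rw [← hR2] at h1
    exact h1
  · intro i
    refine large_part_aux Om S z hA hz (fun m => ((m.choose i : ℕ) : ℝ))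
      (fun β => (T Om β) ^ i / (i.factorial : ℝ)) ?_ hW
    intro β hβ R hR1 hR2
    have h1 := (indep (WW z S) (LL Om) hW hprime hcop β (mem_range.1 hβ) R hR1).2 i
    rw [← hR2] at h1
    exact h1

end Pool.Agent.Helper1.ES
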