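import Pool.Agent.Helper1.ES.Defs

/-!
ES-N1 the identity.  `l s + 1 = a u k t`, `k b + u = l s v`; `t, v ≥ 1`.  Then
`a / b = 1/(u t v) + 1/(b k t v) + 1/(b k u t)`: the right side is `(b k + u + v)/(b k u t v)` and
`b k + u + v = v (l s + 1) = v a u k t`.
-/

set_option autoImplicit false

namespace Pool.Agent.Helper1.ES

open Finset

theorem rep_of_sat (a n z b : ℕ) (w : Tr) (ha : 1 ≤ a) (hb : 1 ≤ b) (hw : w ∈ Om a n z)
    (hs : Sat b w) : Rep a b := by
  obtain ⟨⟨hu, -⟩, ⟨hk, -⟩, -, -, -, -, -, hdvd, -⟩ := mem_Om.mp hw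
  obtain ⟨t, ht⟩ := hdvd
  obtain ⟨v, hv⟩ := hs
  have hu0 : 0 < w.u := lt_of_le_of_lt (Nat.zero_le _) hu
  have hk0 : 0 < w.k := lt_of_le_of_lt (Nat.zero_le _) hk
  have ht0 : 0 < t := by
    rcases Nat.eq_zero_or_pos t with h | h
    · rw [h, Nat.mul_zero] at ht
      omega
    · exact h
  have hv0 : 0 < v := by
    rcases Nat.eq_zero_or_pos v with h | h
    · rw [h, Nat.mul_zero] at hv
      omega
    · exact h
  have hb0 : 0 < b := hb
  refine ⟨w.u * t * v, b * w.k * t * v, b * w.k * w.u * t, by positivity, by positivity,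
    by positivity, ?_⟩
  have key : b * w.k + w.u + v = v * (a * w.u * w.k * t) := by
    rw [← ht, Nat.mul_add, Nat.mul_one]
    have h2 : v * (w.l * w.s) = w.k * b + w.u := by rw [hv, Nat.mul_comm]
    rw [h2, Nat.mul_comm b w.k]
  have keyQ : (b : ℚ) * w.k + w.u + v = v * (a * w.u * w.k * t) := by exact_mod_cast key
  have hbQ : (b : ℚ) ≠ 0 := by exact_mod_cast hb0.ne'
  have huQ : (w.u : ℚ) ≠ 0 := by exact_mod_cast hu0.ne'
  have hkQ : (w.k : ℚ) ≠ 0 := by exact_mod_cast hk0.ne'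
  have htQ : (t : ℚ) ≠ 0 := by exact_mod_cast ht0.ne'
  have hvQ : (v : ℚ) ≠ 0 := by exact_mod_cast hv0.ne'
  push_cast
  have e1 : (1 : ℚ) / (w.u * t * v) + 1 / (b * w.k * t * v) + 1 / (b * w.k * w.u * t)
      = (b * w.k + w.u + v) / (b * w.k * w.u * t * v) := by
    field_simp
  rw [e1, keyQ]
  field_simp

end Pool.Agent.Helper1.ES
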