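import Pool.Agent.Helper1.ES.Defs

/-!
ES-N2.  `cop`: `k ∣ l s + 1`.  `uniq`: if `l ∣ k b + u` and `l ∣ k' b + u'` then
`l ∣ k' (k b + u) - k (k' b + u') = k' u - k u'` which is smaller than `2^{4n} < l` in absolute value, so
`k' u = k u'`, and coprimality gives `u = u'`, `k = k'`; then `s ≡ s'` modulo `a u k` (`l s ≡ -1 ≡ l s'`, `l` is
coprime to `a u k`) and `1 ≤ s, s' < a u k` give `s = s'`.
-/

set_option autoImplicit false

namespace Pool.Agent.Helper1.ES

open Finset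

private theorem n2_eq_of_modEq {m s s' : ℕ} (h : s ≡ s' [MOD m]) (hs : s < m) (hs' : s' < m) :
    s = s' := Nat.ModEq.eq_of_lt_of_lt h hs hs'

theorem adm_Om (a n z : ℕ) (hn : 1 ≤ n) (ha : 1 ≤ a) (han : a ≤ 2 ^ n) :
    Adm (Om a n z) (2 ^ (5 * n)) := by
  refine ⟨?_, ?_, ?_, ?_, ?_, ?_⟩
  · intro w hw
    exact (mem_Om.1 hw).2.2.2.2.2.1
  · intro w hw
    refine lt_of_le_of_lt ?_ (mem_Om.1 hw).2.2.1.1
    exact Nat.pow_le_pow_right (by norm_num) (by omega)
  · intro w hw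
    exact (mem_Om.1 hw).2.2.2.1.1
  · intro w hw
    exact (mem_Om.1 hw).2.2.2.1.2
  · intro w hw
    have h := (mem_Om.1 hw).2.2.2.2.2.2.2.1
    have h1 : w.k ∣ w.l * w.s + 1 := (Dvd.intro_left _ rfl).trans h
    have h2 : Nat.gcd w.k (w.l * w.s) ∣ 1 := by
      have h3 := (Nat.gcd_dvd_left w.k (w.l * w.s)).trans h1
      exact (Nat.dvd_add_right (Nat.gcd_dvd_right w.k (w.l * w.s))).1 h3
    exact Nat.dvd_one.1 h2
  · intro w hw w' hw' hne hl b hb hb'
    obtain ⟨⟨hu1, hu2⟩, ⟨hk1, hk2⟩, ⟨hl1, _⟩, ⟨hs1, _⟩, hc, hp, hs, hd, _⟩ := mem_Om.1 hw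
    obtain ⟨⟨hu1', hu2'⟩, ⟨hk1', hk2'⟩, _, ⟨hs1', _⟩, hc', _, hs', hd', _⟩ := mem_Om.1 hw'
    apply hne
    rw [← hl] at hd'
    -- the cross products agree
    have hbig : 2 ^ (2 * n) * 2 ^ (2 * n) < w.l := by
      refine lt_of_le_of_lt ?_ hl1
      rw [← pow_add]
      exact Nat.pow_le_pow_right (by norm_num) (by omega)
    have e1 : w'.k * w.u < w.l :=
      lt_of_le_of_lt (Nat.mul_le_mul hk2' hu2) hbig
    have e2 : w.k * w'.u < w.l :=
      lt_of_le_of_lt (Nat.mul_le_mul hk2 hu2') hbig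
    have hmod : w'.k * w.u ≡ w.k * w'.u [MOD w.l] := by
      have h1 : w'.k * (w.k * b) + w'.k * w.u ≡ w'.k * (w.k * b) + w.k * w'.u [MOD w.l] := by
        have h2 : w'.k * (w.k * b) + w'.k * w.u ≡ 0 [MOD w.l] := by
          rw [← mul_add]
          exact (Nat.modEq_zero_iff_dvd.2 (hb.mul_left _))
        have h3 : w'.k * (w.k * b) + w.k * w'.u ≡ 0 [MOD w.l] := by
          have h4 : w'.k * (w.k * b) + w.k * w'.u = w.k * (w'.k * b + w'.u) := by ring
          rw [h4]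
          exact (Nat.modEq_zero_iff_dvd.2 (hb'.mul_left _))
        exact h2.trans h3.symm
      exact Nat.ModEq.add_left_cancel' _ h1
    have hx : w'.k * w.u = w.k * w'.u := n2_eq_of_modEq hmod e1 e2
    have hupos : 0 < w.u := lt_of_le_of_lt (Nat.zero_le _) hu1
    have hk : w.k = w'.k := by
      apply Nat.dvd_antisymm
      · have h1 : w.k ∣ w'.k * w.u := by rw [hx]; exact Dvd.intro _ rfl
        exact hc.symm.dvd_of_dvd_mul_right h1
      · have h1 : w'.k ∣ w.k * w'.u := by rw [← hx]; exact Dvd.intro _ rfl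
        exact hc'.symm.dvd_of_dvd_mul_right h1
    have hkpos : 0 < w.k := lt_of_le_of_lt (Nat.zero_le _) hk1
    have hu : w.u = w'.u := by
      rw [← hk] at hx
      exact Nat.eq_of_mul_eq_mul_left hkpos hx
    rw [← hk, ← hu] at hd' hs'
    have hcl : Nat.Coprime (a * w.u * w.k) w.l := by
      have h2 : Nat.gcd (a * w.u * w.k) w.l ∣ 1 := by
        have h3 := (Nat.gcd_dvd_left (a * w.u * w.k) w.l).trans hd
        exact (Nat.dvd_add_right ((Nat.gcd_dvd_right (a * w.u * w.k) w.l).mul_right _)).1 h3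
      exact Nat.dvd_one.1 h2
    have hsm : w.s ≡ w'.s [MOD a * w.u * w.k] := by
      have h1 : w.l * w.s + 1 ≡ w.l * w'.s + 1 [MOD a * w.u * w.k] :=
        (Nat.modEq_zero_iff_dvd.2 hd).trans (Nat.modEq_zero_iff_dvd.2 hd').symm
      have h2 : w.l * w.s ≡ w.l * w'.s [MOD a * w.u * w.k] := Nat.ModEq.add_right_cancel' 1 h1
      exact Nat.ModEq.cancel_left_of_coprime hcl h2
    have hss : w.s = w'.s := n2_eq_of_modEq hsm hs hs'
    cases w
    cases w'
    simp only at hu hk hl hss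
    subst hu hk hl hss
    rfl

end Pool.Agent.Helper1.ES
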