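import Pool.Agent.Helper1.ES.Defs

/-!
ES-N3b.  Two different pairs `(u,k) ≠ (u',k')` of the set have `s ∣ k' u - k u'` (subtract `k'(k b+u)` and
`k (k' b+u')`) and `k' u ≠ k u'` (coprime), so the slopes `u/k`, `u'/k'` differ by at least
`s / (k k') ≥ s / (4 K^2)`; all slopes lie in `(U / (2K), 2U / K]`, an interval of length `3U/(2K)`.
Packing: a finite set of reals in an interval of length `L`, pairwise `≥ δ` apart, has at most `1 + L/δ`
elements (e.g. map `x ↦ ⌊(x - min)/δ⌋` is injective, or induction on the cardinality).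
-/

set_option autoImplicit false

namespace Pool.Agent.Helper1.ES

open Finset

private theorem slope_sep (s b K : ℕ) (q q' : ℕ × ℕ)
    (hq2 : 1 ≤ q.2) (hq2' : 1 ≤ q'.2) (hk : q.2 ≤ 2 * K) (hk' : q'.2 ≤ 2 * K)
    (hc : Nat.Coprime q.1 q.2) (hc' : Nat.Coprime q'.1 q'.2) (hd : s ∣ q.2 * b + q.1)
    (hd' : s ∣ q'.2 * b + q'.1) (hne : q ≠ q') :
    (s : ℝ) / (4 * (K : ℝ) ^ 2) ≤ |(q.1 : ℝ) / q.2 - (q'.1 : ℝ) / q'.2| := by
  obtain ⟨u, k⟩ := q
  obtain ⟨u', k'⟩ := q'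
  simp only at *
  have h1 : (s : ℤ) ∣ (k' : ℤ) * u - k * u' := by
    have e1 : (s : ℤ) ∣ (k : ℤ) * b + u := by exact_mod_cast hd
    have e2 : (s : ℤ) ∣ (k' : ℤ) * b + u' := by exact_mod_cast hd'
    have e3 := dvd_sub (e1.mul_left (k' : ℤ)) (e2.mul_left (k : ℤ))
    have e4 : (k' : ℤ) * (k * b + u) - k * (k' * b + u') = (k' : ℤ) * u - k * u' := by ring
    rwa [e4] at e3
  have h2 : (k' : ℤ) * u - k * u' ≠ 0 := by
    intro h0
    have h3 : k' * u = k * u' := by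
      have : (k' : ℤ) * u = k * u' := by linarith
      exact_mod_cast this
    have h4 : k ∣ k' := by
      have : k ∣ k' * u := ⟨u', h3⟩
      exact hc.symm.dvd_of_dvd_mul_right this
    have h5 : k' ∣ k := by
      have : k' ∣ k * u' := ⟨u, h3.symm⟩
      exact hc'.symm.dvd_of_dvd_mul_right this
    have h6 : k = k' := Nat.dvd_antisymm h4 h5
    subst h6
    have h7 : u = u' := Nat.eq_of_mul_eq_mul_left (by omega) h3
    subst h7
    exact hne rfl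
  have h3 : (s : ℤ) ≤ |(k' : ℤ) * u - k * u'| := by
    apply Int.le_of_dvd (abs_pos.mpr h2)
    rwa [dvd_abs]
  have h3' : (s : ℝ) ≤ |(k' : ℝ) * u - k * u'| := by exact_mod_cast h3
  have hkr : (0 : ℝ) < k := by exact_mod_cast hq2
  have hkr' : (0 : ℝ) < k' := by exact_mod_cast hq2'
  have hkK : (k : ℝ) ≤ 2 * K := by exact_mod_cast hk
  have hkK' : (k' : ℝ) ≤ 2 * K := by exact_mod_cast hk'
  have hKr : (0 : ℝ) < K := by linarith
  have h4 : (u : ℝ) / k - (u' : ℝ) / k' = ((k' : ℝ) * u - k * u') / (k * k') := by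
    field_simp
  rw [h4, abs_div, abs_of_pos (mul_pos hkr hkr')]
  rw [div_le_div_iff₀ (by positivity) (mul_pos hkr hkr')]
  have h5 : (k : ℝ) * k' ≤ 4 * (K : ℝ) ^ 2 := by
    have := mul_le_mul hkK hkK' hkr'.le (by linarith)
    linarith
  exact mul_le_mul h3' h5 (mul_pos hkr hkr').le (abs_nonneg _)

theorem box_count (s b U K : ℕ) (hs : 1 ≤ s) (hU : 1 ≤ U) (hK : 1 ≤ K) :
    ((((Ioc U (2 * U)) ×ˢ (Ioc K (2 * K))).filter
      (fun q : ℕ × ℕ => Nat.Coprime q.1 q.2 ∧ s ∣ q.2 * b + q.1)).card : ℝ) ≤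
      1 + 6 * U * K / s := by
  set S := ((Ioc U (2 * U)) ×ˢ (Ioc K (2 * K))).filter
      (fun q : ℕ × ℕ => Nat.Coprime q.1 q.2 ∧ s ∣ q.2 * b + q.1) with hS
  have hsr : (0 : ℝ) < s := by exact_mod_cast hs
  have hKr : (0 : ℝ) < K := by exact_mod_cast hK
  have hUr : (0 : ℝ) < U := by exact_mod_cast hU
  let φ : ℕ × ℕ → ℕ := fun q =>
    ⌊((q.1 : ℝ) / q.2 - U / (2 * K)) * (4 * (K : ℝ) ^ 2 / s)⌋₊
  have hpos : (0 : ℝ) < 4 * (K : ℝ) ^ 2 / s := by positivity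
  have hmem : ∀ q ∈ S, U < q.1 ∧ q.1 ≤ 2 * U ∧ K < q.2 ∧ q.2 ≤ 2 * K ∧ Nat.Coprime q.1 q.2 ∧
      s ∣ q.2 * b + q.1 := by
    intro q hq
    rw [hS, mem_filter, mem_product, mem_Ioc, mem_Ioc] at hq
    exact ⟨hq.1.1.1, hq.1.1.2, hq.1.2.1, hq.1.2.2, hq.2.1, hq.2.2⟩
  have hlow : ∀ q ∈ S, 0 ≤ ((q.1 : ℝ) / q.2 - U / (2 * K)) * (4 * (K : ℝ) ^ 2 / s) := by
    intro q hq
    obtain ⟨a1, a2, a3, a4, -, -⟩ := hmem q hq
    apply mul_nonneg _ hpos.le
    rw [sub_nonneg, div_le_div_iff₀ (by positivity) (by exact_mod_cast (by omega : 0 < q.2))]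
    have b1 : (U : ℝ) ≤ q.1 := by exact_mod_cast a1.le
    have b2 : (q.2 : ℝ) ≤ 2 * K := by exact_mod_cast a4
    exact mul_le_mul b1 b2 (Nat.cast_nonneg _) (Nat.cast_nonneg _)
  have hup : ∀ q ∈ S, ((q.1 : ℝ) / q.2 - U / (2 * K)) * (4 * (K : ℝ) ^ 2 / s) ≤
      6 * U * K / s := by
    intro q hq
    obtain ⟨a1, a2, a3, a4, -, -⟩ := hmem q hq
    have b1 : (q.1 : ℝ) / q.2 ≤ 2 * U / K := by
      have c1 : (q.1 : ℝ) ≤ 2 * U := by exact_mod_cast a2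
      have c2 : (K : ℝ) ≤ q.2 := by exact_mod_cast a3.le
      exact div_le_div₀ (by positivity) c1 hKr c2
    have b2 : ((q.1 : ℝ) / q.2 - U / (2 * K)) * (4 * (K : ℝ) ^ 2 / s)
        ≤ (2 * U / K - U / (2 * K)) * (4 * (K : ℝ) ^ 2 / s) :=
      mul_le_mul_of_nonneg_right (by linarith) hpos.le
    have b3 : (2 * (U : ℝ) / K - U / (2 * K)) * (4 * (K : ℝ) ^ 2 / s) =
        6 * U * K / s := by
      field_simp
      ring
    rw [← b3]
    exact b2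
  have hinj : Set.InjOn φ (S : Set (ℕ × ℕ)) := by
    intro q hq q' hq' heq
    by_contra hne
    have hq1 : q ∈ S := hq
    have hq1' : q' ∈ S := hq'
    obtain ⟨a1, a2, a3, a4, a5, a6⟩ := hmem q hq1
    obtain ⟨b1, b2, b3, b4, b5, b6⟩ := hmem q' hq1'
    have hsep := slope_sep s b K q q' (by omega) (by omega) a4 b4 a5 b5 a6 b6 hne
    have f1 := Nat.floor_le (hlow q hq1)
    have f2 := Nat.lt_floor_add_one (((q.1 : ℝ) / q.2 - U / (2 * K)) * (4 * (K : ℝ) ^ 2 / s))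
    have f3 := Nat.floor_le (hlow q' hq1')
    have f4 := Nat.lt_floor_add_one (((q'.1 : ℝ) / q'.2 - U / (2 * K)) * (4 * (K : ℝ) ^ 2 / s))
    have heq' : (⌊((q.1 : ℝ) / q.2 - U / (2 * K)) * (4 * (K : ℝ) ^ 2 / s)⌋₊ : ℝ) =
        (⌊((q'.1 : ℝ) / q'.2 - U / (2 * K)) * (4 * (K : ℝ) ^ 2 / s)⌋₊ : ℝ) := by
      exact congrArg Nat.cast heq
    have h1 : |((q.1 : ℝ) / q.2 - (q'.1 : ℝ) / q'.2) * (4 * (K : ℝ) ^ 2 / s)| < 1 := by
      rw [abs_lt]
      constructor <;> nlinarith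
    rw [abs_mul, abs_of_pos hpos] at h1
    have h2 : (s : ℝ) / (4 * (K : ℝ) ^ 2) * (4 * (K : ℝ) ^ 2 / s) = 1 := by
      field_simp
    have h3 := mul_le_mul_of_nonneg_right hsep hpos.le
    linarith
  have hcard : S.card ≤ ⌊(6 * U * K / s : ℝ)⌋₊ + 1 := by
    have h1 : (S.image φ).card = S.card := Finset.card_image_of_injOn hinj
    rw [← h1]
    calc (S.image φ).card ≤ (range (⌊(6 * U * K / s : ℝ)⌋₊ + 1)).card := by
          apply Finset.card_le_card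
          intro m hm
          obtain ⟨q, hq, rfl⟩ := mem_image.mp hm
          rw [mem_range]
          exact Nat.lt_succ_of_le (Nat.floor_le_floor (hup q hq))
      _ = _ := card_range _
  have hfl : (⌊(6 * U * K / s : ℝ)⌋₊ : ℝ) ≤ 6 * U * K / s := Nat.floor_le (by positivity)
  have hcard' : (S.card : ℝ) ≤ (⌊(6 * U * K / s : ℝ)⌋₊ : ℝ) + 1 := by exact_mod_cast hcard
  linarith

end Pool.Agent.Helper1.ES
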