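import Pool.Agent.Helper1.ES.Defs
import Pool.Agent.Helper1.ES.St.N3a
import Pool.Agent.Helper1.ES.St.N3b

/-!
ES-N3c.  Group by `(u,k)` (`box_count` with `U = 2^i`, `K = 2^j` bounds the number of pairs); for each pair
the primes `l` satisfy `a u k ∣ l s + 1` with `a u k ≤ 2^{5n}`, so `prime_recip` bounds `∑ 1/l` by
`psi C n / (a u k) ≤ psi C n / (a 2^i 2^j)`.  (`w` is determined by `(u,k,l)` once `w.s = s`.)
-/

set_option autoImplicit false

namespace Pool.Agent.Helper1.ES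

open Finset

theorem T_fixed : ∃ C n₀ : ℕ, 1 ≤ C ∧ ∀ n : ℕ, n₀ ≤ n → ∀ a : ℕ, 1 ≤ a → a ≤ 2 ^ n →
    ∀ z b i j s : ℕ, n ≤ i → i < 2 * n → n ≤ j → j < 2 * n → 1 ≤ s →
    ∑ w ∈ (Om a n z).filter (fun w => SatS b w ∧ w.s = s ∧ (2 ^ i < w.u ∧ w.u ≤ 2 ^ (i + 1)) ∧
      (2 ^ j < w.k ∧ w.k ≤ 2 ^ (j + 1))), 1 / (w.l : ℝ) ≤
      (1 + 6 * 2 ^ i * 2 ^ j / (s : ℝ)) * (psi C n / (a * 2 ^ i * 2 ^ j)) := by
  obtain ⟨C, n₀, hC, hmain⟩ := prime_recip
  refine ⟨C, n₀, hC, ?_⟩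
  intro n hn a ha1 ha2 z b i j s hi1 hi2 hj1 hj2 hs
  set F := (Om a n z).filter (fun w => SatS b w ∧ w.s = s ∧ (2 ^ i < w.u ∧ w.u ≤ 2 ^ (i + 1)) ∧
      (2 ^ j < w.k ∧ w.k ≤ 2 ^ (j + 1))) with hF
  set B := (((Ioc (2 ^ i) (2 * 2 ^ i)) ×ˢ (Ioc (2 ^ j) (2 * 2 ^ j))).filter
      (fun q : ℕ × ℕ => Nat.Coprime q.1 q.2 ∧ s ∣ q.2 * b + q.1)) with hB
  have hFmem : ∀ w ∈ F, w ∈ Om a n z ∧ SatS b w ∧ w.s = s ∧ (2 ^ i < w.u ∧ w.u ≤ 2 ^ (i + 1)) ∧
      (2 ^ j < w.k ∧ w.k ≤ 2 ^ (j + 1)) := by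
    intro w hw
    rw [hF, mem_filter] at hw
    exact hw
  have hmaps : ∀ w ∈ F, (fun w : Tr => (w.u, w.k)) w ∈ B := by
    intro w hw
    obtain ⟨h1, h2, h3, h4, h5⟩ := hFmem w hw
    obtain ⟨-, -, -, -, hcop, -, -, -, -⟩ := mem_Om.1 h1
    rw [hB, mem_filter, mem_product, mem_Ioc, mem_Ioc]
    have e1 : 2 * 2 ^ i = 2 ^ (i + 1) := by rw [pow_succ]; ring
    have e2 : 2 * 2 ^ j = 2 ^ (j + 1) := by rw [pow_succ]; ring
    rw [e1, e2]
    refine ⟨⟨h4, h5⟩, hcop, ?_⟩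
    unfold SatS at h2
    rw [h3] at h2
    exact h2
  have hpsi : 0 ≤ psi C n := by
    unfold psi
    have : (0 : ℝ) ≤ Real.log (1 + n) := Real.log_nonneg (by
      have : (0 : ℝ) ≤ n := Nat.cast_nonneg n
      linarith)
    positivity
  have har : (0 : ℝ) < a := by exact_mod_cast ha1
  rw [← Finset.sum_fiberwise_of_maps_to hmaps]
  have hq : ∀ q ∈ B, ∑ w ∈ F.filter (fun w : Tr => (w.u, w.k) = q), 1 / (w.l : ℝ) ≤
      psi C n / (a * 2 ^ i * 2 ^ j) := by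
    intro q hq
    rw [hB, mem_filter, mem_product, mem_Ioc, mem_Ioc] at hq
    obtain ⟨⟨⟨a1, a2⟩, a3, a4⟩, -, -⟩ := hq
    have e1 : 2 * 2 ^ i = 2 ^ (i + 1) := by rw [pow_succ]; ring
    have e2 : 2 * 2 ^ j = 2 ^ (j + 1) := by rw [pow_succ]; ring
    rw [e1] at a2
    rw [e2] at a4
    have hu0 : 1 ≤ q.1 := Nat.one_le_iff_ne_zero.2 (by
      intro h0
      rw [h0] at a1
      exact Nat.not_lt_zero _ a1)
    have hk0 : 1 ≤ q.2 := Nat.one_le_iff_ne_zero.2 (by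
      intro h0
      rw [h0] at a3
      exact Nat.not_lt_zero _ a3)
    have hm1 : 1 ≤ a * q.1 * q.2 := Nat.mul_pos (Nat.mul_pos ha1 hu0) hk0
    have hm2 : a * q.1 * q.2 ≤ 2 ^ (5 * n) := by
      have b1 : q.1 ≤ 2 ^ (2 * n) := a2.trans (Nat.pow_le_pow_right (by norm_num) hi2)
      have b2 : q.2 ≤ 2 ^ (2 * n) := a4.trans (Nat.pow_le_pow_right (by norm_num) hj2)
      calc a * q.1 * q.2 ≤ 2 ^ n * 2 ^ (2 * n) * 2 ^ (2 * n) :=
            Nat.mul_le_mul (Nat.mul_le_mul ha2 b1) b2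
        _ = 2 ^ (5 * n) := by
            rw [← pow_add, ← pow_add]
            congr 1
            ring
    have h1 := hmain n hn (a * q.1 * q.2) s hm1 hm2
    have h2 : ∑ w ∈ F.filter (fun w : Tr => (w.u, w.k) = q), 1 / (w.l : ℝ) ≤
        ∑ l ∈ (Ioc (2 ^ (35 * n)) (2 ^ (80 * n))).filter
          (fun l => l.Prime ∧ a * q.1 * q.2 ∣ l * s + 1), 1 / (l : ℝ) := by
      have hinj : Set.InjOn Tr.l (F.filter (fun w : Tr => (w.u, w.k) = q) : Set Tr) := by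
        intro w hw w' hw' hl
        have hw1 : w ∈ F.filter (fun w : Tr => (w.u, w.k) = q) := hw
        have hw1' : w' ∈ F.filter (fun w : Tr => (w.u, w.k) = q) := hw'
        rw [mem_filter] at hw1 hw1'
        obtain ⟨-, -, s1, -, -⟩ := hFmem w hw1.1
        obtain ⟨-, -, s2, -, -⟩ := hFmem w' hw1'.1
        have c1 := hw1.2
        have c2 := hw1'.2
        rw [Prod.ext_iff] at c1 c2
        obtain ⟨u, k, l, t⟩ := w
        obtain ⟨u', k', l', t'⟩ := w'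
        simp only at *
        rw [c1.1, c1.2, c2.1, c2.2, s1, s2, hl]
      have himg : ∑ w ∈ F.filter (fun w : Tr => (w.u, w.k) = q), 1 / (w.l : ℝ) =
          ∑ l ∈ (F.filter (fun w : Tr => (w.u, w.k) = q)).image Tr.l, 1 / (l : ℝ) := by
        rw [Finset.sum_image hinj]
      rw [himg]
      apply Finset.sum_le_sum_of_subset_of_nonneg
      · intro l hl
        rw [mem_image] at hl
        obtain ⟨w, hw, rfl⟩ := hl
        rw [mem_filter] at hw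
        obtain ⟨hwO, -, s1, -, -⟩ := hFmem w hw.1
        obtain ⟨-, -, hl1, -, -, hpr, -, hdv, -⟩ := mem_Om.1 hwO
        rw [mem_filter, mem_Ioc]
        refine ⟨hl1, hpr, ?_⟩
        have c1 := hw.2
        rw [Prod.ext_iff] at c1
        simp only at c1
        rw [← c1.1, ← c1.2, ← s1]
        exact hdv
      · intro l _ _
        positivity
    refine h2.trans (h1.trans ?_)
    push_cast
    have c1 : (2 : ℝ) ^ i ≤ q.1 := by exact_mod_cast a1.le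
    have c2 : (2 : ℝ) ^ j ≤ q.2 := by exact_mod_cast a3.le
    apply div_le_div_of_nonneg_left hpsi (by positivity)
    exact mul_le_mul (mul_le_mul_of_nonneg_left c1 har.le) c2 (by positivity) (by positivity)
  refine (Finset.sum_le_sum hq).trans ?_
  rw [Finset.sum_const, nsmul_eq_mul]
  apply mul_le_mul_of_nonneg_right _ (by positivity)
  have h3 := box_count s b (2 ^ i) (2 ^ j) hs Nat.one_le_two_pow Nat.one_le_two_pow
  rw [← hB] at h3
  push_cast at h3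
  exact h3

end Pool.Agent.Helper1.ES
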