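import Pool.Agent.Helper1.ES.Defs
import Pool.Agent.Helper1.ES.St.N3c

/-!
ES-N3.  Group the data by the boxes `2^i < u ≤ 2^{i+1}`, `2^j < k ≤ 2^{j+1}`, `n ≤ i, j < 2 n` (`n^2` boxes), and by
`s`; in a box `s < a u k ≤ 4 a 2^i 2^j =: B ≤ 2^{6n}`, so by `T_fixed` the box contributes at most
`∑_{s ≤ B} (1 + 6·2^i 2^j/s) psi/(a 2^i 2^j) ≤ psi (4 + 6 (1 + log B)) ≤ 100 n psi`.
For `Tp` only multiples `s = p s'` occur, `s' ≤ B/p`:
`∑ (1 + 6·2^i 2^j/(p s')) psi/(a 2^i 2^j) ≤ (4 + 6 (1+log B)) psi / p`.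
Do it once for a general `p ≥ 1` (`p = 1` gives `T`).  `psi C n = C (1 + log(1+n))^C` is increasing in `C`.
-/

set_option autoImplicit false

namespace Pool.Agent.Helper1.ES

open Finset

private theorem n3_mult (p B : ℕ) (hp : 1 ≤ p) (hB : 1 ≤ B) :
    (((Icc 1 B).filter (fun s => p ∣ s)).card : ℝ) ≤ (B : ℝ) / p ∧
      ∑ s ∈ (Icc 1 B).filter (fun s => p ∣ s), 1 / (s : ℝ) ≤ (1 + Real.log B) / p := by
  have hp0 : (0 : ℝ) < p := by exact_mod_cast hp
  have him : (Icc 1 B).filter (fun s => p ∣ s) = (Icc 1 (B / p)).image (fun t => p * t) := by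
    ext s
    simp only [mem_filter, mem_Icc, mem_image]
    constructor
    · rintro ⟨⟨h1, h2⟩, t, rfl⟩
      refine ⟨t, ⟨?_, ?_⟩, rfl⟩
      · rcases Nat.eq_zero_or_pos t with h | h
        · subst h; simp at h1
        · exact h
      · rw [Nat.le_div_iff_mul_le (by omega)]
        rw [mul_comm]; exact h2
    · rintro ⟨t, ⟨h1, h2⟩, rfl⟩
      rw [Nat.le_div_iff_mul_le (by omega)] at h2
      refine ⟨⟨?_, ?_⟩, Dvd.intro _ rfl⟩
      · exact Nat.one_le_iff_ne_zero.2 (Nat.mul_ne_zero (by omega) (by omega))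
      · rw [mul_comm]; exact h2
  have hinj : Function.Injective (fun t : ℕ => p * t) := by
    intro x y hxy
    exact Nat.eq_of_mul_eq_mul_left (by omega) hxy
  constructor
  · rw [him, card_image_of_injective _ hinj, Nat.card_Icc, Nat.add_sub_cancel]
    exact Nat.cast_div_le
  · rw [him, sum_image (fun x _ y _ h => hinj h)]
    have h1 : ∑ t ∈ Icc 1 (B / p), 1 / ((p * t : ℕ) : ℝ) =
        (1 / (p : ℝ)) * ∑ t ∈ Icc 1 (B / p), ((t : ℝ))⁻¹ := by
      rw [mul_sum]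
      apply sum_congr rfl
      intro t _
      push_cast
      rw [one_div, mul_inv, one_div]
    have h2 : ∑ t ∈ Icc 1 (B / p), ((t : ℝ))⁻¹ ≤ 1 + Real.log B := by
      have h3 := harmonic_le_one_add_log (B / p)
      rw [harmonic_eq_sum_Icc] at h3
      push_cast at h3
      refine h3.trans ?_
      have h4 : Real.log ((B / p : ℕ) : ℝ) ≤ Real.log B := by
        rcases Nat.eq_zero_or_pos (B / p) with h | h
        · rw [h, Nat.cast_zero, Real.log_zero]
          exact Real.log_nonneg (by exact_mod_cast hB)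
        · apply Real.log_le_log (by exact_mod_cast h)
          exact_mod_cast Nat.div_le_self B p
      linarith
    change ∑ t ∈ Icc 1 (B / p), 1 / ((p * t : ℕ) : ℝ) ≤ _
    rw [h1, div_eq_mul_one_div (1 + Real.log (B : ℝ)) (p : ℝ), mul_comm]
    exact mul_le_mul_of_nonneg_right h2 (by positivity)

private theorem n3_log (u n : ℕ) (h1 : 2 ^ n < u) (h2 : u ≤ 2 ^ (2 * n)) :
    n ≤ Nat.log 2 (u - 1) ∧ Nat.log 2 (u - 1) < 2 * n ∧ 2 ^ Nat.log 2 (u - 1) < u ∧
      u ≤ 2 ^ (Nat.log 2 (u - 1) + 1) := by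
  have h3 : 2 ^ n ≤ u - 1 := by omega
  have h4 : u - 1 ≠ 0 := by
    have := Nat.one_le_two_pow (n := n)
    omega
  have h5 := Nat.pow_log_le_self 2 h4
  have h6 := Nat.lt_pow_succ_log_self (b := 2) (by norm_num) (u - 1)
  refine ⟨Nat.le_log_of_pow_le (by norm_num) h3, ?_, by omega, by
    simp only [Nat.succ_eq_add_one] at h6; omega⟩
  apply Nat.log_lt_of_lt_pow h4
  omega

theorem T_bound : ∃ C n₀ : ℕ, 1 ≤ C ∧ ∀ n : ℕ, n₀ ≤ n → ∀ a : ℕ, 1 ≤ a → a ≤ 2 ^ n → ∀ z b : ℕ,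
    T (Om a n z) b ≤ (n : ℝ) ^ 3 * psi C n ∧
    ∀ p : ℕ, p.Prime → Tp (Om a n z) p b ≤ (n : ℝ) ^ 3 * psi C n / p := by
  obtain ⟨C, n₀, hC, hT⟩ := T_fixed
  refine ⟨40 * C, max n₀ 1, by omega, fun n hn a ha han z b => ?_⟩
  have hn0 : n₀ ≤ n := le_trans (le_max_left _ _) hn
  have hn1 : 1 ≤ n := le_trans (le_max_right _ _) hn
  have hn1R : (1 : ℝ) ≤ n := by exact_mod_cast hn1
  have hlog : 0 ≤ Real.log (1 + n) := Real.log_nonneg (by linarith)
  have hpsi0 : 0 ≤ psi C n := by unfold psi; positivity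
  have hpsi : 40 * psi C n ≤ psi (40 * C) n := by
    unfold psi
    have h1 : (1 + Real.log (1 + (n : ℝ))) ^ C ≤ (1 + Real.log (1 + (n : ℝ))) ^ (40 * C) :=
      pow_le_pow_right₀ (by linarith) (by omega)
    push_cast
    have h2 : (0 : ℝ) ≤ 40 * C := by positivity
    calc 40 * ((C : ℝ) * (1 + Real.log (1 + (n : ℝ))) ^ C)
        = (40 * C) * (1 + Real.log (1 + (n : ℝ))) ^ C := by ring
      _ ≤ (40 * C) * (1 + Real.log (1 + (n : ℝ))) ^ (40 * C) := mul_le_mul_of_nonneg_left h1 h2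
  have key : ∀ p : ℕ, 1 ≤ p → ∑ w ∈ (Om a n z).filter (fun w => SatS b w ∧ p ∣ w.s),
      1 / (w.l : ℝ) ≤ (n : ℝ) ^ 3 * psi (40 * C) n / p := by
    intro p hp
    have hp0 : (0 : ℝ) < p := by exact_mod_cast hp
    set F := (Om a n z).filter (fun w => SatS b w ∧ p ∣ w.s) with hF
    have hmaps : ∀ w ∈ F, (Nat.log 2 (w.u - 1), Nat.log 2 (w.k - 1)) ∈
        (Ico n (2 * n)) ×ˢ (Ico n (2 * n)) := by
      intro w hw
      rw [hF, mem_filter, mem_Om] at hw
      obtain ⟨⟨⟨u1, u2⟩, ⟨k1, k2⟩, -⟩, -⟩ := hw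
      obtain ⟨a1, a2, -⟩ := n3_log w.u n u1 u2
      obtain ⟨b1, b2, -⟩ := n3_log w.k n k1 k2
      simp only [mem_product, mem_Ico]
      exact ⟨⟨a1, a2⟩, b1, b2⟩
    rw [← sum_fiberwise_of_maps_to hmaps]
    have hbox : ∀ ij ∈ (Ico n (2 * n)) ×ˢ (Ico n (2 * n)),
        ∑ w ∈ F.filter (fun w => (Nat.log 2 (w.u - 1), Nat.log 2 (w.k - 1)) = ij),
          1 / (w.l : ℝ) ≤ 40 * n * psi C n / p := by
      rintro ⟨i, j⟩ hij
      simp only [mem_product, mem_Ico] at hij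
      obtain ⟨⟨i1, i2⟩, j1, j2⟩ := hij
      set B := 4 * a * 2 ^ i * 2 ^ j with hB
      have hB1 : 1 ≤ B := by
        rw [hB]
        exact Nat.one_le_iff_ne_zero.2 (by positivity)
      have hmaps2 : ∀ w ∈ F.filter (fun w => (Nat.log 2 (w.u - 1), Nat.log 2 (w.k - 1)) = (i, j)),
          w.s ∈ (Icc 1 B).filter (fun s => p ∣ s) := by
        intro w hw
        rw [mem_filter, hF, mem_filter, mem_Om] at hw
        obtain ⟨⟨⟨⟨u1, u2⟩, ⟨k1, k2⟩, -, ⟨s1, -⟩, -, -, s2, -⟩, -, hd⟩, he⟩ := hw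
        simp only [Prod.mk.injEq] at he
        obtain ⟨-, -, -, a4⟩ := n3_log w.u n u1 u2
        obtain ⟨-, -, -, b4⟩ := n3_log w.k n k1 k2
        rw [he.1] at a4
        rw [he.2] at b4
        simp only [mem_filter, mem_Icc]
        refine ⟨⟨s1, ?_⟩, hd⟩
        have h5 : w.u * w.k ≤ 2 ^ (i + 1) * 2 ^ (j + 1) := Nat.mul_le_mul a4 b4
        have h6 : a * w.u * w.k ≤ B := by
          calc a * w.u * w.k = a * (w.u * w.k) := by ring
            _ ≤ a * (2 ^ (i + 1) * 2 ^ (j + 1)) := Nat.mul_le_mul_left a h5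
            _ = B := by rw [hB, pow_succ, pow_succ]; ring
        omega
      rw [← sum_fiberwise_of_maps_to hmaps2]
      have hs : ∀ s ∈ (Icc 1 B).filter (fun s => p ∣ s),
          ∑ w ∈ (F.filter (fun w => (Nat.log 2 (w.u - 1), Nat.log 2 (w.k - 1)) = (i, j))).filter
            (fun w => w.s = s), 1 / (w.l : ℝ) ≤
          (1 + 6 * 2 ^ i * 2 ^ j / (s : ℝ)) * (psi C n / (a * 2 ^ i * 2 ^ j)) := by
        intro s hs
        simp only [mem_filter, mem_Icc] at hs
        refine le_trans ?_ (hT n hn0 a ha han z b i j s i1 i2 j1 j2 hs.1.1)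
        apply sum_le_sum_of_subset_of_nonneg
        · intro w hw
          rw [mem_filter, mem_filter, hF, mem_filter] at hw
          obtain ⟨⟨⟨hw1, hw2, -⟩, he⟩, hws⟩ := hw
          rw [mem_filter]
          refine ⟨hw1, hw2, hws, ?_⟩
          rw [mem_Om] at hw1
          obtain ⟨⟨u1, u2⟩, ⟨k1, k2⟩, -⟩ := hw1
          simp only [Prod.mk.injEq] at he
          obtain ⟨-, -, a3, a4⟩ := n3_log w.u n u1 u2
          obtain ⟨-, -, b3, b4⟩ := n3_log w.k n k1 k2
          rw [he.1] at a3 a4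
          rw [he.2] at b3 b4
          exact ⟨⟨a3, a4⟩, b3, b4⟩
        · intro w _ _
          positivity
      refine (sum_le_sum hs).trans ?_
      obtain ⟨m1, m2⟩ := n3_mult p B hp hB1
      have haR : (1 : ℝ) ≤ a := by exact_mod_cast ha
      have hP : (0 : ℝ) < 2 ^ i * 2 ^ j := by positivity
      have hlogB : Real.log B ≤ 5 * n := by
        have h1 : B ≤ 2 ^ (5 * n + 2) := by
          have q1 : 2 ^ i ≤ 2 ^ (2 * n) := Nat.pow_le_pow_right (by norm_num) i2.le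
          have q2 : 2 ^ j ≤ 2 ^ (2 * n) := Nat.pow_le_pow_right (by norm_num) j2.le
          calc B = 4 * (a * (2 ^ i * 2 ^ j)) := by rw [hB]; ring
            _ ≤ 4 * (2 ^ n * (2 ^ (2 * n) * 2 ^ (2 * n))) :=
              Nat.mul_le_mul_left 4 (Nat.mul_le_mul han (Nat.mul_le_mul q1 q2))
            _ = 2 ^ (5 * n + 2) := by
              rw [show 5 * n + 2 = 2 + (n + (2 * n + 2 * n)) by ring, pow_add, pow_add, pow_add]
              norm_num
        have h2 : Real.log B ≤ Real.log ((2 : ℝ) ^ (5 * n + 2)) := by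
          apply Real.log_le_log (by exact_mod_cast hB1)
          exact_mod_cast h1
        rw [Real.log_pow] at h2
        have h3 := Real.log_two_lt_d9
        have h4 : Real.log 2 < 0.7 := by linarith
        push_cast at h2
        have h5 : (5 * (n : ℝ) + 2) * Real.log 2 ≤ (5 * (n : ℝ) + 2) * 0.7 :=
          mul_le_mul_of_nonneg_left h4.le (by positivity)
        linarith
      have hsum : ∑ s ∈ (Icc 1 B).filter (fun s => p ∣ s),
          (1 + 6 * 2 ^ i * 2 ^ j / (s : ℝ)) * (psi C n / (a * 2 ^ i * 2 ^ j)) =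
          ((((Icc 1 B).filter (fun s => p ∣ s)).card : ℝ) + 6 * (2 ^ i * 2 ^ j) *
            ∑ s ∈ (Icc 1 B).filter (fun s => p ∣ s), 1 / (s : ℝ)) *
            (psi C n / (a * (2 ^ i * 2 ^ j))) := by
        rw [← sum_mul, sum_add_distrib, sum_const, nsmul_eq_mul, mul_one, mul_sum]
        congr 1
        · congr 1
          apply sum_congr rfl
          intro s _
          ring
        · congr 1
          ring
      rw [hsum]
      have hB' : (B : ℝ) = 4 * a * (2 ^ i * 2 ^ j) := by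
        rw [hB]; push_cast; ring
      have hfac : (((Icc 1 B).filter (fun s => p ∣ s)).card : ℝ) + 6 * (2 ^ i * 2 ^ j) *
            ∑ s ∈ (Icc 1 B).filter (fun s => p ∣ s), 1 / (s : ℝ) ≤
          (a * (2 ^ i * 2 ^ j)) * (40 * n) / p := by
        have e1 : ∑ s ∈ (Icc 1 B).filter (fun s => p ∣ s), 1 / (s : ℝ) ≤ (1 + 5 * n) / p :=
          m2.trans (div_le_div_of_nonneg_right (by linarith) hp0.le)
        have e2 : 6 * (2 ^ i * 2 ^ j : ℝ) * ∑ s ∈ (Icc 1 B).filter (fun s => p ∣ s), 1 / (s : ℝ) ≤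
            6 * (2 ^ i * 2 ^ j) * ((1 + 5 * n) / p) := mul_le_mul_of_nonneg_left e1 (by positivity)
        have e3 : (4 * a * (2 ^ i * 2 ^ j) : ℝ) + 6 * (2 ^ i * 2 ^ j) * (1 + 5 * n) ≤
            (a * (2 ^ i * 2 ^ j)) * (40 * n) := by
          have g1 : (4 * a : ℝ) + 6 * (1 + 5 * n) ≤ a * (40 * n) := by nlinarith
          nlinarith
        calc _ ≤ (4 * a * (2 ^ i * 2 ^ j) : ℝ) / p + 6 * (2 ^ i * 2 ^ j) * ((1 + 5 * n) / p) := by
              rw [hB'] at m1
              exact add_le_add m1 e2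
          _ = ((4 * a * (2 ^ i * 2 ^ j) : ℝ) + 6 * (2 ^ i * 2 ^ j) * (1 + 5 * n)) / p := by ring
          _ ≤ (a * (2 ^ i * 2 ^ j)) * (40 * n) / p := div_le_div_of_nonneg_right e3 hp0.le
      have hq : 0 ≤ psi C n / (a * (2 ^ i * 2 ^ j)) := by positivity
      refine (mul_le_mul_of_nonneg_right hfac hq).trans (le_of_eq ?_)
      have ha0 : (a : ℝ) ≠ 0 := by positivity
      have hP0 : (2 ^ i * 2 ^ j : ℝ) ≠ 0 := hP.ne'
      field_simp
    refine (sum_le_sum hbox).trans ?_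
    rw [sum_const, card_product, Nat.card_Ico, nsmul_eq_mul]
    have hc : ((2 * n - n) * (2 * n - n) : ℕ) = n * n := by
      rw [show 2 * n - n = n by omega]
    rw [hc]
    push_cast
    calc (n : ℝ) * n * (40 * n * psi C n / p) = (n : ℝ) ^ 3 * (40 * psi C n) / p := by ring
      _ ≤ (n : ℝ) ^ 3 * psi (40 * C) n / p := by
          apply div_le_div_of_nonneg_right _ hp0.le
          exact mul_le_mul_of_nonneg_left hpsi (by positivity)
  constructor
  · have h1 := key 1 le_rfl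
    simp only [one_dvd, and_true, Nat.cast_one, div_one] at h1
    exact h1
  · intro p hp
    exact key p hp.one_lt.le

end Pool.Agent.Helper1.ES
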