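import Pool.Agent.Helper1.ES.Defs

/-!
ES-N4c.  All pairs: `(∑_{2^n < u ≤ 2^{2n}} 1/u)^2 ≥ (n log 2 - 1)^2`.  Non-coprime pairs have a common divisor
`d ≥ 2`: `≤ ∑_{d=2}^{4^n} (1/d^2) (∑_{2^n/d < u' ≤ 4^n/d} 1/u')^2 ≤ (π²/6 - 1)(n log 2 + 1)^2` and
`π²/6 - 1 < 0.65` (or use only prime `d`: `∑ 1/p^2 < 0.46`; the elementary `∑_{d=2}^∞ 1/d^2 ≤ 1/4 + 1/9 + 1/3 <
0.695` is also enough: `0.305 · 0.4804 > 0.14 > 0.05`).  Inner sum: `≤ log 4^n - log 2^n + 1` in all cases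
(if `2^n/d ≥ 1`: `∑_{A < u ≤ B} 1/u ≤ log (B/⌊A⌋) ≤ log(B/A) + log 2`; if `2^n < d`: `≤ 1 + log(4^n/d) ≤ 1 + n log 2`).
An alternative: restrict to `u` odd and `k` a power-of-two multiple ... or any other way; only `n^2/20` is needed.
-/

set_option autoImplicit false

namespace Pool.Agent.Helper1.ES

open Finset

private theorem n4c_dvd (A B d : ℕ) (hd : 0 < d) :
    ∑ u ∈ (Ioc A B).filter (fun u => d ∣ u), 1 / (u : ℝ) =
      1 / (d : ℝ) * ∑ k ∈ Ioc (A / d) (B / d), 1 / (k : ℝ) := by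
  rw [Finset.mul_sum]
  refine Finset.sum_nbij' (fun u => u / d) (fun k => d * k) ?_ ?_ ?_ ?_ ?_
  · intro u hu
    rw [Finset.mem_filter, Finset.mem_Ioc] at hu
    obtain ⟨⟨h1, h2⟩, k, rfl⟩ := hu
    rw [Finset.mem_Ioc, Nat.mul_div_cancel_left k hd]
    exact ⟨(Nat.div_lt_iff_lt_mul hd).2 (by rwa [mul_comm]),
      (Nat.le_div_iff_mul_le hd).2 (by rwa [mul_comm])⟩
  · intro k hk
    rw [Finset.mem_Ioc] at hk
    rw [Finset.mem_filter, Finset.mem_Ioc]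
    refine ⟨⟨?_, ?_⟩, Dvd.intro k rfl⟩
    · have := (Nat.div_lt_iff_lt_mul hd).1 hk.1
      rwa [mul_comm]
    · have := (Nat.le_div_iff_mul_le hd).1 hk.2
      rwa [mul_comm]
  · intro u hu
    rw [Finset.mem_filter] at hu
    exact Nat.mul_div_cancel' hu.2
  · intro k _
    exact Nat.mul_div_cancel_left k hd
  · intro u hu
    rw [Finset.mem_filter] at hu
    obtain ⟨-, k, rfl⟩ := hu
    rw [Nat.mul_div_cancel_left k hd, Nat.cast_mul, one_div_mul_one_div]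

private theorem n4c_harm (n : ℕ) : ((harmonic n : ℚ) : ℝ) = ∑ k ∈ Ioc 0 n, 1 / (k : ℝ) := by
  rw [harmonic_eq_sum_Icc]
  push_cast
  refine Finset.sum_congr ?_ fun k _ => (one_div _).symm
  ext k
  rw [Finset.mem_Icc, Finset.mem_Ioc]
  omega

private theorem n4c_Ioc (a b : ℕ) (hab : a ≤ b) :
    ∑ k ∈ Ioc a b, 1 / (k : ℝ) = ((harmonic b : ℚ) : ℝ) - ((harmonic a : ℚ) : ℝ) := by
  rw [n4c_harm, n4c_harm, ← Finset.sum_Ioc_consecutive (fun k : ℕ => 1 / (k : ℝ)) (Nat.zero_le a) hab]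
  ring

private theorem n4c_upper (n d : ℕ) (hd : 0 < d) :
    ∑ u ∈ (Ioc (2 ^ n) (2 ^ (2 * n))).filter (fun u => d ∣ u), 1 / (u : ℝ) ≤
      1 / (d : ℝ) * (n * Real.log 2 + 1) := by
  rw [n4c_dvd _ _ d hd]
  apply mul_le_mul_of_nonneg_left _ (by positivity)
  have hlog2 : 0 ≤ Real.log 2 := Real.log_nonneg (by norm_num)
  rcases Nat.eq_zero_or_pos (2 ^ (2 * n) / d) with h0 | h0
  · rw [h0, Finset.Ioc_eq_empty_of_le (Nat.zero_le _), Finset.sum_empty]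
    positivity
  have hle : 2 ^ n / d ≤ 2 ^ (2 * n) / d :=
    Nat.div_le_div_right (Nat.pow_le_pow_right (by norm_num) (by omega))
  rw [n4c_Ioc _ _ hle]
  have h1 := harmonic_le_one_add_log (2 ^ (2 * n) / d)
  have h2 := log_add_one_le_harmonic (2 ^ n / d)
  have hdR : (0 : ℝ) < d := by exact_mod_cast hd
  have h3 : Real.log ((2 ^ (2 * n) / d : ℕ) : ℝ) ≤ Real.log ((2 : ℝ) ^ (2 * n) / d) := by
    apply Real.log_le_log (by exact_mod_cast h0)
    have := Nat.cast_div_le (α := ℝ) (m := 2 ^ (2 * n)) (n := d)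
    push_cast at this
    exact this
  have h4 : Real.log ((2 : ℝ) ^ n / d) ≤ Real.log (((2 ^ n / d : ℕ) : ℝ) + 1) := by
    apply Real.log_le_log (by positivity)
    have := Nat.lt_div_mul_add hd (a := 2 ^ n)
    rw [div_le_iff₀ hdR]
    have h5 : ((2 ^ n : ℕ) : ℝ) ≤ ((2 ^ n / d * d + d : ℕ) : ℝ) := by exact_mod_cast this.le
    push_cast at h5
    linarith
  have h6 : Real.log ((2 : ℝ) ^ (2 * n) / d) = 2 * n * Real.log 2 - Real.log d := by
    rw [Real.log_div (by positivity) hdR.ne', Real.log_pow]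
    push_cast
    ring
  have h7 : Real.log ((2 : ℝ) ^ n / d) = n * Real.log 2 - Real.log d := by
    rw [Real.log_div (by positivity) hdR.ne', Real.log_pow]
  push_cast at h2
  linarith

private theorem n4c_lower (n : ℕ) :
    (n : ℝ) * Real.log 2 - 1 ≤ ∑ u ∈ (Ioc (2 ^ n) (2 ^ (2 * n)) : Finset ℕ), 1 / (u : ℝ) := by
  have hle : 2 ^ n ≤ 2 ^ (2 * n) := Nat.pow_le_pow_right (by norm_num) (by omega)
  rw [n4c_Ioc _ _ hle]
  have h1 := harmonic_le_one_add_log (2 ^ n)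
  have h2 := log_add_one_le_harmonic (2 ^ (2 * n))
  have h3 : Real.log ((2 : ℝ) ^ (2 * n)) ≤ Real.log (((2 : ℝ) ^ (2 * n)) + 1) :=
    Real.log_le_log (by positivity) (by linarith)
  have h4 : Real.log ((2 : ℝ) ^ (2 * n)) = 2 * n * Real.log 2 := by
    rw [Real.log_pow]
    push_cast
    ring
  have h5 : Real.log ((2 : ℝ) ^ n) = n * Real.log 2 := Real.log_pow _ _
  push_cast at h1 h2
  linarith

private theorem n4c_sq (M : ℕ) (hM : 3 ≤ M) :
    ∑ d ∈ (Icc 2 M : Finset ℕ), 1 / (d : ℝ) ^ 2 ≤ 25 / 36 - 1 / (M : ℝ) := by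
  induction M, hM using Nat.le_induction with
  | base =>
    have h : Icc 2 3 = ({2, 3} : Finset ℕ) := by decide
    rw [h, Finset.sum_insert (by decide), Finset.sum_singleton]
    norm_num
  | succ M hM ih =>
    rw [Finset.sum_Icc_succ_top (by omega)]
    have hMR : (3 : ℝ) ≤ M := by exact_mod_cast hM
    have h1 : 1 / (((M + 1 : ℕ) : ℝ)) ^ 2 ≤ 1 / (M : ℝ) - 1 / ((M + 1 : ℕ) : ℝ) := by
      push_cast
      rw [div_sub_div _ _ (by positivity) (by positivity), div_le_div_iff₀ (by positivity)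
        (by positivity)]
      nlinarith
    linarith

private theorem n4c_prod (I : Finset ℕ) (f g : ℕ → ℝ) :
    ∑ q ∈ I ×ˢ I, f q.1 * g q.2 = (∑ x ∈ I, f x) * ∑ y ∈ I, g y := by
  rw [Finset.sum_mul_sum, Finset.sum_product]

theorem pairs_sum : ∃ n₀ : ℕ, ∀ n : ℕ, n₀ ≤ n → (n : ℝ) ^ 2 / 20 ≤
    ∑ q ∈ ((Ioc (2 ^ n) (2 ^ (2 * n))) ×ˢ (Ioc (2 ^ n) (2 ^ (2 * n)))).filter
      (fun q : ℕ × ℕ => Nat.Coprime q.1 q.2), 1 / ((q.1 : ℝ) * q.2) := by
  refine ⟨30, fun n hn => ?_⟩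
  set I := Ioc (2 ^ n) (2 ^ (2 * n)) with hI
  have hnR : (30 : ℝ) ≤ n := by exact_mod_cast hn
  have hL1 : (0.69 : ℝ) ≤ Real.log 2 := by
    have := Real.log_two_gt_d9
    linarith
  have hL2 : Real.log 2 ≤ (0.7 : ℝ) := by
    have := Real.log_two_lt_d9
    linarith
  have hmul : ∀ q : ℕ × ℕ, 1 / ((q.1 : ℝ) * q.2) = 1 / (q.1 : ℝ) * (1 / (q.2 : ℝ)) := by
    intro q
    rw [one_div_mul_one_div]
  -- total
  have htot : (n * Real.log 2 - 1) ^ 2 ≤ ∑ q ∈ I ×ˢ I, 1 / ((q.1 : ℝ) * q.2) := by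
    rw [Finset.sum_congr rfl fun q _ => hmul q,
      n4c_prod I (fun u => 1 / (u : ℝ)) (fun u => 1 / (u : ℝ)), sq]
    have h1 := n4c_lower n
    have h0 : 0 ≤ n * Real.log 2 - 1 := by nlinarith
    exact mul_le_mul h1 h1 h0 (h0.trans h1)
  -- non-coprime pairs
  have hnon : ∑ q ∈ (I ×ˢ I).filter (fun q : ℕ × ℕ => ¬ Nat.Coprime q.1 q.2),
      1 / ((q.1 : ℝ) * q.2) ≤ 25 / 36 * (n * Real.log 2 + 1) ^ 2 := by
    have h1 : ∑ q ∈ (I ×ˢ I).filter (fun q : ℕ × ℕ => ¬ Nat.Coprime q.1 q.2),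
        1 / ((q.1 : ℝ) * q.2) ≤ ∑ q ∈ I ×ˢ I, ∑ d ∈ Icc 2 (2 ^ (2 * n)),
          (if d ∣ q.1 then 1 / (q.1 : ℝ) else 0) * (if d ∣ q.2 then 1 / (q.2 : ℝ) else 0) := by
      rw [Finset.sum_filter]
      refine Finset.sum_le_sum fun q hq => ?_
      have hnn : ∀ d ∈ Icc 2 (2 ^ (2 * n)), 0 ≤
          (if d ∣ q.1 then 1 / (q.1 : ℝ) else 0) * (if d ∣ q.2 then 1 / (q.2 : ℝ) else 0) := by
        intro d _
        apply mul_nonneg <;> split_ifs <;> positivity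
      by_cases hc : Nat.Coprime q.1 q.2
      swap
      · rw [if_pos hc]
        have hg : Nat.gcd q.1 q.2 ∈ Icc 2 (2 ^ (2 * n)) := by
          rw [Finset.mem_product, hI, Finset.mem_Ioc, Finset.mem_Ioc] at hq
          rw [Finset.mem_Icc]
          have h2n : 0 < 2 ^ n := by positivity
          have hpos : 0 < Nat.gcd q.1 q.2 := Nat.gcd_pos_of_pos_left _ (by omega)
          have hle : Nat.gcd q.1 q.2 ≤ q.1 := Nat.gcd_le_left _ (by omega)
          have hne : Nat.gcd q.1 q.2 ≠ 1 := hc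
          constructor
          · omega
          · omega
        refine le_trans (le_of_eq ?_) (Finset.single_le_sum hnn hg)
        rw [if_pos (Nat.gcd_dvd_left _ _), if_pos (Nat.gcd_dvd_right _ _), hmul]
      · rw [if_neg (not_not.2 hc)]
        exact Finset.sum_nonneg hnn
    refine h1.trans ?_
    rw [Finset.sum_comm]
    have h2 : ∀ d ∈ Icc 2 (2 ^ (2 * n)), ∑ q ∈ I ×ˢ I,
        (if d ∣ q.1 then 1 / (q.1 : ℝ) else 0) * (if d ∣ q.2 then 1 / (q.2 : ℝ) else 0) ≤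
        1 / (d : ℝ) ^ 2 * (n * Real.log 2 + 1) ^ 2 := by
      intro d hd
      rw [Finset.mem_Icc] at hd
      have hd0 : 0 < d := by omega
      rw [n4c_prod I (fun u => if d ∣ u then 1 / (u : ℝ) else 0)
        (fun u => if d ∣ u then 1 / (u : ℝ) else 0), ← Finset.sum_filter]
      have h3 := n4c_upper n d hd0
      have h4 : 0 ≤ ∑ u ∈ I.filter (fun u => d ∣ u), 1 / (u : ℝ) :=
        Finset.sum_nonneg fun u _ => by positivity
      calc (∑ u ∈ I.filter (fun u => d ∣ u), 1 / (u : ℝ)) *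
            (∑ u ∈ I.filter (fun u => d ∣ u), 1 / (u : ℝ))
          ≤ (1 / (d : ℝ) * (n * Real.log 2 + 1)) * (1 / (d : ℝ) * (n * Real.log 2 + 1)) :=
            mul_le_mul h3 h3 h4 (h4.trans h3)
        _ = 1 / (d : ℝ) ^ 2 * (n * Real.log 2 + 1) ^ 2 := by
            field_simp
    refine (Finset.sum_le_sum h2).trans ?_
    rw [← Finset.sum_mul]
    apply mul_le_mul_of_nonneg_right _ (sq_nonneg _)
    have hM : 3 ≤ 2 ^ (2 * n) := by
      have : 2 ^ 2 ≤ 2 ^ (2 * n) := Nat.pow_le_pow_right (by norm_num) (by omega)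
      omega
    have h5 := n4c_sq _ hM
    have h6 : (0 : ℝ) ≤ 1 / ((2 ^ (2 * n) : ℕ) : ℝ) := by positivity
    linarith
  have hsplit := Finset.sum_filter_add_sum_filter_not (I ×ˢ I)
    (fun q : ℕ × ℕ => Nat.Coprime q.1 q.2) (fun q => 1 / ((q.1 : ℝ) * q.2))
  have hfin : (n : ℝ) ^ 2 / 20 + 25 / 36 * (n * Real.log 2 + 1) ^ 2 ≤ (n * Real.log 2 - 1) ^ 2 := by
    obtain ⟨x, hx⟩ : ∃ x : ℝ, x = n * Real.log 2 := ⟨_, rfl⟩
    have hx1 : 0.69 * n ≤ x := by rw [hx]; nlinarith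
    have hx2 : 20 ≤ x := by linarith
    rw [← hx]
    have h7 : (n : ℝ) ^ 2 ≤ (x / 0.69) ^ 2 := by
      apply pow_le_pow_left₀ (by positivity)
      rw [le_div_iff₀ (by norm_num)]
      linarith
    nlinarith
  linarith

end Pool.Agent.Helper1.ES
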