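import Pool.Agent.Helper1.ES.Defs

/-!
ES-N4a pure Brun sieve, two-sided.  Let `P` be the set of primes `p ≤ z`, `p ∤ m`, `r = 16 (1 + Nat.log 2 z)`.
For `q ≡ c [MOD m]`, `Rough z q` iff no `p ∈ P` divides `q` (`gcd(q,m) = 1`).  With `x = #{p ∈ P : p ∣ q}`,
Bonferroni: `1[x = 0]` lies between the truncations at `r - 1` (odd) and `r` (even) of `∑ (-1)^i choose x i`
(see `bonf` in St/G1.lean for the even case; the odd case is similar: for `x = y+1` the sum is
`-choose y (r-1) ≤ 0`).  `∑_q choose x i = ∑_{A ⊆ P, |A| = i} #{q ∈ (X,X+H] : q ≡ c [MOD m], ∏A ∣ q}`, each count is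
`H / (m ∏A) + θ`, `|θ| ≤ 1` (one residue class modulo `m ∏A`).  The number of sets `A` with `|A| ≤ r` is
`≤ (|P|+1)^r ≤ (z+1)^r`.  Main term: `V m z = ∑_A (-1)^{|A|} / ∏A` over all `A ⊆ P`, and its truncations at `r - 1`
and `r` differ from `V m z` by at most `e_r := ∑_{|A| = r} 1/∏A ≤ S^r / r!` (alternating: the full sum also lies
between consecutive truncations, by the same Bonferroni inequality or by induction on `P`), where
`S = ∑_{p ∈ P} 1/p ≤ 1 + log z ≤ r/6`-ish, so `S^r / r! ≤ (e S / r)^r ≤ 2^{-r} ≤ z^{-4}`.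
-/

set_option autoImplicit false

namespace Pool.Agent.Helper1.ES

open Finset

/-- truncated inclusion-exclusion sum -/
private noncomputable def n4T (w : ℕ → ℝ) (k : ℕ) (P : Finset ℕ) : ℝ :=
  ∑ A ∈ P.powerset, if A.card ≤ k then (-1 : ℝ) ^ A.card * ∏ i ∈ A, w i else 0

/-- number of small subsets -/
private noncomputable def n4N (k : ℕ) (P : Finset ℕ) : ℝ :=
  ∑ A ∈ P.powerset, if A.card ≤ k then (1 : ℝ) else 0

private theorem n4T_zero (w : ℕ → ℝ) (P : Finset ℕ) : n4T w 0 P = 1 := by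
  unfold n4T
  rw [Finset.sum_eq_single ∅]
  · simp
  · intro A _ hA
    rw [if_neg]
    rw [Nat.le_zero, Finset.card_eq_zero]
    exact hA
  · intro h
    exact absurd (Finset.empty_mem_powerset P) h

private theorem n4T_insert (w : ℕ → ℝ) (k : ℕ) {P : Finset ℕ} {p : ℕ} (hp : p ∉ P) :
    n4T w (k + 1) (insert p P) = n4T w (k + 1) P - w p * n4T w k P := by
  unfold n4T
  rw [Finset.sum_powerset_insert hp, sub_eq_add_neg]
  congr 1
  rw [Finset.mul_sum, ← Finset.sum_neg_distrib]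
  refine Finset.sum_congr rfl fun A hA => ?_
  have hpA : p ∉ A := fun h => hp (Finset.mem_powerset.1 hA h)
  rw [Finset.card_insert_of_notMem hpA, Finset.prod_insert hpA]
  by_cases h : A.card ≤ k
  · rw [if_pos (Nat.succ_le_succ h), if_pos h, pow_succ]
    ring
  · rw [if_neg (fun h' => h (Nat.le_of_succ_le_succ h')), if_neg h]
    ring

private theorem n4N_zero (P : Finset ℕ) : n4N 0 P = 1 := by
  unfold n4N
  rw [Finset.sum_eq_single ∅]
  · simp
  · intro A _ hA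
    rw [if_neg]
    rw [Nat.le_zero, Finset.card_eq_zero]
    exact hA
  · intro h
    exact absurd (Finset.empty_mem_powerset P) h

private theorem n4N_insert (k : ℕ) {P : Finset ℕ} {p : ℕ} (hp : p ∉ P) :
    n4N (k + 1) (insert p P) = n4N (k + 1) P + n4N k P := by
  unfold n4N
  rw [Finset.sum_powerset_insert hp]
  congr 1
  refine Finset.sum_congr rfl fun A hA => ?_
  have hpA : p ∉ A := fun h => hp (Finset.mem_powerset.1 hA h)
  rw [Finset.card_insert_of_notMem hpA]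
  by_cases h : A.card ≤ k
  · rw [if_pos (Nat.succ_le_succ h), if_pos h]
  · rw [if_neg (fun h' => h (Nat.le_of_succ_le_succ h')), if_neg h]

private theorem n4N_le (P : Finset ℕ) : ∀ k : ℕ, n4N k P ≤ ((P.card : ℝ) + 1) ^ k := by
  induction P using Finset.induction_on with
  | empty =>
    intro k
    unfold n4N
    rw [Finset.powerset_empty, Finset.sum_singleton, Finset.card_empty, if_pos (Nat.zero_le k)]
    simp
  | insert p P hp ih =>
    intro k
    cases k with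
    | zero => rw [n4N_zero, pow_zero]
    | succ k =>
      rw [n4N_insert k hp, Finset.card_insert_of_notMem hp]
      have h1 := ih (k + 1)
      have h2 := ih k
      have h3 : ((P.card : ℝ) + 1) ^ k ≤ ((P.card : ℝ) + 1 + 1) ^ k :=
        pow_le_pow_left₀ (by positivity) (by linarith) k
      push_cast
      calc n4N (k + 1) P + n4N k P ≤ ((P.card : ℝ) + 1) ^ (k + 1) + ((P.card : ℝ) + 1) ^ k := by
            linarith
        _ = ((P.card : ℝ) + 1) ^ k * ((P.card : ℝ) + 1 + 1) := by ring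
        _ ≤ ((P.card : ℝ) + 1 + 1) ^ k * ((P.card : ℝ) + 1 + 1) :=
            mul_le_mul_of_nonneg_right h3 (by positivity)
        _ = ((P.card : ℝ) + 1 + 1) ^ (k + 1) := by ring

private theorem n4_prod (w : ℕ → ℝ) (P : Finset ℕ) (h : ∀ i ∈ P, 0 ≤ w i ∧ w i ≤ 1) :
    0 ≤ ∏ i ∈ P, (1 - w i) ∧ ∏ i ∈ P, (1 - w i) ≤ 1 := by
  constructor
  · exact Finset.prod_nonneg fun i hi => by linarith [(h i hi).2]
  · exact Finset.prod_le_one (fun i hi => by linarith [(h i hi).2])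
      fun i hi => by linarith [(h i hi).1]

private theorem n4_bonf (w : ℕ → ℝ) (P : Finset ℕ) : (∀ i ∈ P, 0 ≤ w i ∧ w i ≤ 1) →
    ∀ k : ℕ, 0 ≤ (-1 : ℝ) ^ k * (n4T w k P - ∏ i ∈ P, (1 - w i)) := by
  induction P using Finset.induction_on with
  | empty =>
    intro _ k
    have : n4T w k ∅ = 1 := by
      unfold n4T
      simp
    rw [this]
    simp
  | insert p P hp ih =>
    intro h k
    have hP : ∀ i ∈ P, 0 ≤ w i ∧ w i ≤ 1 := fun i hi => h i (Finset.mem_insert_of_mem hi)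
    have hp' := h p (Finset.mem_insert_self p P)
    have hpr := n4_prod w P hP
    rw [Finset.prod_insert hp]
    cases k with
    | zero =>
      rw [n4T_zero, pow_zero, one_mul]
      nlinarith
    | succ k =>
      rw [n4T_insert w k hp]
      have h1 := ih hP (k + 1)
      have h2 := ih hP k
      have h3 : (-1 : ℝ) ^ (k + 1) * (n4T w (k + 1) P - w p * n4T w k P -
          (1 - w p) * ∏ i ∈ P, (1 - w i)) =
          (-1 : ℝ) ^ (k + 1) * (n4T w (k + 1) P - ∏ i ∈ P, (1 - w i)) +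
          w p * ((-1 : ℝ) ^ k * (n4T w k P - ∏ i ∈ P, (1 - w i))) := by
        rw [pow_succ]; ring
      rw [h3]
      exact add_nonneg h1 (mul_nonneg hp'.1 h2)

/-- the last layer -/
private noncomputable def n4E (w : ℕ → ℝ) (k : ℕ) (P : Finset ℕ) : ℝ :=
  ∑ A ∈ P.powerset, if A.card = k then ∏ i ∈ A, w i else 0

private theorem n4T_succ (w : ℕ → ℝ) (k : ℕ) (P : Finset ℕ) :
    n4T w (k + 1) P = n4T w k P + (-1 : ℝ) ^ (k + 1) * n4E w (k + 1) P := by
  unfold n4T n4E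
  rw [Finset.mul_sum, ← Finset.sum_add_distrib]
  refine Finset.sum_congr rfl fun A _ => ?_
  by_cases h : A.card ≤ k
  · rw [if_pos (Nat.le_succ_of_le h), if_pos h, if_neg (by omega)]
    ring
  · by_cases h' : A.card = k + 1
    · rw [if_pos (by omega), if_neg h, if_pos h', h']
      ring
    · rw [if_neg (by omega), if_neg h, if_neg h']
      ring

private theorem n4E_le (w : ℕ → ℝ) (hw : ∀ i, 0 ≤ w i) (r : ℕ) (P : Finset ℕ)
    (hS : 16 * ∑ i ∈ P, w i ≤ r) : n4E w r P ≤ (1 / 4 : ℝ) ^ r := by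
  have h1 : n4E w r P ≤ ∑ A ∈ P.powerset, (1 / 16 : ℝ) ^ r * ∏ i ∈ A, (16 * w i) := by
    unfold n4E
    refine Finset.sum_le_sum fun A _ => ?_
    have hpos : 0 ≤ ∏ i ∈ A, (16 * w i) := Finset.prod_nonneg fun i _ => by
      have := hw i
      positivity
    by_cases h : A.card = r
    · rw [if_pos h, Finset.prod_mul_distrib, Finset.prod_const, h, ← mul_assoc, ← mul_pow]
      norm_num
    · rw [if_neg h]
      positivity
  have h2 : ∑ A ∈ P.powerset, (1 / 16 : ℝ) ^ r * ∏ i ∈ A, (16 * w i) =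
      (1 / 16 : ℝ) ^ r * ∏ i ∈ P, (1 + 16 * w i) := by
    rw [← Finset.mul_sum, Finset.prod_one_add]
  have h3 : ∏ i ∈ P, (1 + 16 * w i) ≤ Real.exp r := by
    refine (Real.prod_one_add_le_exp_sum P (fun i => by have := hw i; positivity)).trans ?_
    rw [← Finset.mul_sum]
    exact Real.exp_le_exp.2 hS
  have h4 : Real.exp r ≤ (4 : ℝ) ^ r := by
    have : Real.exp (r : ℝ) = Real.exp 1 ^ r := by
      rw [← Real.exp_nat_mul, mul_one]
    rw [this]
    exact pow_le_pow_left₀ (Real.exp_pos 1).le (by linarith [Real.exp_one_lt_d9]) r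
  calc n4E w r P ≤ (1 / 16 : ℝ) ^ r * ∏ i ∈ P, (1 + 16 * w i) := h1.trans_eq h2
    _ ≤ (1 / 16 : ℝ) ^ r * (4 : ℝ) ^ r :=
        mul_le_mul_of_nonneg_left (h3.trans h4) (by positivity)
    _ = (1 / 4 : ℝ) ^ r := by rw [← mul_pow]; norm_num

/-- the primes of the sieve -/
private noncomputable def n4P (m z : ℕ) : Finset ℕ :=
  (Icc 1 z).filter (fun p => p.Prime ∧ ¬ p ∣ m)

private theorem n4_mem {m z p : ℕ} : p ∈ n4P m z ↔ (1 ≤ p ∧ p ≤ z) ∧ p.Prime ∧ ¬ p ∣ m := by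
  unfold n4P
  rw [Finset.mem_filter, Finset.mem_Icc]

private theorem n4_card (m z : ℕ) : ((n4P m z).card : ℝ) ≤ z := by
  have : (n4P m z).card ≤ (Icc 1 z).card := Finset.card_filter_le _ _
  rw [Nat.card_Icc] at this
  have h2 : (n4P m z).card ≤ z := by omega
  exact_mod_cast h2

private theorem n4_S (m z : ℕ) (hz : 2 ≤ z) :
    16 * ∑ p ∈ n4P m z, (1 / (p : ℝ)) ≤ (16 * (1 + Nat.log 2 z) : ℕ) := by
  have h1 : ∑ p ∈ n4P m z, (1 / (p : ℝ)) ≤ ∑ p ∈ Icc 2 z, (1 / (p : ℝ)) := by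
    refine Finset.sum_le_sum_of_subset_of_nonneg ?_ fun i _ _ => by positivity
    intro p hp
    rw [n4_mem] at hp
    rw [Finset.mem_Icc]
    exact ⟨hp.2.1.two_le, hp.1.2⟩
  have h2 : ∑ p ∈ Icc 1 z, (1 / (p : ℝ)) = 1 + ∑ p ∈ Icc 2 z, (1 / (p : ℝ)) := by
    have : Icc 1 z = insert 1 (Icc 2 z) := by
      ext x
      simp only [Finset.mem_Icc, Finset.mem_insert]
      omega
    rw [this, Finset.sum_insert (by simp)]
    norm_num
  have h3 : ∑ p ∈ Icc 1 z, (1 / (p : ℝ)) ≤ 1 + Real.log z := by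
    have := harmonic_le_one_add_log z
    rw [harmonic_eq_sum_Icc] at this
    push_cast at this
    simpa [one_div] using this
  have h4 : Real.log z ≤ 1 + Nat.log 2 z := by
    have h5 : z < 2 ^ (Nat.log 2 z + 1) := Nat.lt_pow_succ_log_self (by norm_num) z
    have h6 : Real.log z ≤ Real.log ((2 : ℝ) ^ (Nat.log 2 z + 1)) := by
      apply Real.log_le_log (by positivity)
      exact_mod_cast h5.le
    rw [Real.log_pow] at h6
    have h7 : Real.log 2 ≤ 1 := by linarith [Real.log_two_lt_d9]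
    have h8 : (0 : ℝ) ≤ ((Nat.log 2 z + 1 : ℕ) : ℝ) := Nat.cast_nonneg _
    have h9 : ((Nat.log 2 z + 1 : ℕ) : ℝ) * Real.log 2 ≤ ((Nat.log 2 z + 1 : ℕ) : ℝ) * 1 :=
      mul_le_mul_of_nonneg_left h7 h8
    push_cast at h6 h9
    linarith
  push_cast
  linarith

private theorem n4_pow (z : ℕ) (hz : 2 ≤ z) :
    (1 / 4 : ℝ) ^ (16 * (1 + Nat.log 2 z)) ≤ 1 / (z : ℝ) ^ 4 := by
  have h5 : z < 2 ^ (Nat.log 2 z + 1) := Nat.lt_pow_succ_log_self (by norm_num) z
  have h6 : (z : ℝ) ≤ (2 : ℝ) ^ (Nat.log 2 z + 1) := by exact_mod_cast h5.le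
  have h7 : (z : ℝ) ^ 4 ≤ (4 : ℝ) ^ (16 * (1 + Nat.log 2 z)) := by
    calc (z : ℝ) ^ 4 ≤ ((2 : ℝ) ^ (Nat.log 2 z + 1)) ^ 4 := pow_le_pow_left₀ (by positivity) h6 4
      _ = (2 : ℝ) ^ ((Nat.log 2 z + 1) * 4) := by rw [← pow_mul]
      _ ≤ (2 : ℝ) ^ (2 * (16 * (1 + Nat.log 2 z))) :=
          pow_le_pow_right₀ (by norm_num) (by omega)
      _ = (4 : ℝ) ^ (16 * (1 + Nat.log 2 z)) := by rw [pow_mul]; norm_num
  rw [one_div_pow]
  exact one_div_le_one_div_of_le (by positivity) h7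

/-- counting in one residue class -/
private theorem n4_count (m c X H d : ℕ) (hm : 1 ≤ m) (hd : 1 ≤ d) (hmd : Nat.Coprime m d) :
    |((((Ioc X (X + H)).filter (fun q => q ≡ c [MOD m] ∧ d ∣ q)).card : ℕ) : ℝ) -
      (H : ℝ) / m * (1 / d)| ≤ 1 := by
  obtain ⟨e, he1, he2⟩ := Nat.chineseRemainder hmd c 0
  have hset : (Ioc X (X + H)).filter (fun q => q ≡ c [MOD m] ∧ d ∣ q) =
      (Ioc X (X + H)).filter (fun q => q ≡ e [MOD (m * d)]) := by
    refine Finset.filter_congr fun q _ => ?_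
    rw [← Nat.modEq_and_modEq_iff_modEq_mul hmd]
    constructor
    · rintro ⟨h1, h2⟩
      exact ⟨h1.trans he1.symm, ((Nat.modEq_zero_iff_dvd).2 h2).trans he2.symm⟩
    · rintro ⟨h1, h2⟩
      exact ⟨h1.trans he1, (Nat.modEq_zero_iff_dvd).1 (h2.trans he2)⟩
  rw [hset]
  have hM : 0 < m * d := Nat.mul_pos hm hd
  have hcard := Nat.Ioc_filter_modEq_card X (X + H) hM e
  have hMq : (0 : ℚ) < ((m * d : ℕ) : ℚ) := by exact_mod_cast hM
  set N : ℕ := ((Ioc X (X + H)).filter (fun q => q ≡ e [MOD (m * d)])).card with hN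
  have key : |((N : ℕ) : ℚ) - (H : ℚ) / ((m * d : ℕ) : ℚ)| ≤ 1 := by
    have e1 : (((X + H : ℕ) : ℚ) - e) / ((m * d : ℕ) : ℚ) =
        ((X : ℚ) - e) / ((m * d : ℕ) : ℚ) + (H : ℚ) / ((m * d : ℕ) : ℚ) := by
      push_cast; ring
    have hH : (0 : ℚ) ≤ (H : ℚ) / ((m * d : ℕ) : ℚ) := by positivity
    have f1 := Int.floor_le ((((X + H : ℕ) : ℚ) - e) / ((m * d : ℕ) : ℚ))
    have f2 := Int.lt_floor_add_one ((((X + H : ℕ) : ℚ) - e) / ((m * d : ℕ) : ℚ))
    have f3 := Int.floor_le (((X : ℚ) - e) / ((m * d : ℕ) : ℚ))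
    have f4 := Int.lt_floor_add_one (((X : ℚ) - e) / ((m * d : ℕ) : ℚ))
    have hmono : ⌊((X : ℚ) - e) / ((m * d : ℕ) : ℚ)⌋ ≤
        ⌊(((X + H : ℕ) : ℚ) - e) / ((m * d : ℕ) : ℚ)⌋ := by
      apply Int.floor_le_floor
      rw [e1]
      linarith
    rw [max_eq_left (sub_nonneg.2 hmono)] at hcard
    have hcq : ((N : ℕ) : ℚ) = ((⌊(((X + H : ℕ) : ℚ) - e) / ((m * d : ℕ) : ℚ)⌋ : ℤ) : ℚ) -
        ((⌊((X : ℚ) - e) / ((m * d : ℕ) : ℚ)⌋ : ℤ) : ℚ) := by
      exact_mod_cast hcard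
    rw [hcq, abs_le]
    constructor <;> linarith
  have e2 : (H : ℝ) / m * (1 / d) = (((H : ℚ) / ((m * d : ℕ) : ℚ) : ℚ) : ℝ) := by
    push_cast
    rw [div_mul_div_comm, mul_one]
  rw [e2]
  exact_mod_cast key

/-- sum over `q` of the truncated sums -/
private theorem n4_sum (m c z X H k : ℕ) (hm : 1 ≤ m) :
    |(∑ q ∈ (Ioc X (X + H)).filter (fun q => q ≡ c [MOD m]),
        n4T (fun p => if p ∣ q then 1 else 0) k (n4P m z)) -
      (H : ℝ) / m * n4T (fun p => 1 / (p : ℝ)) k (n4P m z)| ≤ ((z : ℝ) + 1) ^ k := by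
  classical
  have h1 : (∑ q ∈ (Ioc X (X + H)).filter (fun q => q ≡ c [MOD m]),
      n4T (fun p => if p ∣ q then 1 else 0) k (n4P m z)) =
      ∑ A ∈ (n4P m z).powerset, if A.card ≤ k then (-1 : ℝ) ^ A.card *
        ((((Ioc X (X + H)).filter (fun q => q ≡ c [MOD m] ∧ (∏ p ∈ A, p) ∣ q)).card : ℕ) : ℝ)
        else 0 := by
    unfold n4T
    rw [Finset.sum_comm]
    refine Finset.sum_congr rfl fun A hA => ?_
    by_cases h : A.card ≤ k
    · simp only [if_pos h]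
      rw [← Finset.mul_sum]
      congr 1
      have h2 : ∀ q : ℕ, (∏ p ∈ A, (if p ∣ q then (1 : ℝ) else 0)) =
          if (∏ p ∈ A, p) ∣ q then 1 else 0 := by
        intro q
        have hpr : ∀ p ∈ A, p.Prime := fun p hp =>
          (n4_mem.1 (Finset.mem_powerset.1 hA hp)).2.1
        by_cases hd : (∏ p ∈ A, p) ∣ q
        · rw [if_pos hd]
          refine Finset.prod_eq_one fun p hp => ?_
          rw [if_pos ((Finset.dvd_prod_of_mem (fun p => p) hp).trans hd)]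
        · rw [if_neg hd]
          have : ∃ p ∈ A, ¬ p ∣ q := by
            by_contra hall
            push Not at hall
            exact hd (Finset.prod_primes_dvd q (fun p hp => (hpr p hp).prime) hall)
          obtain ⟨p, hp, hpq⟩ := this
          exact Finset.prod_eq_zero hp (if_neg hpq)
      rw [Finset.sum_congr rfl fun q _ => h2 q, ← Finset.sum_filter, Finset.filter_filter,
        Finset.sum_const, nsmul_eq_mul, mul_one]
    · simp only [if_neg h, Finset.sum_const_zero]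
  rw [h1]
  unfold n4T
  rw [Finset.mul_sum, ← Finset.sum_sub_distrib]
  refine (Finset.abs_sum_le_sum_abs _ _).trans ?_
  have h3 : ∑ A ∈ (n4P m z).powerset, |(if A.card ≤ k then (-1 : ℝ) ^ A.card *
        ((((Ioc X (X + H)).filter (fun q => q ≡ c [MOD m] ∧ (∏ p ∈ A, p) ∣ q)).card : ℕ) : ℝ)
        else 0) - (H : ℝ) / m * (if A.card ≤ k then (-1 : ℝ) ^ A.card *
          ∏ p ∈ A, (1 / (p : ℝ)) else 0)| ≤ n4N k (n4P m z) := by
    unfold n4N
    refine Finset.sum_le_sum fun A hA => ?_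
    by_cases h : A.card ≤ k
    · rw [if_pos h, if_pos h, if_pos h]
      have hpr : ∀ p ∈ A, p.Prime ∧ ¬ p ∣ m := fun p hp =>
        (n4_mem.1 (Finset.mem_powerset.1 hA hp)).2
      have hd : 1 ≤ ∏ p ∈ A, p := Finset.prod_pos fun p hp => (hpr p hp).1.pos
      have hcop : Nat.Coprime m (∏ p ∈ A, p) := by
        refine Nat.Coprime.prod_right fun p hp => ?_
        exact (((hpr p hp).1.coprime_iff_not_dvd).2 (hpr p hp).2).symm
      have h4 := n4_count m c X H (∏ p ∈ A, p) hm hd hcop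
      have h5 : ∏ p ∈ A, (1 / (p : ℝ)) = 1 / ((∏ p ∈ A, p : ℕ) : ℝ) := by
        rw [Finset.prod_div_distrib, Finset.prod_const_one]
        push_cast
        rfl
      rw [h5]
      have h6 : (-1 : ℝ) ^ A.card *
          ((((Ioc X (X + H)).filter (fun q => q ≡ c [MOD m] ∧ (∏ p ∈ A, p) ∣ q)).card : ℕ) : ℝ) -
          (H : ℝ) / m * ((-1 : ℝ) ^ A.card * (1 / ((∏ p ∈ A, p : ℕ) : ℝ))) =
          (-1 : ℝ) ^ A.card *
          (((((Ioc X (X + H)).filter (fun q => q ≡ c [MOD m] ∧ (∏ p ∈ A, p) ∣ q)).card : ℕ) : ℝ) -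
            (H : ℝ) / m * (1 / ((∏ p ∈ A, p : ℕ) : ℝ))) := by ring
      rw [h6, abs_mul, abs_pow, abs_neg, abs_one, one_pow, one_mul]
      exact h4
    · rw [if_neg h, if_neg h, if_neg h]
      simp
  refine h3.trans ((n4N_le _ k).trans ?_)
  exact pow_le_pow_left₀ (by positivity) (by linarith [n4_card m z]) k

/-- the indicator of roughness -/
private theorem n4_ind (m c z q : ℕ) (hc : Nat.Coprime c m) (hq : q ≡ c [MOD m]) :
    (∏ p ∈ n4P m z, (1 - (if p ∣ q then (1 : ℝ) else 0))) = 1 ∧ Rough z q ∨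
    (∏ p ∈ n4P m z, (1 - (if p ∣ q then (1 : ℝ) else 0))) = 0 ∧ ¬ Rough z q := by
  have hqm : Nat.Coprime q m := by
    have : Nat.gcd q m = Nat.gcd c m := hq.gcd_eq
    unfold Nat.Coprime at hc ⊢
    rw [this, hc]
  by_cases hR : Rough z q
  · left
    refine ⟨Finset.prod_eq_one fun p hp => ?_, hR⟩
    rw [n4_mem] at hp
    rw [if_neg, sub_zero]
    intro hpq
    exact absurd (hR p hp.2.1 hpq) (by omega)
  · right
    refine ⟨?_, hR⟩
    unfold Rough at hR
    push Not at hR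
    obtain ⟨p, hp, hpq, hpz⟩ := hR
    refine Finset.prod_eq_zero (i := p) ?_ (by rw [if_pos hpq, sub_self])
    rw [n4_mem]
    refine ⟨⟨hp.one_lt.le, hpz⟩, hp, fun hpm => ?_⟩
    have := Nat.dvd_gcd hpq hpm
    rw [hqm] at this
    exact hp.one_lt.ne' (Nat.dvd_one.1 this)

private theorem n4_RC (m c z X H : ℕ) (hc : Nat.Coprime c m) :
    ((RC m c z X H).card : ℝ) = ∑ q ∈ (Ioc X (X + H)).filter (fun q => q ≡ c [MOD m]),
      ∏ p ∈ n4P m z, (1 - (if p ∣ q then (1 : ℝ) else 0)) := by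
  classical
  have h1 : RC m c z X H = ((Ioc X (X + H)).filter (fun q => q ≡ c [MOD m])).filter
      (fun q => Rough z q) := by
    ext q
    rw [mem_RC, Finset.mem_filter, Finset.mem_filter, Finset.mem_Ioc]
    tauto
  rw [h1, Finset.card_filter, Nat.cast_sum]
  refine Finset.sum_congr rfl fun q hq => ?_
  rcases n4_ind m c z q hc (Finset.mem_filter.1 hq).2 with ⟨h, h'⟩ | ⟨h, h'⟩
  · rw [h, if_pos h', Nat.cast_one]
  · rw [h, if_neg h', Nat.cast_zero]

theorem brun (m c z X H : ℕ) (hm : 1 ≤ m) (hc : Nat.Coprime c m) (hz : 2 ≤ z) :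
    |((RC m c z X H).card : ℝ) - (H : ℝ) / m * V m z| ≤
      (H : ℝ) / m / (z : ℝ) ^ 4 + ((z : ℝ) + 1) ^ (16 * (1 + Nat.log 2 z)) := by
  have hV : V m z = ∏ p ∈ n4P m z, (1 - 1 / (p : ℝ)) := rfl
  obtain ⟨s, hs⟩ : ∃ s, 16 * (1 + Nat.log 2 z) = s + 1 := ⟨16 * (1 + Nat.log 2 z) - 1, by omega⟩
  have hev : Even (s + 1) := by rw [← hs]; exact ⟨8 * (1 + Nat.log 2 z), by ring⟩
  have hodd : Odd s := by
    rcases Nat.even_or_odd s with h | h
    · exact absurd hev (Nat.not_even_iff_odd.2 h.add_one)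
    · exact h
  have hHm : (0 : ℝ) ≤ (H : ℝ) / m := by positivity
  -- weights
  have hw : ∀ p ∈ n4P m z, (0 : ℝ) ≤ 1 / (p : ℝ) ∧ 1 / (p : ℝ) ≤ 1 := by
    intro p hp
    rw [n4_mem] at hp
    refine ⟨by positivity, ?_⟩
    rw [div_le_one (by exact_mod_cast hp.1.1)]
    exact_mod_cast hp.1.1
  have hwq : ∀ q : ℕ, ∀ p ∈ n4P m z, (0 : ℝ) ≤ (if p ∣ q then 1 else 0) ∧
      (if p ∣ q then (1 : ℝ) else 0) ≤ 1 := by
    intro q p _
    split_ifs <;> norm_num
  -- the last layer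
  have hE : n4E (fun p => 1 / (p : ℝ)) (s + 1) (n4P m z) ≤ 1 / (z : ℝ) ^ 4 := by
    refine (n4E_le _ (fun i => by positivity) _ _ ?_).trans ?_
    · rw [← hs]; exact n4_S m z hz
    · rw [← hs]; exact n4_pow z hz
  -- bounds for V
  have b1 := n4_bonf (fun p => 1 / (p : ℝ)) (n4P m z) hw (s + 1)
  have b2 := n4_bonf (fun p => 1 / (p : ℝ)) (n4P m z) hw s
  rw [hev.neg_one_pow, one_mul, ← hV] at b1
  rw [hodd.neg_one_pow, ← hV] at b2
  have b3 := n4T_succ (fun p => 1 / (p : ℝ)) s (n4P m z)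
  rw [hev.neg_one_pow, one_mul] at b3
  have c1 := n4_sum m c z X H (s + 1) hm
  have c2 := n4_sum m c z X H s hm
  rw [abs_le] at c1 c2
  have d1 : ((RC m c z X H).card : ℝ) ≤
      ∑ q ∈ (Ioc X (X + H)).filter (fun q => q ≡ c [MOD m]),
        n4T (fun p => if p ∣ q then 1 else 0) (s + 1) (n4P m z) := by
    rw [n4_RC m c z X H hc]
    refine Finset.sum_le_sum fun q _ => ?_
    have := n4_bonf (fun p => if p ∣ q then (1 : ℝ) else 0) (n4P m z) (hwq q) (s + 1)
    rw [hev.neg_one_pow, one_mul] at this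
    linarith
  have d2 : ∑ q ∈ (Ioc X (X + H)).filter (fun q => q ≡ c [MOD m]),
        n4T (fun p => if p ∣ q then 1 else 0) s (n4P m z) ≤ ((RC m c z X H).card : ℝ) := by
    rw [n4_RC m c z X H hc]
    refine Finset.sum_le_sum fun q _ => ?_
    have := n4_bonf (fun p => if p ∣ q then (1 : ℝ) else 0) (n4P m z) (hwq q) s
    rw [hodd.neg_one_pow] at this
    linarith
  have e1 : ((z : ℝ) + 1) ^ s ≤ ((z : ℝ) + 1) ^ (s + 1) := by
    apply pow_le_pow_right₀
    · have : (0 : ℝ) ≤ z := Nat.cast_nonneg z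
      linarith
    · omega
  rw [hs, abs_le]
  have e2 : (H : ℝ) / m / (z : ℝ) ^ 4 = (H : ℝ) / m * (1 / (z : ℝ) ^ 4) := by ring
  rw [e2]
  constructor
  · have f1 : (H : ℝ) / m * V m z - (H : ℝ) / m * (1 / (z : ℝ) ^ 4) ≤
        (H : ℝ) / m * n4T (fun p => 1 / (p : ℝ)) s (n4P m z) := by
      rw [← mul_sub]
      refine mul_le_mul_of_nonneg_left ?_ hHm
      linarith
    linarith [c2.1]
  · have f1 : (H : ℝ) / m * n4T (fun p => 1 / (p : ℝ)) (s + 1) (n4P m z) ≤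
        (H : ℝ) / m * V m z + (H : ℝ) / m * (1 / (z : ℝ) ^ 4) := by
      rw [← mul_add]
      refine mul_le_mul_of_nonneg_left ?_ hHm
      linarith
    linarith [c1.2]

end Pool.Agent.Helper1.ES
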