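import Pool.Agent.Helper1.ES.Defs

/-!
ES-N4m Mertens.  `log D! = ∑_{d ≤ D} Λ(d) ⌊D/d⌋` (from `ArithmeticFunction.vonMangoldt_sum`),
`D log D - D ≤ log D! ≤ D log D`, and `∑_{d ≤ D} Λ(d) ≤ C D` (Mathlib `Chebyshev.psi...`, e.g.
`Chebyshev.psi_le_const_mul_self`).  Divide by `D`.  See also Helper9/Fam/Mertens.lean,
Helper64/BSDL2/P9a.lean, Helper1/D6/Mertens.lean.
-/

set_option autoImplicit false

namespace Pool.Agent.Helper1.ES

open Finset

theorem mertens_L : ∃ C : ℝ, 0 ≤ C ∧ ∀ D : ℕ, 1 ≤ D →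
    |∑ d ∈ Icc 1 D, ArithmeticFunction.vonMangoldt d / d - Real.log D| ≤ C := by
  have hl4 : 0 ≤ Real.log 4 := Real.log_nonneg (by norm_num)
  refine ⟨Real.log 4 + 4, by positivity, ?_⟩
  intro n hn
  have hn0 : (0 : ℝ) < n := by exact_mod_cast hn
  have hI : Icc 1 n = Ioc 0 n := rfl
  rw [hI]
  have h1 : ∑ k ∈ Ioc 0 n, Real.log k =
      ∑ d ∈ Ioc 0 n, ArithmeticFunction.vonMangoldt d * ((n / d : ℕ) : ℝ) := by
    have := ArithmeticFunction.sum_Ioc_mul_zeta_eq_sum (R := ℝ) ArithmeticFunction.vonMangoldt n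
    rw [ArithmeticFunction.vonMangoldt_mul_zeta] at this
    exact this
  have hfac : ∑ k ∈ Ioc 0 n, Real.log k = Real.log (n.factorial : ℝ) := by
    have hI2 : Ioc 0 n = Ico 1 (n + 1) := by
      ext k
      simp only [mem_Ioc, mem_Ico]
      omega
    rw [← Finset.prod_Ico_id_eq_factorial, Nat.cast_prod, Real.log_prod, hI2]
    intro k hk
    have := (mem_Ico.1 hk).1
    positivity
  have h2 : ∑ k ∈ Ioc 0 n, Real.log k ≤ n * Real.log n := by
    have : ∑ k ∈ Ioc 0 n, Real.log k ≤ ∑ k ∈ Ioc 0 n, Real.log n := by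
      apply sum_le_sum
      intro k hk
      have hk1 := (mem_Ioc.1 hk).1
      have hk2 := (mem_Ioc.1 hk).2
      exact Real.log_le_log (by exact_mod_cast hk1) (by exact_mod_cast hk2)
    rw [sum_const, Nat.card_Ioc, nsmul_eq_mul] at this
    simpa using this
  have h2' : n * Real.log n - n ≤ ∑ k ∈ Ioc 0 n, Real.log k := by
    rw [hfac]
    have h := Real.pow_div_factorial_le_exp (n : ℝ) hn0.le n
    have hf : (0 : ℝ) < n.factorial := by exact_mod_cast Nat.factorial_pos n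
    have h3 := Real.log_le_log (by positivity) h
    rw [Real.log_exp, Real.log_div (by positivity) hf.ne', Real.log_pow] at h3
    linarith
  have hnn : ∀ d : ℕ, 0 ≤ ArithmeticFunction.vonMangoldt d :=
    fun d => ArithmeticFunction.vonMangoldt_nonneg
  have hpsi : ∑ d ∈ Ioc 0 n, ArithmeticFunction.vonMangoldt d ≤ (Real.log 4 + 4) * n := by
    have h := Chebyshev.psi_le_const_mul_self (x := (n : ℝ)) (by positivity)
    unfold Chebyshev.psi at h
    rwa [Nat.floor_natCast] at h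
  have h4 : ∑ d ∈ Ioc 0 n, ArithmeticFunction.vonMangoldt d * ((n : ℝ) / d) =
      n * ∑ d ∈ Ioc 0 n, ArithmeticFunction.vonMangoldt d / d := by
    rw [mul_sum]
    exact sum_congr rfl fun d _ => by ring
  have h3 : ∑ d ∈ Ioc 0 n, (ArithmeticFunction.vonMangoldt d * ((n : ℝ) / d) -
      ArithmeticFunction.vonMangoldt d) ≤
      ∑ d ∈ Ioc 0 n, ArithmeticFunction.vonMangoldt d * ((n / d : ℕ) : ℝ) := by
    apply sum_le_sum
    intro d hd
    have hd0 : 0 < d := (mem_Ioc.1 hd).1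
    have hd0' : (0 : ℝ) < d := by exact_mod_cast hd0
    have h4 : (n : ℝ) / d - 1 ≤ ((n / d : ℕ) : ℝ) := by
      have := Nat.lt_div_mul_add (a := n) hd0
      rw [sub_le_iff_le_add, div_le_iff₀ hd0']
      have h5 : (n : ℝ) ≤ (n / d : ℕ) * d + d := by exact_mod_cast this.le
      linarith
    have := mul_le_mul_of_nonneg_left h4 (hnn d)
    linarith
  have h3' : ∑ d ∈ Ioc 0 n, ArithmeticFunction.vonMangoldt d * ((n / d : ℕ) : ℝ) ≤
      ∑ d ∈ Ioc 0 n, ArithmeticFunction.vonMangoldt d * ((n : ℝ) / d) := by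
    apply sum_le_sum
    intro d hd
    exact mul_le_mul_of_nonneg_left Nat.cast_div_le (hnn d)
  rw [sum_sub_distrib, h4] at h3
  rw [h4] at h3'
  rw [abs_le]
  constructor
  · have h6 : n * (Real.log n - 1) ≤
        n * ∑ d ∈ Ioc 0 n, ArithmeticFunction.vonMangoldt d / d := by nlinarith
    have := le_of_mul_le_mul_left h6 hn0
    linarith
  · have h6 : n * ∑ d ∈ Ioc 0 n, ArithmeticFunction.vonMangoldt d / d ≤
        n * (Real.log n + (Real.log 4 + 4)) := by nlinarith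
    have := le_of_mul_le_mul_left h6 hn0
    linarith

end Pool.Agent.Helper1.ES
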