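import Pool.Agent.Helper1.ES.Defs
import Pool.Agent.Helper1.ES.St.G3
import Pool.Agent.Helper1.ES.St.G5
import Pool.Agent.Helper1.ES.St.G7

/-!
ES-G8 general sieve theorem (captain).
-/

set_option autoImplicit false

namespace Pool.Agent.Helper1.ES

open Finset

private theorem g8_WW_pos (z S : ℕ) : 0 < WW z S := by
  unfold WW PS
  refine Finset.prod_pos fun p hp => ?_
  rw [mem_filter] at hp
  exact pow_pos hp.2.pos _

theorem sieve_main (Om : Finset Tr) (S z t N : ℕ) (τ : ℝ) (hA : Adm Om S)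
    (hz : ∀ w ∈ Om, Rough z w.s) (hz1 : 1 ≤ z) (hτ0 : 0 ≤ τ) (hτ : τ ≤ z)
    (hT0 : ∀ b : ℕ, T Om b ≤ τ)
    (hT : ∀ p : ℕ, p.Prime → z < p → ∀ b : ℕ, Tp Om p b ≤ τ / p) :
    (((Icc 1 N).filter (fun b => X Om b = 0)).card : ℝ) ≤
      N * (Real.exp (-mu Om + τ ^ 2 / z) + τ ^ (2 * t) / ((2 * t).factorial : ℝ)) +
      ((Om.card : ℝ) + 1) ^ (2 * t) := by
  have hWW := g8_WW_pos z S
  have hP : 0 < ∏ l ∈ LL Om, l := by
    refine Finset.prod_pos fun l hl => ?_
    unfold LL at hl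
    rw [mem_image] at hl
    obtain ⟨w, hw, rfl⟩ := hl
    exact (hA.prime w hw).pos
  have hM : 0 < MM Om z S := Nat.mul_pos hWW hP
  have h1 := transfer Om (MM Om z S) N t hM
    (fun w hw => Nat.mul_pos (hA.prime w hw).pos (hA.spos w hw)) hA.cop (by
      intro w hw
      unfold MM
      rw [mul_comm]
      refine mul_dvd_mul (s_dvd z S w.s (hA.spos w hw) (hA.sle w hw) (hz w hw)) ?_
      exact Finset.dvd_prod_of_mem (fun l : ℕ => l) (Finset.mem_image_of_mem Tr.l hw))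
  obtain ⟨h2, h3⟩ := large_part Om S z hA hz
  have h3 := h3 (2 * t)
  have h4 := small_part Om S z τ hA hz hz1 hτ0 hτ hT
  have hTnn : ∀ b : ℕ, 0 ≤ T Om b := fun b => by
    unfold T
    exact Finset.sum_nonneg fun w _ => by positivity
  have hPR : (0 : ℝ) < ∏ l ∈ LL Om, (l : ℝ) := by
    have : ((∏ l ∈ LL Om, l : ℕ) : ℝ) = ∏ l ∈ LL Om, (l : ℝ) := by push_cast; rfl
    rw [← this]
    exact_mod_cast hP
  have hWR : (0 : ℝ) < WW z S := by exact_mod_cast hWW
  have hMR : ((MM Om z S : ℕ) : ℝ) = WW z S * ∏ l ∈ LL Om, (l : ℝ) := by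
    unfold MM
    push_cast
    rfl
  have h5 : ∑ β ∈ range (WW z S), (T Om β) ^ (2 * t) / ((2 * t).factorial : ℝ) ≤
      WW z S * (τ ^ (2 * t) / ((2 * t).factorial : ℝ)) := by
    calc ∑ β ∈ range (WW z S), (T Om β) ^ (2 * t) / ((2 * t).factorial : ℝ)
        ≤ ∑ β ∈ range (WW z S), τ ^ (2 * t) / ((2 * t).factorial : ℝ) := by
          refine Finset.sum_le_sum fun β _ => ?_
          have := pow_le_pow_left₀ (hTnn β) (hT0 β) (2 * t)
          gcongr
      _ = WW z S * (τ ^ (2 * t) / ((2 * t).factorial : ℝ)) := by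
          rw [Finset.sum_const, Finset.card_range, nsmul_eq_mul]
  have h6 : ∑ b ∈ range (MM Om z S),
      ((if X Om b = 0 then (1 : ℝ) else 0) + ((X Om b).choose (2 * t) : ℝ)) ≤
      (MM Om z S : ℝ) * (Real.exp (-mu Om + τ ^ 2 / z) + τ ^ (2 * t) / ((2 * t).factorial : ℝ)) := by
    rw [Finset.sum_add_distrib, hMR]
    have e1 := h2.trans (mul_le_mul_of_nonneg_left h4 hPR.le)
    have e2 := h3.trans (mul_le_mul_of_nonneg_left h5 hPR.le)
    linarith
  have hMpos : (0 : ℝ) < MM Om z S := by exact_mod_cast hM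
  refine h1.trans ?_
  have h7 : (N : ℝ) / (MM Om z S : ℝ) * ∑ b ∈ range (MM Om z S),
      ((if X Om b = 0 then (1 : ℝ) else 0) + ((X Om b).choose (2 * t) : ℝ)) ≤
      N * (Real.exp (-mu Om + τ ^ 2 / z) + τ ^ (2 * t) / ((2 * t).factorial : ℝ)) := by
    calc (N : ℝ) / (MM Om z S : ℝ) * ∑ b ∈ range (MM Om z S),
          ((if X Om b = 0 then (1 : ℝ) else 0) + ((X Om b).choose (2 * t) : ℝ))
        ≤ (N : ℝ) / (MM Om z S : ℝ) * ((MM Om z S : ℝ) *
          (Real.exp (-mu Om + τ ^ 2 / z) + τ ^ (2 * t) / ((2 * t).factorial : ℝ))) :=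
          mul_le_mul_of_nonneg_left h6 (by positivity)
      _ = _ := by field_simp
  linarith

end Pool.Agent.Helper1.ES
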