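import Pool.Agent.Helper1.ES.Defs
import Pool.Agent.Helper9.Fam.Mertens

/-!
ES-N4v.  `V m z ≥ ∏_{p ≤ z} (1 - 1/p) ≥ exp (-∑_{p≤z} 1/p - ∑_p 1/(p(p-1))) ≥ c / log z` by Mertens
(`mertens_two` in Helper9/Fam/Mertens.lean), or: with `D = primorial z`, `∏_{p ≤ z}(1 - 1/p) = φ(D)/D` and
`Helper44.TOT.TotLow` (Helper41/TOT/TotLow.lean), `log D ≤ z log 4` (`primorial_le_4_pow`), so
`D / φ(D) ≤ C (1 + log (1 + 2 n^4))^C`, which is `≤ C' (1 + log (1+n))^{C'}`.
-/

set_option autoImplicit false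

namespace Pool.Agent.Helper1.ES

open Finset

private theorem n4v_factor {p : ℕ} (hp : 2 ≤ p) : Real.exp (-(2 * (1 / (p : ℝ)))) ≤ 1 - 1 / (p : ℝ) := by
  have hp0 : (2 : ℝ) ≤ p := by exact_mod_cast hp
  set x : ℝ := 1 / (p : ℝ) with hx
  have hx0 : 0 ≤ x := by positivity
  have hx1 : x ≤ 1 / 2 := one_div_le_one_div_of_le (by norm_num) hp0
  have h1 : 1 + 2 * x ≤ Real.exp (2 * x) := by
    have := Real.add_one_le_exp (2 * x)
    linarith
  have h2 : 0 < 1 + 2 * x := by linarith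
  rw [Real.exp_neg]
  refine le_trans (inv_anti₀ h2 h1) ?_
  rw [inv_le_iff_one_le_mul₀ h2]
  nlinarith

private theorem n4v_prod (m z : ℕ) :
    Real.exp (-(2 * ∑ r ∈ Pool.Agent.Helper9.Fam.pr z, 1 / (r : ℝ))) ≤ V m z := by
  classical
  have hsub : (Icc 1 z).filter (fun p => p.Prime ∧ ¬ p ∣ m) ⊆ Pool.Agent.Helper9.Fam.pr z := by
    intro p hp
    rw [mem_filter, mem_Icc] at hp
    rw [Pool.Agent.Helper9.Fam.mem_pr]
    exact ⟨hp.2.1, hp.1.2⟩
  unfold V
  calc Real.exp (-(2 * ∑ r ∈ Pool.Agent.Helper9.Fam.pr z, 1 / (r : ℝ)))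
      ≤ Real.exp (-(2 * ∑ r ∈ (Icc 1 z).filter (fun p => p.Prime ∧ ¬ p ∣ m), 1 / (r : ℝ))) := by
        refine Real.exp_le_exp.2 ?_
        have := sum_le_sum_of_subset_of_nonneg hsub
          (f := fun r : ℕ => 1 / (r : ℝ)) (fun i _ _ => by positivity)
        linarith
    _ = ∏ r ∈ (Icc 1 z).filter (fun p => p.Prime ∧ ¬ p ∣ m), Real.exp (-(2 * (1 / (r : ℝ)))) := by
        rw [← Real.exp_sum, sum_neg_distrib, mul_sum]
    _ ≤ ∏ p ∈ (Icc 1 z).filter (fun p => p.Prime ∧ ¬ p ∣ m), (1 - 1 / (p : ℝ)) := by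
        refine prod_le_prod (fun p _ => (Real.exp_pos _).le) (fun p hp => ?_)
        exact n4v_factor (mem_filter.1 hp).2.1.two_le

theorem V_lower : ∃ C : ℕ, 1 ≤ C ∧ ∀ n m : ℕ, 1 ≤ n → 1 ≤ m → 1 / psi C n ≤ V m (n ^ 4) := by
  obtain ⟨C0, hC0, hM⟩ := Pool.Agent.Helper9.Fam.mertens_two
  refine ⟨⌈16 * Real.exp (2 * C0)⌉₊ + 2, by omega, ?_⟩
  intro n m hn _
  set C : ℕ := ⌈16 * Real.exp (2 * C0)⌉₊ + 2 with hC
  have hCr : 16 * Real.exp (2 * C0) ≤ C := by
    rw [hC]
    push_cast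
    have := Nat.le_ceil (16 * Real.exp (2 * C0))
    linarith
  have hC1 : (1 : ℝ) ≤ C := by
    have : 1 ≤ C := by omega
    exact_mod_cast this
  have hl0 : 0 ≤ Real.log (1 + n) := Real.log_nonneg (by
    have : (0 : ℝ) ≤ n := Nat.cast_nonneg n
    linarith)
  rcases Nat.lt_or_ge n 2 with h2 | h2
  · have hn1 : n = 1 := by omega
    subst hn1
    have hV : V m (1 ^ 4) = 1 := by
      unfold V
      rw [filter_eq_empty_iff.2, prod_empty]
      intro p hp hpp
      rw [mem_Icc] at hp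
      have := hpp.1.two_le
      omega
    rw [hV]
    have h1 : 1 ≤ psi C 1 := by
      unfold psi
      have h3 : (1 : ℝ) ≤ (1 + Real.log (1 + (1 : ℕ))) ^ C := one_le_pow₀ (by linarith)
      nlinarith
    rw [div_le_one (by linarith)]
    exact h1
  · have hn2 : (2 : ℝ) ≤ n := by exact_mod_cast h2
    have hz : 2 ≤ n ^ 4 := by
      calc 2 ≤ n := h2
        _ = n ^ 1 := (pow_one n).symm
        _ ≤ n ^ 4 := Nat.pow_le_pow_right (by omega) (by norm_num)
    have hln : 0 < Real.log n := Real.log_pos (by linarith)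
    have h1 := (abs_le.1 (hM (n ^ 4) hz)).2
    have hlz : Real.log ((n ^ 4 : ℕ) : ℝ) = 4 * Real.log n := by
      push_cast
      rw [Real.log_pow]
      norm_num
    rw [hlz] at h1
    refine le_trans ?_ (n4v_prod m (n ^ 4))
    have h3 : Real.exp (2 * ∑ r ∈ Pool.Agent.Helper9.Fam.pr (n ^ 4), 1 / (r : ℝ)) ≤ psi C n := by
      calc Real.exp (2 * ∑ r ∈ Pool.Agent.Helper9.Fam.pr (n ^ 4), 1 / (r : ℝ))
          ≤ Real.exp (2 * (Real.log (4 * Real.log n) + C0)) := by
            refine Real.exp_le_exp.2 ?_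
            linarith
        _ = Real.exp (2 * C0) * (4 * Real.log n) ^ 2 := by
            rw [mul_add, Real.exp_add, mul_comm]
            congr 1
            rw [two_mul, Real.exp_add, Real.exp_log (by positivity)]
            ring
        _ = (16 * Real.exp (2 * C0)) * (Real.log n) ^ 2 := by ring
        _ ≤ C * (1 + Real.log (1 + n)) ^ C := by
            refine mul_le_mul hCr ?_ (by positivity) (by linarith)
            have h4 : Real.log n ≤ Real.log (1 + n) := Real.log_le_log (by linarith) (by linarith)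
            calc (Real.log n) ^ 2 ≤ (1 + Real.log (1 + n)) ^ 2 :=
                  pow_le_pow_left₀ hln.le (by linarith) 2
              _ ≤ (1 + Real.log (1 + n)) ^ C :=
                  pow_le_pow_right₀ (by linarith) (by omega)
        _ = psi C n := rfl
    rw [Real.exp_neg, one_div]
    exact inv_anti₀ (Real.exp_pos _) h3

end Pool.Agent.Helper1.ES
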