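import Pool.Agent.Helper1.ES.Defs
import Pool.Agent.Helper1.ES.St.N4a

/-!
ES-Q1.  `AA m z j = RC m (m-1) z (2^j) (2^j)`; apply `brun` with `z = n^4`.  The error is
`2^j/m/n^16 + (n^4+1)^{16(1+Nat.log 2 (n^4))}` and `(n^4+1)^{16 (1 + Nat.log 2 (n^4))} ≤ 2^{16 (5 log2 n)^2 ...}` is
`≤ 2^{35 n} / n^16 ≤ 2^j / m / n^16` for `n ≥ n₀` (`(log n)^2 = o(n)`), total `≤ 2 / n^16 ≤ 1 / n^8`.
-/

set_option autoImplicit false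

namespace Pool.Agent.Helper1.ES

open Finset

theorem AA_lower : ∃ n₀ : ℕ, ∀ n : ℕ, n₀ ≤ n → ∀ j : ℕ, 40 * n ≤ j → j < 80 * n →
    ∀ m : ℕ, 2 ≤ m → m ≤ 2 ^ (5 * n) →
    (2 : ℝ) ^ j / m * (V m (n ^ 4) - 1 / (n : ℝ) ^ 8) ≤ ((AA m (n ^ 4) j).card : ℝ) := by
  sorry

end Pool.Agent.Helper1.ES
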