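import Pool.Agent.Helper1.ES.Defs

/-!
ES-Q4.  Trivial bound: `Ad ≤ 2^j/(m d) + 1` if `gcd(d,m) = 1`, `Ad = 0` otherwise; here `d > 2^{j+1}/m` so
`2^j/(m d) ≤ 1` and `Ad ≤ 2`.  The `d` with `Λ(d) ≠ 0`, not prime, are `p^i`, `i ≥ 2`, `p^i ≤ 2^{j+1}`: there are at most
`(j+1) sqrt(2^{j+1})` of them and `Λ(d) ≤ log d ≤ j+1`, so the sum is `≤ 2 (j+1)^2 2^{(j+1)/2}`, which is
`≤ 2^{j - 5n} ≤ 2^j/m` since `j ≥ 40 n`, `n ≥ n₀` (`(j+1)/2 + 2 log2 (j+1) + 2 ≤ j - j/8`).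
-/

set_option autoImplicit false

namespace Pool.Agent.Helper1.ES

open Finset

private theorem q4_Ad_le {m z j d : ℕ} (hd : 2 ^ (j + 1) < d * m) : Ad m z j d ≤ 1 := by
  unfold Ad
  rw [Finset.card_le_one]
  have key : ∀ q q' : ℕ, q ∈ AA m z j → d ∣ q → q' ∈ AA m z j → d ∣ q' → q < q' → False := by
    intro q q' hq hdq hq' hdq' hlt
    obtain ⟨⟨h1, h2⟩, h3, -⟩ := mem_AA.mp hq
    obtain ⟨⟨h1', h2'⟩, h3', -⟩ := mem_AA.mp hq'
    have hcop : Nat.Coprime d m := by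
      have h4 : Nat.gcd d m ∣ q := (Nat.gcd_dvd_left d m).trans hdq
      have h5 : Nat.gcd d m ∣ q + 1 := (Nat.gcd_dvd_right d m).trans h3
      have h6 : Nat.gcd d m ∣ 1 := (Nat.dvd_add_right h4).mp h5
      exact Nat.dvd_one.mp h6
    have h7 : d ∣ q' - q := Nat.dvd_sub hdq' hdq
    have h8 : m ∣ q' - q := by
      have h9 := Nat.dvd_sub h3' h3
      rwa [Nat.add_sub_add_right] at h9
    have h10 : d * m ∣ q' - q := hcop.mul_dvd_of_dvd_of_dvd h7 h8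
    have h11 : d * m ≤ q' - q := Nat.le_of_dvd (by omega) h10
    have h12 : (2 : ℕ) ^ (j + 1) = 2 * 2 ^ j := by ring
    omega
  intro q hq q' hq'
  rw [Finset.mem_filter] at hq hq'
  rcases lt_trichotomy q q' with h | h | h
  · exact (key q q' hq.1 hq.2 hq'.1 hq'.2 h).elim
  · exact h
  · exact (key q' q hq'.1 hq'.2 hq.1 hq.2 h).elim

theorem powers_d : ∃ n₀ : ℕ, ∀ n : ℕ, n₀ ≤ n → ∀ j : ℕ, 40 * n ≤ j → j < 80 * n →
    ∀ m : ℕ, 2 ≤ m → m ≤ 2 ^ (5 * n) →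
    ∑ d ∈ (Ioc (2 ^ (j + 1) / m) (2 ^ (j + 1))).filter (fun d => ¬ d.Prime),
      ArithmeticFunction.vonMangoldt d * (Ad m (n ^ 4) j d : ℝ) ≤ (2 : ℝ) ^ j / m := by
  obtain ⟨C, hC⟩ := Chebyshev.psi_sub_theta_le_mul_sqrt
  refine ⟨⌈C ^ 2⌉₊ + 1, ?_⟩
  intro n hn j hj hj' m hm hm'
  have hm0 : 0 < m := by omega
  have hn1 : 1 ≤ n := by omega
  have hCn : C ^ 2 ≤ n := by
    have h1 : (⌈C ^ 2⌉₊ : ℝ) ≤ n := by exact_mod_cast (by omega : ⌈C ^ 2⌉₊ ≤ n)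
    exact (Nat.le_ceil _).trans h1
  -- first bound: each `Ad` is at most one
  have h1 : ∑ d ∈ (Ioc (2 ^ (j + 1) / m) (2 ^ (j + 1))).filter (fun d => ¬ d.Prime),
      ArithmeticFunction.vonMangoldt d * (Ad m (n ^ 4) j d : ℝ) ≤
      ∑ d ∈ (Ioc (2 ^ (j + 1) / m) (2 ^ (j + 1))).filter (fun d => ¬ d.Prime),
      ArithmeticFunction.vonMangoldt d := by
    apply Finset.sum_le_sum
    intro d hd
    rw [Finset.mem_filter, Finset.mem_Ioc] at hd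
    have h2 : 2 ^ (j + 1) < d * m := (Nat.div_lt_iff_lt_mul hm0).mp hd.1.1
    have h3 : (Ad m (n ^ 4) j d : ℝ) ≤ 1 := by exact_mod_cast q4_Ad_le h2
    have h4 : 0 ≤ ArithmeticFunction.vonMangoldt d := ArithmeticFunction.vonMangoldt_nonneg
    calc ArithmeticFunction.vonMangoldt d * (Ad m (n ^ 4) j d : ℝ)
        ≤ ArithmeticFunction.vonMangoldt d * 1 := mul_le_mul_of_nonneg_left h3 h4
      _ = ArithmeticFunction.vonMangoldt d := mul_one _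
  have h2 : ∑ d ∈ (Ioc (2 ^ (j + 1) / m) (2 ^ (j + 1))).filter (fun d => ¬ d.Prime),
      ArithmeticFunction.vonMangoldt d ≤
      ∑ d ∈ (Ioc 0 (2 ^ (j + 1))).filter (fun d => ¬ d.Prime),
      ArithmeticFunction.vonMangoldt d := by
    apply Finset.sum_le_sum_of_subset_of_nonneg
    · apply Finset.filter_subset_filter
      exact Finset.Ioc_subset_Ioc_left (Nat.zero_le _)
    · intro d _ _
      exact ArithmeticFunction.vonMangoldt_nonneg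
  have h3 : ∑ d ∈ (Ioc 0 (2 ^ (j + 1))).filter (fun d => ¬ d.Prime),
      ArithmeticFunction.vonMangoldt d ≤ C * √((2 : ℝ) ^ (j + 1)) := by
    have h4 := Chebyshev.psi_sub_theta_eq_sum_not_prime ((2 : ℝ) ^ (j + 1))
    have h5 := hC ((2 : ℝ) ^ (j + 1))
    have h6 : ⌊(2 : ℝ) ^ (j + 1)⌋₊ = 2 ^ (j + 1) := by
      have : ((2 : ℝ) ^ (j + 1)) = ((2 ^ (j + 1) : ℕ) : ℝ) := by push_cast; rfl
      rw [this, Nat.floor_natCast]
    rw [h6] at h4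
    rw [h4] at h5
    exact h5
  -- final numerical estimate
  have hmR : (0 : ℝ) < m := by exact_mod_cast hm0
  have hpos : (0 : ℝ) ≤ (2 : ℝ) ^ j / m := by positivity
  have h4 : C * √((2 : ℝ) ^ (j + 1)) ≤ (2 : ℝ) ^ j / m := by
    apply le_of_sq_le_sq _ hpos
    rw [mul_pow, Real.sq_sqrt (by positivity), div_pow, le_div_iff₀ (by positivity)]
    have hm2 : (m : ℝ) ^ 2 ≤ (2 : ℝ) ^ (10 * n) := by
      have : (m : ℝ) ≤ (2 : ℝ) ^ (5 * n) := by exact_mod_cast hm'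
      calc (m : ℝ) ^ 2 ≤ ((2 : ℝ) ^ (5 * n)) ^ 2 := by gcongr
        _ = (2 : ℝ) ^ (10 * n) := by rw [← pow_mul]; congr 1; ring
    have hC2 : C ^ 2 ≤ (2 : ℝ) ^ n := by
      have : (n : ℝ) ≤ (2 : ℝ) ^ n := by exact_mod_cast (Nat.lt_two_pow_self).le
      linarith
    calc C ^ 2 * 2 ^ (j + 1) * (m : ℝ) ^ 2
        ≤ (2 : ℝ) ^ n * 2 ^ (j + 1) * (2 : ℝ) ^ (10 * n) := by gcongr
      _ = (2 : ℝ) ^ (n + (j + 1) + 10 * n) := by rw [← pow_add, ← pow_add]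
      _ ≤ (2 : ℝ) ^ (2 * j) := by
          apply pow_le_pow_right₀ (by norm_num)
          omega
      _ = ((2 : ℝ) ^ j) ^ 2 := by rw [← pow_mul]; congr 1; ring
  linarith

end Pool.Agent.Helper1.ES
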