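import Pool.Agent.Helper1.ES.Defs
import Pool.Agent.Helper1.ES.St.Q1
import Pool.Agent.Helper1.ES.St.Q2
import Pool.Agent.Helper1.ES.St.Q3
import Pool.Agent.Helper1.ES.St.Q4
import Pool.Agent.Helper1.ES.St.N4v

/-!
ES-N4b Chebyshev's trick in the progression `-1` modulo `m`.  `A = AA m (n^4) j`, `G = GG m (n^4) j`,
`L = j log 2`.  For `q ∈ A`: `log q ≥ L` and `log q = ∑_{d ∣ q} Λ(d)`.  For `q ∈ A \ G` no prime `d > 2^{j+1}/m` divides
`q`, so `∑_{q ∈ A \ G} log q ≤ ∑_{d ≤ 2^{j+1}/m} Λ(d) Ad + ∑_{d > 2^{j+1}/m, d not prime} Λ(d) Ad`, which by `small_d`,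
`middle_d`, `powers_d` is `≤ 2^j/m (V log(2^j/m) + C (1+log n)^2 + C)`.  Hence
`|G| L ≥ |A| L - that ≥ 2^j/m (V log m - L/n^8 - C'(1+log n)^2)` (`AA_lower`, `log(2^j/m) = L - log m`), with
`V ≥ 1/psi`, `log m ≥ 2 n log 2`, `L ≤ 80 n`; so `|G| ≥ 2^j/m · (1.3 n/psi - C''(1+log n)^2)/(80 n) ≥
2^j/(m psi')` for `n ≥ n₀` (`n` beats every power of `log n`).
-/

set_option autoImplicit false

namespace Pool.Agent.Helper1.ES

open Finset

private theorem n4b_sum_union {s t : Finset ℕ} {f : ℕ → ℝ} (hf : ∀ d, 0 ≤ f d) :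
    ∑ d ∈ s ∪ t, f d ≤ ∑ d ∈ s, f d + ∑ d ∈ t, f d := by
  rw [← Finset.sum_union_inter]
  have : 0 ≤ ∑ d ∈ s ∩ t, f d := Finset.sum_nonneg fun d _ => hf d
  linarith

/-- The counting inequality. -/
private theorem n4b_count (m z j : ℕ) (hm : 0 < m) :
    (((AA m z j).card : ℝ) - ((GG m z j).card : ℝ)) * (j * Real.log 2) ≤
      ∑ d ∈ Icc 1 (D1 m z j), ArithmeticFunction.vonMangoldt d * (Ad m z j d : ℝ) +
      (∑ d ∈ Ioc (D1 m z j) (2 ^ (j + 1) / m),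
        ArithmeticFunction.vonMangoldt d * (Ad m z j d : ℝ) +
      ∑ d ∈ (Ioc (2 ^ (j + 1) / m) (2 ^ (j + 1))).filter (fun d => ¬ d.Prime),
        ArithmeticFunction.vonMangoldt d * (Ad m z j d : ℝ)) := by
  classical
  have hGA : GG m z j ⊆ AA m z j := fun q hq => (mem_GG.1 hq).1
  have hcard : (((AA m z j \ GG m z j).card : ℕ) : ℝ) =
      ((AA m z j).card : ℝ) - ((GG m z j).card : ℝ) := by
    rw [Finset.card_sdiff_of_subset hGA, Nat.cast_sub (Finset.card_le_card hGA)]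
  obtain ⟨S, hS⟩ : ∃ S : Finset ℕ, S = Icc 1 (D1 m z j) ∪ (Ioc (D1 m z j) (2 ^ (j + 1) / m) ∪
    (Ioc (2 ^ (j + 1) / m) (2 ^ (j + 1))).filter (fun d => ¬ d.Prime)) := ⟨_, rfl⟩
  have hlog : ∀ q ∈ AA m z j, (j : ℝ) * Real.log 2 ≤ Real.log q := by
    intro q hq
    have h1 := (mem_AA.1 hq).1.1
    have h2 : ((2 : ℝ) ^ j) ≤ (q : ℝ) := by exact_mod_cast h1.le
    have h3 := Real.log_le_log (by positivity) h2
    rwa [Real.log_pow] at h3
  have hdiv : ∀ q ∈ AA m z j \ GG m z j,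
      Real.log q = ∑ d ∈ S, if d ∣ q then ArithmeticFunction.vonMangoldt d else 0 := by
    intro q hq
    rw [Finset.mem_sdiff] at hq
    obtain ⟨hqA, hqG⟩ := hq
    have h1 := mem_AA.1 hqA
    have hq0 : q ≠ 0 := by
      have := h1.1.1
      have h2 : 0 < 2 ^ j := by positivity
      omega
    rw [← Finset.sum_filter, ← ArithmeticFunction.vonMangoldt_sum]
    refine Finset.sum_congr ?_ fun _ _ => rfl
    ext d
    rw [Nat.mem_divisors, Finset.mem_filter]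
    constructor
    · rintro ⟨hd, -⟩
      refine ⟨?_, hd⟩
      have hd1 : 1 ≤ d := Nat.pos_of_dvd_of_pos hd (Nat.pos_of_ne_zero hq0)
      have hd2 : d ≤ 2 ^ (j + 1) := (Nat.le_of_dvd (Nat.pos_of_ne_zero hq0) hd).trans h1.1.2
      rw [hS, Finset.mem_union, Finset.mem_union, Finset.mem_Icc, Finset.mem_Ioc,
        Finset.mem_filter, Finset.mem_Ioc]
      by_cases h3 : d ≤ D1 m z j
      · exact Or.inl ⟨hd1, h3⟩
      · right
        by_cases h4 : d ≤ 2 ^ (j + 1) / m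
        · exact Or.inl ⟨by omega, h4⟩
        · right
          refine ⟨⟨by omega, hd2⟩, ?_⟩
          intro hp
          apply hqG
          rw [mem_GG]
          refine ⟨hqA, d, hp, hd, ?_⟩
          rw [not_le] at h4
          exact (Nat.div_lt_iff_lt_mul hm).1 h4
    · rintro ⟨-, hd⟩
      exact ⟨hd, hq0⟩
  have h1 : (((AA m z j \ GG m z j).card : ℕ) : ℝ) * (j * Real.log 2) ≤
      ∑ q ∈ AA m z j \ GG m z j, Real.log q := by
    rw [← nsmul_eq_mul]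
    refine Finset.card_nsmul_le_sum _ _ _ fun q hq => ?_
    exact hlog q (Finset.mem_sdiff.1 hq).1
  have h2 : ∑ q ∈ AA m z j \ GG m z j, Real.log q ≤
      ∑ d ∈ S, ArithmeticFunction.vonMangoldt d * (Ad m z j d : ℝ) := by
    rw [Finset.sum_congr rfl hdiv, Finset.sum_comm]
    refine Finset.sum_le_sum fun d _ => ?_
    rw [← Finset.sum_filter, Finset.sum_const, nsmul_eq_mul, mul_comm]
    refine mul_le_mul_of_nonneg_left ?_ ArithmeticFunction.vonMangoldt_nonneg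
    have h3 : ((AA m z j \ GG m z j).filter (fun q => d ∣ q)).card ≤ Ad m z j d := by
      unfold Ad
      exact Finset.card_le_card (Finset.filter_subset_filter _ Finset.sdiff_subset)
    exact_mod_cast h3
  have hnn : ∀ d, 0 ≤ ArithmeticFunction.vonMangoldt d * (Ad m z j d : ℝ) := fun d =>
    mul_nonneg ArithmeticFunction.vonMangoldt_nonneg (Nat.cast_nonneg _)
  have h3 := n4b_sum_union (s := Icc 1 (D1 m z j)) (t := Ioc (D1 m z j) (2 ^ (j + 1) / m) ∪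
    (Ioc (2 ^ (j + 1) / m) (2 ^ (j + 1))).filter (fun d => ¬ d.Prime)) hnn
  have h4 := n4b_sum_union (s := Ioc (D1 m z j) (2 ^ (j + 1) / m))
    (t := (Ioc (2 ^ (j + 1) / m) (2 ^ (j + 1))).filter (fun d => ¬ d.Prime)) hnn
  rw [← hS] at h3
  rw [← hcard]
  linarith

/-- Growth. -/
private theorem n4b_growth (K k : ℕ) : ∃ n₀ : ℕ, ∀ n : ℕ, n₀ ≤ n →
    (K : ℝ) * (1 + Real.log (1 + n)) ^ k ≤ 38 / 100 * n := by
  have hK : (0 : ℝ) < K + 1 := by positivity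
  have h := (Real.isLittleO_pow_log_id_atTop (n := k)).def
    (show (0 : ℝ) < 38 / 600 / (K + 1) by positivity)
  have ht : Filter.Tendsto (fun n : ℕ => Real.exp 1 * (1 + (n : ℝ))) Filter.atTop Filter.atTop :=
    Filter.Tendsto.const_mul_atTop (Real.exp_pos 1)
      (Filter.tendsto_atTop_add_const_left _ _ tendsto_natCast_atTop_atTop)
  obtain ⟨n₀, hn₀⟩ := Filter.eventually_atTop.1 (ht.eventually h)
  refine ⟨max n₀ 1, fun n hn => ?_⟩
  have h1 := hn₀ n (le_trans (le_max_left _ _) hn)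
  have hn1 : (1 : ℝ) ≤ n := by exact_mod_cast le_trans (le_max_right _ _) hn
  have hn2 : (0 : ℝ) < 1 + n := by linarith
  rw [Real.log_mul (Real.exp_pos 1).ne' hn2.ne', Real.log_exp] at h1
  simp only [id_eq, Real.norm_eq_abs] at h1
  have h2 : |(1 + Real.log (1 + (n : ℝ))) ^ k| = (1 + Real.log (1 + (n : ℝ))) ^ k := by
    apply abs_of_nonneg
    have : 0 ≤ Real.log (1 + (n : ℝ)) := Real.log_nonneg (by linarith)
    positivity
  have h3 : |Real.exp 1 * (1 + (n : ℝ))| = Real.exp 1 * (1 + (n : ℝ)) :=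
    abs_of_pos (mul_pos (Real.exp_pos 1) hn2)
  rw [h2, h3] at h1
  have h4 : Real.exp 1 ≤ 3 := by
    have := Real.exp_one_lt_d9
    linarith
  have h5 : Real.exp 1 * (1 + (n : ℝ)) ≤ 6 * n := by nlinarith
  have h6 : (1 + Real.log (1 + (n : ℝ))) ^ k ≤ 38 / 600 / (K + 1) * (6 * n) :=
    h1.trans (mul_le_mul_of_nonneg_left h5 (by positivity))
  have h7 : (K : ℝ) * (1 + Real.log (1 + n)) ^ k ≤ (K + 1) * (38 / 600 / (K + 1) * (6 * n)) := by
    refine mul_le_mul (by linarith) h6 ?_ hK.le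
    have : 0 ≤ Real.log (1 + (n : ℝ)) := Real.log_nonneg (by linarith)
    positivity
  have h8 : ((K : ℝ) + 1) * (38 / 600 / (K + 1) * (6 * n)) = 38 / 100 * n := by
    field_simp
    ring
  linarith

theorem good_q : ∃ C n₀ : ℕ, 1 ≤ C ∧ ∀ n : ℕ, n₀ ≤ n → ∀ j : ℕ, 40 * n ≤ j → j < 80 * n →
    ∀ m : ℕ, 2 ^ (2 * n) ≤ m → m ≤ 2 ^ (5 * n) →
    (2 : ℝ) ^ j / (m * psi C n) ≤ ((GG m (n ^ 4) j).card : ℝ) := by
  obtain ⟨n1, h1⟩ := AA_lower
  obtain ⟨C2, n2, hC2, h2⟩ := small_d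
  obtain ⟨C3, n3, hC3, h3⟩ := middle_d
  obtain ⟨n4, h4⟩ := powers_d
  obtain ⟨C0, hC0, h0⟩ := V_lower
  obtain ⟨n5, h5⟩ := n4b_growth ((C2 + C3 + 81) * C0) (C0 + 2)
  refine ⟨80 * C0, max 1 (max n1 (max n2 (max n3 (max n4 n5)))), by omega, ?_⟩
  intro n hn j hj1 hj2 m hm1 hm2
  simp only [max_le_iff] at hn
  obtain ⟨hn1, hna, hnb, hnc, hnd, hne⟩ := hn
  have hm : 2 ≤ m := by
    have : 2 ^ 1 ≤ 2 ^ (2 * n) := Nat.pow_le_pow_right (by norm_num) (by omega)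
    omega
  have hA := h1 n hna j hj1 hj2 m hm hm2
  have hS := h2 n hnb j hj1 hj2 m hm hm2
  have hM := h3 n hnc j hj1 hj2 m hm hm2
  have hP := h4 n hnd j hj1 hj2 m hm hm2
  have hV := h0 n m hn1 (by omega)
  have hG := h5 n hne
  have hcount := n4b_count m (n ^ 4) j (by omega)
  -- real quantities
  have hnR : (1 : ℝ) ≤ n := by exact_mod_cast hn1
  have hmR : (0 : ℝ) < m := by exact_mod_cast (by omega : 0 < m)
  have h2j : (0 : ℝ) < 2 ^ j := by positivity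
  obtain ⟨Y, hY⟩ : ∃ Y : ℝ, Y = (2 : ℝ) ^ j / m := ⟨_, rfl⟩
  have hYpos : 0 < Y := by rw [hY]; positivity
  obtain ⟨L, hL⟩ : ∃ L : ℝ, L = (j : ℝ) * Real.log 2 := ⟨_, rfl⟩
  have hlog2 : 0.6931471803 < Real.log 2 := Real.log_two_gt_d9
  have hlog2' : Real.log 2 < 0.6931471808 := Real.log_two_lt_d9
  have hjR : (40 : ℝ) * n ≤ j := by exact_mod_cast hj1
  have hjR2 : (j : ℝ) ≤ 80 * n := by exact_mod_cast hj2.le
  have hL0 : 0 < L := by
    rw [hL]
    have : (0 : ℝ) < j := by linarith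
    exact mul_pos this (by linarith)
  have hL1 : L ≤ 80 * n := by
    rw [hL]
    have hj0 : (0 : ℝ) ≤ j := Nat.cast_nonneg _
    nlinarith
  have hlogY : Real.log ((2 : ℝ) ^ j / m) = L - Real.log m := by
    rw [Real.log_div h2j.ne' hmR.ne', Real.log_pow, hL]
  have hlogm : 2 * n * Real.log 2 ≤ Real.log m := by
    have h6 : ((2 : ℝ) ^ (2 * n)) ≤ (m : ℝ) := by exact_mod_cast hm1
    have h7 := Real.log_le_log (by positivity) h6
    rw [Real.log_pow] at h7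
    push_cast at h7
    exact h7
  rw [hlogY] at hS
  rw [← hY] at hA hS hM hP
  rw [← hL] at hcount
  have hx0 : 0 ≤ Real.log (1 + (n : ℝ)) := Real.log_nonneg (by linarith)
  have hlogn0 : 0 ≤ Real.log (n : ℝ) := Real.log_nonneg hnR
  have hlogn : Real.log (n : ℝ) ≤ Real.log (1 + (n : ℝ)) :=
    Real.log_le_log (by linarith) (by linarith)
  obtain ⟨x, hx⟩ : ∃ x : ℝ, x = 1 + Real.log (1 + (n : ℝ)) := ⟨_, rfl⟩
  have hx1 : 1 ≤ x := by rw [hx]; linarith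
  have hpsi : psi C0 n = C0 * x ^ C0 := by rw [hx]; rfl
  have hC0R : (1 : ℝ) ≤ C0 := by exact_mod_cast hC0
  have hpsipos : 0 < psi C0 n := by
    rw [hpsi]
    have : 0 < x ^ C0 := by positivity
    exact mul_pos (by linarith) this
  -- `L / n^8 ≤ 80`
  have hLn : L * (1 / (n : ℝ) ^ 8) ≤ 80 := by
    have h6 : (n : ℝ) ≤ (n : ℝ) ^ 8 := le_self_pow₀ hnR (by norm_num)
    have h7 : (0 : ℝ) < (n : ℝ) ^ 8 := by positivity
    rw [mul_one_div, div_le_iff₀ h7]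
    nlinarith
  -- combine
  have hAL : Y * (V m (n ^ 4) - 1 / (n : ℝ) ^ 8) * L ≤ ((AA m (n ^ 4) j).card : ℝ) * L :=
    mul_le_mul_of_nonneg_right hA hL0.le
  have hlogsq : (1 + Real.log (n : ℝ)) ^ 2 ≤ x ^ 2 := by
    apply pow_le_pow_left₀ (by linarith)
    rw [hx]
    linarith
  have hC3R : (0 : ℝ) ≤ C3 := Nat.cast_nonneg _
  have hC2R : (0 : ℝ) ≤ C2 := Nat.cast_nonneg _
  have hVm : (2 * n * Real.log 2) * (1 / psi C0 n) ≤ Real.log m * V m (n ^ 4) :=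
    mul_le_mul hlogm hV (by positivity) (by
      have : 0 ≤ 2 * (n : ℝ) * Real.log 2 := by positivity
      linarith)
  have hmain : Y * ((2 * n * Real.log 2) * (1 / psi C0 n) - (C2 + C3 + 81) * x ^ 2) ≤
      ((GG m (n ^ 4) j).card : ℝ) * L := by
    have h6 : ((GG m (n ^ 4) j).card : ℝ) * L ≥
        Y * (V m (n ^ 4) - 1 / (n : ℝ) ^ 8) * L -
          (Y * (V m (n ^ 4) * (L - Real.log m) + C2) + (Y * (C3 * (1 + Real.log n) ^ 2) + Y)) := by
      have : (((AA m (n ^ 4) j).card : ℝ) - ((GG m (n ^ 4) j).card : ℝ)) * L =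
        ((AA m (n ^ 4) j).card : ℝ) * L - ((GG m (n ^ 4) j).card : ℝ) * L := by ring
      linarith
    have h7 : Y * (V m (n ^ 4) - 1 / (n : ℝ) ^ 8) * L -
          (Y * (V m (n ^ 4) * (L - Real.log m) + C2) + (Y * (C3 * (1 + Real.log n) ^ 2) + Y)) =
        Y * (Real.log m * V m (n ^ 4) - L * (1 / (n : ℝ) ^ 8) - C2 - C3 * (1 + Real.log n) ^ 2 - 1) := by
      ring
    have hx2 : 1 ≤ x ^ 2 := one_le_pow₀ hx1
    have h8 : (2 * n * Real.log 2) * (1 / psi C0 n) - (C2 + C3 + 81) * x ^ 2 ≤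
        Real.log m * V m (n ^ 4) - L * (1 / (n : ℝ) ^ 8) - C2 - C3 * (1 + Real.log n) ^ 2 - 1 := by
      have h9 : (C3 : ℝ) * (1 + Real.log n) ^ 2 ≤ C3 * x ^ 2 := mul_le_mul_of_nonneg_left hlogsq hC3R
      have h10 : (C2 : ℝ) ≤ C2 * x ^ 2 := le_mul_of_one_le_right hC2R hx2
      nlinarith
    have h11 := mul_le_mul_of_nonneg_left h8 hYpos.le
    linarith
  have hgrow : (C2 + C3 + 81 : ℝ) * x ^ 2 * psi C0 n ≤ 38 / 100 * n := by
    rw [hpsi]
    push_cast at hG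
    rw [← hx] at hG
    have : (C2 + C3 + 81 : ℝ) * x ^ 2 * (C0 * x ^ C0) = (C2 + C3 + 81) * C0 * x ^ (C0 + 2) := by ring
    rw [this]
    exact hG
  have hkey : (n : ℝ) * (1 / psi C0 n) ≤
      (2 * n * Real.log 2) * (1 / psi C0 n) - (C2 + C3 + 81) * x ^ 2 := by
    have h6 : (C2 + C3 + 81 : ℝ) * x ^ 2 ≤ 38 / 100 * n * (1 / psi C0 n) := by
      rw [mul_one_div, le_div_iff₀ hpsipos]
      exact hgrow
    have h7 : (n : ℝ) * (1 / psi C0 n) + 38 / 100 * n * (1 / psi C0 n) ≤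
        (2 * n * Real.log 2) * (1 / psi C0 n) := by
      rw [← add_mul]
      refine mul_le_mul_of_nonneg_right ?_ (by positivity)
      nlinarith
    linarith
  have hfin : Y * ((n : ℝ) * (1 / psi C0 n)) ≤ ((GG m (n ^ 4) j).card : ℝ) * (80 * n) := by
    have h6 := mul_le_mul_of_nonneg_left hkey hYpos.le
    have h7 : ((GG m (n ^ 4) j).card : ℝ) * L ≤ ((GG m (n ^ 4) j).card : ℝ) * (80 * n) :=
      mul_le_mul_of_nonneg_left hL1 (Nat.cast_nonneg _)
    linarith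
  have hfin2 : Y * (1 / psi C0 n) ≤ ((GG m (n ^ 4) j).card : ℝ) * 80 := by
    have h6 : Y * ((n : ℝ) * (1 / psi C0 n)) = (Y * (1 / psi C0 n)) * n := by ring
    have h7 : ((GG m (n ^ 4) j).card : ℝ) * (80 * n) = (((GG m (n ^ 4) j).card : ℝ) * 80) * n := by ring
    rw [h6, h7] at hfin
    exact le_of_mul_le_mul_right hfin (by linarith)
  have hpsi2 : 80 * psi C0 n ≤ psi (80 * C0) n := by
    have h6 : psi (80 * C0) n = 80 * C0 * x ^ (80 * C0) := by
      rw [hx]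
      unfold psi
      push_cast
      rfl
    rw [h6, hpsi]
    have h7 : x ^ C0 ≤ x ^ (80 * C0) := pow_le_pow_right₀ hx1 (by omega)
    have h8 := mul_le_mul_of_nonneg_left h7 (show (0 : ℝ) ≤ 80 * C0 by positivity)
    linarith
  calc (2 : ℝ) ^ j / (m * psi (80 * C0) n) = Y / psi (80 * C0) n := by rw [hY, div_div]
    _ ≤ Y / (80 * psi C0 n) := by
        apply div_le_div_of_nonneg_left hYpos.le (by positivity) hpsi2
    _ = (Y * (1 / psi C0 n)) / 80 := by field_simp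
    _ ≤ ((GG m (n ^ 4) j).card : ℝ) := by
        rw [div_le_iff₀ (by norm_num)]
        exact hfin2

end Pool.Agent.Helper1.ES
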