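import Pool.Agent.Helper1.ES.Defs
import Pool.Agent.Helper1.ES.St.N4b
import Pool.Agent.Helper1.ES.St.N4c

/-!
ES-N4 lower bound for the mass.  For each coprime pair `(u,k)`, `m = a u k ∈ [2^{2n}, 2^{5n}]`, each `j ∈ [40n, 80n)` and
each `q ∈ GG m (n^4) j` take a prime `l ∣ q` with `2^{j+1} < l m` and `s = q / l`: then `s < m` (as `q ≤ 2^{j+1} < l m`),
`s ≥ 1`, `s ≤ 2^{5n}`, `s` is rough (divides `q`), `l > 2^{j+1}/m ≥ 2^{35n}`, `l ≤ q ≤ 2^{80n}`, `m ∣ l s + 1`; so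
`(u,k,l,s) ∈ Om a n (n^4)`.  The map `(u,k,j,q) ↦ (u,k,l,s)` is injective (`q = l s`, `j` is determined by `q`).
Hence `mu ≥ ∑_{(u,k)} ∑_j ∑_{q ∈ GG} 1/q ≥ ∑_{(u,k)} ∑_j |GG| / 2^{j+1} ≥ ∑_{(u,k)} 40 n / (2 a u k psi)
≥ (20 n/(a psi)) (n^2/20)` (`good_q`, `pairs_sum`).
-/

set_option autoImplicit false

namespace Pool.Agent.Helper1.ES

open Finset

private theorem n4_psi_pos {C n : ℕ} (hC : 1 ≤ C) : 0 < psi C n := by
  unfold psi
  have h1 : (0 : ℝ) ≤ Real.log (1 + n) := by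
    apply Real.log_nonneg
    have : (0 : ℝ) ≤ n := Nat.cast_nonneg n
    linarith
  have h2 : (0 : ℝ) < C := by
    have : (0 : ℕ) < C := hC
    exact_mod_cast this
  positivity

private theorem n4_mem {a n u k j q : ℕ} (ha : 1 ≤ a) (han : a ≤ 2 ^ n)
    (hu1 : 2 ^ n < u) (hu2 : u ≤ 2 ^ (2 * n)) (hk1 : 2 ^ n < k) (hk2 : k ≤ 2 ^ (2 * n))
    (huk : Nat.Coprime u k) (hj1 : 40 * n ≤ j) (hj2 : j < 80 * n)
    (hq : q ∈ GG (a * u * k) (n ^ 4) j) :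
    ∃ w ∈ Om a n (n ^ 4), (w.u, w.k) = (u, k) ∧ w.l * w.s = q := by
  obtain ⟨hA, l, hl, hlq, hlm⟩ := mem_GG.mp hq
  obtain ⟨⟨hq1, hq2⟩, hmq, hrough⟩ := mem_AA.mp hA
  obtain ⟨s, rfl⟩ := hlq
  have hm5 : a * u * k ≤ 2 ^ (5 * n) := by
    calc a * u * k ≤ 2 ^ n * 2 ^ (2 * n) * 2 ^ (2 * n) := by gcongr
      _ = 2 ^ (5 * n) := by rw [← pow_add, ← pow_add]; congr 1; ring
  have hspos : 1 ≤ s := by
    rcases Nat.eq_zero_or_pos s with h | h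
    · rw [h, mul_zero] at hq1
      exact absurd hq1 (Nat.not_lt_zero _)
    · exact h
  have hsm : s < a * u * k := by
    have h1 : l * s < l * (a * u * k) := lt_of_le_of_lt hq2 hlm
    exact Nat.lt_of_mul_lt_mul_left h1
  have hl1 : 2 ^ (35 * n) < l := by
    have h1 : 2 ^ (35 * n) * 2 ^ (5 * n) < l * 2 ^ (5 * n) := by
      calc 2 ^ (35 * n) * 2 ^ (5 * n) = 2 ^ (40 * n) := by rw [← pow_add]; congr 1; ring
        _ ≤ 2 ^ (j + 1) := Nat.pow_le_pow_right (by norm_num) (by omega)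
        _ < l * (a * u * k) := hlm
        _ ≤ l * 2 ^ (5 * n) := Nat.mul_le_mul_left _ hm5
    exact Nat.lt_of_mul_lt_mul_right h1
  have hl2 : l ≤ 2 ^ (80 * n) := by
    calc l ≤ l * s := Nat.le_mul_of_pos_right _ hspos
      _ ≤ 2 ^ (j + 1) := hq2
      _ ≤ 2 ^ (80 * n) := Nat.pow_le_pow_right (by norm_num) (by omega)
  refine ⟨⟨u, k, l, s⟩, ?_, rfl, rfl⟩
  rw [mem_Om]
  refine ⟨⟨hu1, hu2⟩, ⟨hk1, hk2⟩, ⟨hl1, hl2⟩, ⟨hspos, hsm.le.trans hm5⟩, huk, hl, hsm, hmq, ?_⟩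
  intro p hp hps
  exact hrough p hp (Dvd.dvd.mul_left hps l)

private theorem n4_disj {m z i j : ℕ} (hij : i < j) : Disjoint (GG m z i) (GG m z j) := by
  rw [Finset.disjoint_left]
  intro x hx hy
  have h1 := (mem_AA.mp (mem_GG.mp hx).1).1.2
  have h2 := (mem_AA.mp (mem_GG.mp hy).1).1.1
  have h3 : 2 ^ (i + 1) ≤ 2 ^ j := Nat.pow_le_pow_right (by norm_num) hij
  omega

private theorem n4_row {C n m j : ℕ} (hC : 1 ≤ C) (hm : 0 < m)
    (h : (2 : ℝ) ^ j / (m * psi C n) ≤ ((GG m (n ^ 4) j).card : ℝ)) :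
    1 / (2 * (m * psi C n)) ≤ ∑ q ∈ GG m (n ^ 4) j, 1 / (q : ℝ) := by
  have hpsi := n4_psi_pos (n := n) hC
  have hm' : (0 : ℝ) < m := by exact_mod_cast hm
  have h2 : (0 : ℝ) < 2 ^ j := by positivity
  calc 1 / (2 * (m * psi C n)) = (2 : ℝ) ^ j / (m * psi C n) * (1 / 2 ^ (j + 1)) := by
        rw [pow_succ]
        field_simp
    _ ≤ ((GG m (n ^ 4) j).card : ℝ) * (1 / 2 ^ (j + 1)) := by
        apply mul_le_mul_of_nonneg_right h
        positivity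
    _ = ∑ q ∈ GG m (n ^ 4) j, 1 / (2 : ℝ) ^ (j + 1) := by
        rw [Finset.sum_const, nsmul_eq_mul]
    _ ≤ ∑ q ∈ GG m (n ^ 4) j, 1 / (q : ℝ) := by
        apply Finset.sum_le_sum
        intro q hq
        have h3 := (mem_AA.mp (mem_GG.mp hq).1).1
        have h4 : (0 : ℝ) < q := by
          have : 0 < q := lt_of_le_of_lt (Nat.zero_le _) h3.1
          exact_mod_cast this
        have h5 : (q : ℝ) ≤ 2 ^ (j + 1) := by exact_mod_cast h3.2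
        exact one_div_le_one_div_of_le h4 h5

theorem mu_lower : ∃ C n₀ : ℕ, 1 ≤ C ∧ ∀ n : ℕ, n₀ ≤ n → ∀ a : ℕ, 1 ≤ a → a ≤ 2 ^ n →
    (n : ℝ) ^ 3 / (a * psi C n) ≤ mu (Om a n (n ^ 4)) := by
  classical
  obtain ⟨C, n1, hC, hgood⟩ := good_q
  obtain ⟨n2, hpairs⟩ := pairs_sum
  refine ⟨C, max n1 n2, hC, ?_⟩
  intro n hn a ha han
  have hn1 : n1 ≤ n := le_trans (le_max_left _ _) hn
  have hn2 : n2 ≤ n := le_trans (le_max_right _ _) hn
  have hpsi : 0 < psi C n := n4_psi_pos hC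
  have ha' : (0 : ℝ) < a := by exact_mod_cast ha
  have hp := hpairs n hn2
  set P := ((Ioc (2 ^ n) (2 ^ (2 * n))) ×ˢ (Ioc (2 ^ n) (2 ^ (2 * n)))).filter
      (fun q : ℕ × ℕ => Nat.Coprime q.1 q.2) with hP
  have hmemP : ∀ q : ℕ × ℕ, q ∈ P ↔ ((2 ^ n < q.1 ∧ q.1 ≤ 2 ^ (2 * n)) ∧
      (2 ^ n < q.2 ∧ q.2 ≤ 2 ^ (2 * n))) ∧ Nat.Coprime q.1 q.2 := by
    intro q
    rw [hP, mem_filter, mem_product, mem_Ioc, mem_Ioc]
  have hfib : ∀ q ∈ P, 20 * (n : ℝ) / (a * psi C n) * (1 / ((q.1 : ℝ) * q.2)) ≤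
      ∑ w ∈ (Om a n (n ^ 4)).filter (fun w => (w.u, w.k) = q), 1 / ((w.l : ℝ) * w.s) := by
    rintro ⟨u, k⟩ hq
    obtain ⟨⟨⟨hu1, hu2⟩, hk1, hk2⟩, huk⟩ := (hmemP _).mp hq
    simp only at hu1 hu2 hk1 hk2 huk
    have hu0 : 0 < u := lt_of_le_of_lt (Nat.zero_le _) hu1
    have hk0 : 0 < k := lt_of_le_of_lt (Nat.zero_le _) hk1
    have hm0 : 0 < a * u * k := by positivity
    have hm2 : 2 ^ (2 * n) ≤ a * u * k := by
      calc 2 ^ (2 * n) = 1 * 2 ^ n * 2 ^ n := by rw [one_mul, ← pow_add]; congr 1; ring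
        _ ≤ a * u * k := by gcongr
    have hm5 : a * u * k ≤ 2 ^ (5 * n) := by
      calc a * u * k ≤ 2 ^ n * 2 ^ (2 * n) * 2 ^ (2 * n) := by gcongr
        _ = 2 ^ (5 * n) := by rw [← pow_add, ← pow_add]; congr 1; ring
    set Q := (Ico (40 * n) (80 * n)).biUnion (fun j => GG (a * u * k) (n ^ 4) j) with hQ
    have hex : ∀ q : ℕ, ∃ w : Tr, q ∈ Q →
        w ∈ Om a n (n ^ 4) ∧ (w.u, w.k) = (u, k) ∧ w.l * w.s = q := by
      intro q
      by_cases hqQ : q ∈ Q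
      · obtain ⟨j, hj, hqj⟩ := mem_biUnion.mp hqQ
        rw [mem_Ico] at hj
        obtain ⟨w, h1, h2, h3⟩ := n4_mem ha han hu1 hu2 hk1 hk2 huk hj.1 hj.2 hqj
        exact ⟨w, fun _ => ⟨h1, h2, h3⟩⟩
      · exact ⟨⟨0, 0, 0, 0⟩, fun h => absurd h hqQ⟩
    choose F hF using hex
    have hinj : Set.InjOn F (Q : Set ℕ) := by
      intro x hx y hy hxy
      have h1 := (hF x hx).2.2
      have h2 := (hF y hy).2.2
      rw [← h1, ← h2, hxy]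
    have h1 : ∑ q ∈ Q, 1 / (q : ℝ) = ∑ w ∈ Q.image F, 1 / ((w.l : ℝ) * w.s) := by
      rw [Finset.sum_image hinj]
      apply Finset.sum_congr rfl
      intro q hqQ
      have h2 := (hF q hqQ).2.2
      have h3 : ((F q).l : ℝ) * (F q).s = q := by exact_mod_cast h2
      rw [h3]
    have h2 : ∑ w ∈ Q.image F, 1 / ((w.l : ℝ) * w.s) ≤
        ∑ w ∈ (Om a n (n ^ 4)).filter (fun w => (w.u, w.k) = (u, k)),
          1 / ((w.l : ℝ) * w.s) := by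
      apply Finset.sum_le_sum_of_subset_of_nonneg
      · intro w hw
        obtain ⟨q, hqQ, rfl⟩ := mem_image.mp hw
        rw [mem_filter]
        exact ⟨(hF q hqQ).1, (hF q hqQ).2.1⟩
      · intro w _ _
        positivity
    have h3 : ∑ q ∈ Q, 1 / (q : ℝ) =
        ∑ j ∈ Ico (40 * n) (80 * n), ∑ q ∈ GG (a * u * k) (n ^ 4) j, 1 / (q : ℝ) := by
      rw [hQ]
      apply Finset.sum_biUnion
      intro i _ j _ hij
      rcases Nat.lt_or_gt_of_ne hij with h | h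
      · exact n4_disj h
      · exact (n4_disj h).symm
    have h4 : ∑ j ∈ Ico (40 * n) (80 * n), 1 / (2 * (((a * u * k : ℕ) : ℝ) * psi C n)) ≤
        ∑ j ∈ Ico (40 * n) (80 * n), ∑ q ∈ GG (a * u * k) (n ^ 4) j, 1 / (q : ℝ) := by
      apply Finset.sum_le_sum
      intro j hj
      rw [mem_Ico] at hj
      exact n4_row hC hm0 (hgood n hn1 j hj.1 hj.2 (a * u * k) hm2 hm5)
    have hu' : (0 : ℝ) < u := by exact_mod_cast hu0
    have hk' : (0 : ℝ) < k := by exact_mod_cast hk0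
    have h5 : ∑ j ∈ Ico (40 * n) (80 * n), 1 / (2 * (((a * u * k : ℕ) : ℝ) * psi C n)) =
        20 * (n : ℝ) / (a * psi C n) * (1 / ((u : ℝ) * k)) := by
      rw [Finset.sum_const, Nat.card_Ico, nsmul_eq_mul]
      have h6 : 80 * n - 40 * n = 40 * n := by omega
      rw [h6]
      push_cast
      field_simp
      ring
    calc 20 * (n : ℝ) / (a * psi C n) * (1 / ((u : ℝ) * k))
        = ∑ j ∈ Ico (40 * n) (80 * n), 1 / (2 * (((a * u * k : ℕ) : ℝ) * psi C n)) := h5.symm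
      _ ≤ _ := h4
      _ = _ := h3.symm
      _ = _ := h1
      _ ≤ _ := h2
  have hmaps : ∀ w ∈ Om a n (n ^ 4), (w.u, w.k) ∈ P := by
    intro w hw
    obtain ⟨h1, h2, -, -, h5, -⟩ := mem_Om.mp hw
    exact (hmemP _).mpr ⟨⟨h1, h2⟩, h5⟩
  calc (n : ℝ) ^ 3 / (a * psi C n)
      = 20 * (n : ℝ) / (a * psi C n) * ((n : ℝ) ^ 2 / 20) := by
        field_simp
    _ ≤ 20 * (n : ℝ) / (a * psi C n) * ∑ q ∈ P, 1 / ((q.1 : ℝ) * q.2) := by
        apply mul_le_mul_of_nonneg_left hp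
        positivity
    _ = ∑ q ∈ P, 20 * (n : ℝ) / (a * psi C n) * (1 / ((q.1 : ℝ) * q.2)) := by
        rw [Finset.mul_sum]
    _ ≤ ∑ q ∈ P, ∑ w ∈ (Om a n (n ^ 4)).filter (fun w => (w.u, w.k) = q),
          1 / ((w.l : ℝ) * w.s) := Finset.sum_le_sum hfib
    _ = mu (Om a n (n ^ 4)) := by
        rw [mu]
        exact Finset.sum_fiberwise_of_maps_to hmaps _

end Pool.Agent.Helper1.ES
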